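import Pool.Agent.H36.CY.Df

/-!
ROW Sq (project MP_78d38b_CY, about 120 lines): squares and the root near `-6` in a complete field.

PROOF of sq_near. `z ≠ 0` (otherwise `Valued.v (4 * z) = 0`), `y / z = 1 + x`, `x = (y - z) / z`, `Valued.v x < Valued.v 4`; `Pool.Agent.H10.isSquare_one_add`
(`GrHen.lean`; `2 ≠ 0` by `CharZero`) gives `y / z = r * r`; `r ≠ 0` since `Valued.v (y - z) < Valued.v (4 * z) ≤ Valued.v z` shows `y ≠ 0`
(`Valued.v 4 ≤ 1`: `Valuation.map_natCast_le_one` or `4 = 1 + 1 + 1 + 1`).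

PROOF of close_one. `(n - 1) (n + 1) = n^2 - 1`. If `Valued.v (n + 1) < Valued.v (n - 1)` replace `n` by `-n`; so we may assume
`Valued.v (n - 1) ≤ Valued.v (n + 1)`. `(n + 1) - (n - 1) = 2`. If `Valued.v (n + 1) ≠ Valued.v 2` then (ultrametric equality)
`Valued.v (n - 1) = Valued.v (n + 1) > Valued.v 2`, and the product is `≥ Valued.v 4`, contradiction to the hypothesis (`Valued.v 16 ≤ Valued.v 4`).
So `Valued.v (n + 1) = Valued.v 2` and `Valued.v (n - 1) * Valued.v 2 < Valued.v 16 = Valued.v 8 * Valued.v 2`.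

PROOF of root_F. Put `θ = -6 + h`: the equation is `h ^ 3 - 18 h ^ 2 + (108 + a) h + c = 0` with `c = b - 6 a - 216 = (b + 3 a + 27) - 9 (a + 27)`,
`Valued.v c < Valued.v (2 ^ 8) < 1`, and `108 + a = 81 + (a + 27)` has value one (`Valued.v 81 = 1`: `81 = 1 + 2 * 40`, `Valued.v 2 < 1`). Newton iteration as in
`Pool/Agent/H10/GrHen.lean` (`hsq`, `exists_sq_add_self`): `h_0 = 0`, `h_{n+1} = -(h_n ^ 3 - 18 h_n ^ 2 + c) / (108 + a)`; `Valued.v h_n ≤ Valued.v c`,
`Valued.v (h_{n+1} - h_n) ≤ exp (-(n+1))`; the limit `h` satisfies the equation. Then `(108 + a) h = -(h ^ 3 - 18 h ^ 2) - c` and `Valued.v h ≤ Valued.v c < 1`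
(limit of elements of the closed ball, or: `Valued.v (h ^ 3 - 18 h ^ 2) < Valued.v h` unless `h = 0`), so `Valued.v h ≤ Valued.v c < Valued.v (2 ^ 8)`.
(Alternatively use a Hensel lemma of Mathlib for `v.adicCompletionIntegers`; but the statement is for general `F`.)
-/

set_option autoImplicit false
set_option linter.unusedSectionVars false
open scoped Classical

open WithZero NumberField IsDedekindDomain H76PP Topology Filter

namespace H36CY

variable {F : Type*} [Field F] [CharZero F] [Valued F (WithZero (Multiplicative ℤ))]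

lemma v_nat_le (n : ℕ) : Valued.v (n : F) ≤ 1 := by
  induction n with
  | zero => rw [Nat.cast_zero, map_zero]; exact zero_le
  | succ n ih =>
    rw [Nat.cast_succ]
    exact (Valuation.map_add _ _ _).trans (max_le ih (by rw [map_one]))

theorem sq_near [CompleteSpace F] {y z : F} (h : Valued.v (y - z) < Valued.v (4 * z)) :
    ∃ r : F, r ≠ 0 ∧ y = z * r ^ 2 := by
  have hz : z ≠ 0 := by
    rintro rfl
    rw [mul_zero, map_zero] at h
    exact not_lt_zero' h
  have hvz : Valued.v z ≠ 0 := (Valuation.ne_zero_iff _).2 hz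
  have hx : Valued.v ((y - z) / z) < Valued.v (4 : F) := by
    rw [map_div₀, div_lt_iff₀ (zero_lt_iff.2 hvz), ← map_mul]
    exact h
  obtain ⟨r, hr⟩ := Pool.Agent.H10.isSquare_one_add (two_ne_zero : (2 : F) ≠ 0) hx
  have hy : y = z * r ^ 2 := by
    rw [pow_two, ← hr]
    field_simp
    ring
  refine ⟨r, ?_, hy⟩
  rintro rfl
  have hy0 : y = 0 := by rw [hy]; ring
  rw [hy0, zero_sub, Valuation.map_neg, map_mul] at h
  have h4 : Valued.v (4 : F) ≤ 1 := by exact_mod_cast v_nat_le (F := F) 4
  have h5 : Valued.v (4 : F) * Valued.v z ≤ 1 * Valued.v z := mul_le_mul_left h4 _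
  rw [one_mul] at h5
  exact absurd h (not_lt.2 h5)

theorem close_one (h2 : Valued.v (2 : F) < 1) {n : F}
    (h : Valued.v (n ^ 2 - 1) < Valued.v (16 : F)) :
    ∃ n' : F, n' ^ 2 = n ^ 2 ∧ Valued.v (n' - 1) < Valued.v (8 : F) := by
  have key : ∀ m : F, Valued.v (m ^ 2 - 1) < Valued.v (16 : F) →
      Valued.v (m - 1) ≤ Valued.v (m + 1) → Valued.v (m - 1) < Valued.v (8 : F) := by
    intro m hm hle
    have h20 : Valued.v (2 : F) ≠ 0 := (Valuation.ne_zero_iff _).2 two_ne_zero
    have e : m ^ 2 - 1 = (m - 1) * (m + 1) := by ring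
    rw [e, map_mul] at hm
    have hsum : Valued.v ((m + 1) - (m - 1)) = Valued.v (2 : F) := by
      congr 1; ring
    have h16 : Valued.v (16 : F) = Valued.v (8 : F) * Valued.v (2 : F) := by
      rw [← map_mul]; norm_num
    by_cases hlt : Valued.v (m - 1) < Valued.v (m + 1)
    · have h1 : Valued.v (m + 1) = Valued.v (2 : F) := by
        rw [← hsum, Valuation.map_sub_eq_of_lt_left _ hlt]
      rw [h1, h16] at hm
      exact lt_of_mul_lt_mul_right hm zero_le
    · have heq : Valued.v (m - 1) = Valued.v (m + 1) := le_antisymm hle (not_lt.1 hlt)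
      exfalso
      have h3 : Valued.v (2 : F) ≤ Valued.v (m + 1) := by
        rw [← hsum]
        exact (Valuation.map_sub _ _ _).trans (max_le le_rfl hle)
      have h4 : Valued.v (2 : F) * Valued.v (2 : F) ≤ Valued.v (m - 1) * Valued.v (m + 1) :=
        mul_le_mul' (h3.trans heq.ge) h3
      have h5 : Valued.v (16 : F) ≤ Valued.v (2 : F) * Valued.v (2 : F) := by
        rw [h16]
        refine mul_le_mul' ?_ le_rfl
        have e8 : (8 : F) = 4 * 2 := by norm_num
        rw [e8, map_mul]
        have h44 : Valued.v (4 : F) ≤ 1 := by exact_mod_cast v_nat_le (F := F) 4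
        calc Valued.v (4 : F) * Valued.v (2 : F) ≤ 1 * Valued.v (2 : F) :=
              mul_le_mul_left h44 _
          _ = _ := one_mul _
      exact absurd hm (not_lt.2 (h5.trans h4))
  rcases le_total (Valued.v (n - 1)) (Valued.v (n + 1)) with hle | hle
  · exact ⟨n, rfl, key n h hle⟩
  · refine ⟨-n, by ring, key (-n) (by rw [neg_sq]; exact h) ?_⟩
    have e1 : -n - 1 = -(n + 1) := by ring
    have e2 : -n + 1 = -(n - 1) := by ring
    rw [e1, e2, Valuation.map_neg, Valuation.map_neg]
    exact hle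

/-- The iteration for the cubic equation. -/
def kk (u c : F) : ℕ → F
  | 0 => 0
  | n + 1 => -((kk u c n) ^ 3 - 18 * (kk u c n) ^ 2 + c) / u

lemma kk_step {u c x : F} (hu : Valued.v u = 1) (hc : Valued.v c < 1)
    (hx : Valued.v x ≤ Valued.v c) : Valued.v (-(x ^ 3 - 18 * x ^ 2 + c) / u) ≤ Valued.v c := by
  have h18 : Valued.v (18 : F) ≤ 1 := by exact_mod_cast v_nat_le (F := F) 18
  rw [map_div₀, hu, div_one, Valuation.map_neg]
  refine (Valuation.map_add _ _ _).trans (max_le ?_ le_rfl)
  refine (Valuation.map_sub _ _ _).trans (max_le ?_ ?_)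
  · have e : x ^ 3 = x * (x * x) := by ring
    rw [e, map_mul, map_mul]
    calc Valued.v x * (Valued.v x * Valued.v x) ≤ Valued.v c * (1 * 1) :=
          mul_le_mul' hx (mul_le_mul' (hx.trans hc.le) (hx.trans hc.le))
      _ = _ := by rw [mul_one, mul_one]
  · have e : 18 * x ^ 2 = x * (18 * x) := by ring
    rw [e, map_mul, map_mul]
    calc Valued.v x * (Valued.v (18 : F) * Valued.v x) ≤ Valued.v c * (1 * 1) :=
          mul_le_mul' hx (mul_le_mul' h18 (hx.trans hc.le))
      _ = _ := by rw [mul_one, mul_one]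

lemma kk_le {u c : F} (hu : Valued.v u = 1) (hc : Valued.v c < 1) (n : ℕ) :
    Valued.v (kk u c n) ≤ Valued.v c := by
  induction n with
  | zero => change Valued.v (0 : F) ≤ _; rw [map_zero]; exact zero_le
  | succ n ih => exact kk_step hu hc ih

lemma kk_succ {u c : F} (hu : Valued.v u = 1) (hc : Valued.v c < 1) (n : ℕ) :
    Valued.v (kk u c (n + 1) - kk u c n) ≤ exp (-((n + 1 : ℕ) : ℤ)) := by
  have hc' := Pool.Agent.H10.lt_one_le_exp hc
  have hu0 : u ≠ 0 := by
    rintro rfl
    rw [map_zero] at hu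
    exact zero_ne_one hu
  induction n with
  | zero =>
    have h1 := kk_le hu hc 1
    change Valued.v (kk u c 1 - 0) ≤ _
    rw [sub_zero]
    refine (h1.trans hc').trans ?_
    exact_mod_cast le_rfl
  | succ n ih =>
    set x := kk u c (n + 1) with hx
    set y := kk u c n with hy
    have hxl : Valued.v x ≤ Valued.v c := kk_le hu hc _
    have hyl : Valued.v y ≤ Valued.v c := kk_le hu hc _
    have e : kk u c (n + 1 + 1) - x =
        -((x - y) * ((x * x + (x * y + y * y)) - 18 * (x + y)) / u) := by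
      have e1 : kk u c (n + 1 + 1) = -(x ^ 3 - 18 * x ^ 2 + c) / u := rfl
      have e2 : x = -(y ^ 3 - 18 * y ^ 2 + c) / u := rfl
      rw [e1]
      nth_rewrite 3 [e2]
      field_simp
      ring
    have h18 : Valued.v (18 : F) ≤ 1 := by exact_mod_cast v_nat_le (F := F) 18
    have hmul : ∀ p q : F, Valued.v p ≤ Valued.v c → Valued.v q ≤ Valued.v c →
        Valued.v (p * q) ≤ Valued.v c := by
      intro p q hp hq
      rw [map_mul]
      calc Valued.v p * Valued.v q ≤ Valued.v c * 1 := mul_le_mul' hp (hq.trans hc.le)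
        _ = _ := mul_one _
    have h1 : Valued.v ((x * x + (x * y + y * y)) - 18 * (x + y)) ≤ exp (-1 : ℤ) := by
      refine le_trans ?_ hc'
      refine (Valuation.map_sub _ _ _).trans (max_le ?_ ?_)
      · exact (Valuation.map_add _ _ _).trans (max_le (hmul _ _ hxl hxl)
          ((Valuation.map_add _ _ _).trans (max_le (hmul _ _ hxl hyl) (hmul _ _ hyl hyl))))
      · rw [map_mul]
        calc Valued.v (18 : F) * Valued.v (x + y) ≤ 1 * Valued.v c :=
              mul_le_mul' h18 ((Valuation.map_add _ _ _).trans (max_le hxl hyl))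
          _ = _ := one_mul _
    rw [e, Valuation.map_neg, map_div₀, hu, div_one, map_mul]
    calc Valued.v (x - y) * Valued.v ((x * x + (x * y + y * y)) - 18 * (x + y))
        ≤ exp (-((n + 1 : ℕ) : ℤ)) * exp (-1 : ℤ) := mul_le_mul' ih h1
      _ = exp (-((n + 1 + 1 : ℕ) : ℤ)) := by
          rw [← exp_add]; congr 1

lemma kk_sub {u c : F} (hu : Valued.v u = 1) (hc : Valued.v c < 1) (n k : ℕ) :
    Valued.v (kk u c (n + k) - kk u c n) ≤ exp (-((n + 1 : ℕ) : ℤ)) := by
  induction k with
  | zero => rw [add_zero, sub_self, map_zero]; exact zero_le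
  | succ k ih =>
    have e : kk u c (n + (k + 1)) - kk u c n =
        (kk u c (n + k + 1) - kk u c (n + k)) + (kk u c (n + k) - kk u c n) := by
      rw [← add_assoc]; ring
    rw [e]
    refine (Valuation.map_add _ _ _).trans (max_le ((kk_succ hu hc _).trans ?_) ih)
    rw [exp_le_exp]
    push_cast
    omega

theorem exists_kk [CompleteSpace F] {u c : F} (hu : Valued.v u = 1) (hc : Valued.v c < 1) :
    ∃ t : F, t ^ 3 - 18 * t ^ 2 + u * t + c = 0 ∧ Valued.v t ≤ Valued.v c := by
  have hu0 : u ≠ 0 := by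
    rintro rfl
    rw [map_zero] at hu
    exact zero_ne_one hu
  have hcau : CauchySeq (kk u c) := by
    rw [CauchySeq, Valued.cauchy_iff]
    refine ⟨inferInstance, fun γ => ?_⟩
    obtain ⟨N, hN⟩ := exists_exp_neg_natCast_lt
      (x := MonoidWithZeroHom.ValueGroup₀.embedding γ.1) (by simp)
    refine ⟨kk u c '' Set.Ici N, Filter.image_mem_map (Filter.Ici_mem_atTop N), ?_⟩
    rintro _ ⟨m, hm, rfl⟩ _ ⟨n, hn, rfl⟩
    rw [Valuation.restrict_lt_iff_lt_embedding]
    refine lt_of_le_of_lt ?_ hN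
    have h1 := kk_sub hu hc N (m - N)
    have h2 := kk_sub hu hc N (n - N)
    rw [Nat.add_sub_cancel' hm] at h1
    rw [Nat.add_sub_cancel' hn] at h2
    have e : kk u c n - kk u c m = (kk u c n - kk u c N) - (kk u c m - kk u c N) := by ring
    rw [e]
    refine (Valuation.map_sub _ _ _).trans (max_le (h2.trans ?_) (h1.trans ?_)) <;>
    · rw [exp_le_exp]; push_cast; omega
  obtain ⟨t, ht⟩ := cauchySeq_tendsto_of_complete hcau
  have h1 : Tendsto (fun n => kk u c (n + 1)) atTop (𝓝 t) := ht.comp (tendsto_add_atTop_nat 1)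
  have h2 : Tendsto (fun n => kk u c (n + 1)) atTop (𝓝 (-(t ^ 3 - 18 * t ^ 2 + c) / u)) := by
    have : (fun n => kk u c (n + 1)) =
        fun n => -((kk u c n) ^ 3 - 18 * (kk u c n) ^ 2 + c) / u := rfl
    rw [this]
    exact ((((ht.pow 3).sub ((ht.pow 2).const_mul 18)).add_const c).neg).div_const u
  have h3 := tendsto_nhds_unique h1 h2
  have h4 : t ^ 3 - 18 * t ^ 2 + u * t + c = 0 := by
    have h5 : u * t = -(t ^ 3 - 18 * t ^ 2 + c) := by
      rw [eq_div_iff hu0] at h3
      rw [mul_comm]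
      exact h3
    linear_combination h5
  refine ⟨t, h4, ?_⟩
  have hlt : Valued.v t < 1 := by
    obtain ⟨n, hn⟩ : ∃ n, Valued.v (kk u c n - t) < 1 := by
      have h6 : Tendsto (fun n => kk u c n - t) atTop (𝓝 0) := by
        have := ht.sub_const t
        rwa [sub_self] at this
      have h7 := h6.eventually (show {x : F | Valued.v x < 1} ∈ 𝓝 (0 : F) by
        rw [Valued.mem_nhds_zero]
        exact ⟨1, fun x hx => by simpa using hx⟩)
      exact h7.exists
    have e : t = kk u c n - (kk u c n - t) := by ring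
    rw [e]
    exact lt_of_le_of_lt (Valuation.map_sub _ _ _) (max_lt ((kk_le hu hc n).trans_lt hc) hn)
  by_cases ht0 : t = 0
  · rw [ht0, map_zero]; exact zero_le
  have hvt : Valued.v t ≠ 0 := (Valuation.ne_zero_iff _).2 ht0
  by_contra hcon
  have hcon' : Valued.v c < Valued.v t := not_le.1 hcon
  have h18 : Valued.v (18 : F) ≤ 1 := by exact_mod_cast v_nat_le (F := F) 18
  have hsm : Valued.v (-(t * (t * t - 18 * t)) - c) < Valued.v t := by
    refine lt_of_le_of_lt (Valuation.map_sub _ _ _) (max_lt ?_ hcon')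
    rw [Valuation.map_neg, map_mul]
    have h8 : Valued.v (t * t - 18 * t) < 1 := by
      refine lt_of_le_of_lt (Valuation.map_sub _ _ _) (max_lt ?_ ?_)
      · rw [map_mul]
        calc Valued.v t * Valued.v t ≤ Valued.v t * 1 := mul_le_mul' le_rfl hlt.le
          _ = Valued.v t := mul_one _
          _ < 1 := hlt
      · rw [map_mul]
        calc Valued.v (18 : F) * Valued.v t ≤ 1 * Valued.v t := mul_le_mul' h18 le_rfl
          _ = Valued.v t := one_mul _
          _ < 1 := hlt
    calc Valued.v t * Valued.v (t * t - 18 * t) < Valued.v t * 1 :=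
          mul_lt_mul_of_pos_left h8 (zero_lt_iff.2 hvt)
      _ = _ := mul_one _
  have e9 : u * t = -(t * (t * t - 18 * t)) - c := by linear_combination h4
  rw [← e9, map_mul, hu, one_mul] at hsm
  exact lt_irrefl _ hsm

theorem root_F [CompleteSpace F] {a b : F} (h : SpF a b) : ∃ θ : F, RtF a b θ := by
  obtain ⟨h2, ha, hb⟩ := h
  have h9 : Valued.v (9 : F) ≤ 1 := by exact_mod_cast v_nat_le (F := F) 9
  have h40 : Valued.v (40 : F) ≤ 1 := by exact_mod_cast v_nat_le (F := F) 40
  have h28 : Valued.v ((2 : F) ^ 8) < 1 := by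
    rw [map_pow]
    exact pow_lt_one₀ zero_le h2 (by norm_num)
  have h212 : Valued.v ((2 : F) ^ 12) ≤ Valued.v ((2 : F) ^ 8) := by
    rw [map_pow, map_pow]
    exact pow_le_pow_of_le_one zero_le h2.le (by norm_num)
  have h81 : Valued.v (81 : F) = 1 := by
    have e : (81 : F) = 1 + 2 * 40 := by norm_num
    rw [e]
    have hlt : Valued.v ((2 : F) * 40) < Valued.v (1 : F) := by
      rw [map_mul, map_one]
      calc Valued.v (2 : F) * Valued.v (40 : F) ≤ Valued.v (2 : F) * 1 := mul_le_mul' le_rfl h40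
        _ = Valued.v (2 : F) := mul_one _
        _ < 1 := h2
    rw [Valuation.map_add_eq_of_lt_left _ hlt, map_one]
  have hu : Valued.v (108 + a) = 1 := by
    have e : 108 + a = 81 + (a + 27) := by ring
    have hlt : Valued.v (a + 27) < Valued.v (81 : F) := by
      rw [h81]; exact ha.trans h28
    rw [e, Valuation.map_add_eq_of_lt_left _ hlt, h81]
  set c := b - 6 * a - 216 with hcdef
  have hc : Valued.v c < Valued.v ((2 : F) ^ 8) := by
    have e : c = (b + 3 * a + 27) - 9 * (a + 27) := by rw [hcdef]; ring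
    rw [e]
    refine lt_of_le_of_lt (Valuation.map_sub _ _ _) (max_lt (hb.trans_le h212) ?_)
    rw [map_mul]
    calc Valued.v (9 : F) * Valued.v (a + 27) ≤ 1 * Valued.v (a + 27) := mul_le_mul' h9 le_rfl
      _ = Valued.v (a + 27) := one_mul _
      _ < _ := ha
  obtain ⟨t, ht, htc⟩ := exists_kk hu (hc.trans h28)
  refine ⟨-6 + t, ?_, ?_⟩
  · have : (-6 + t) ^ 3 + a * (-6 + t) + b = t ^ 3 - 18 * t ^ 2 + (108 + a) * t + c := by
      rw [hcdef]; ring
    rw [this, ht]
  · have e : -6 + t + 6 = t := by ring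
    rw [e]
    exact htc.trans_lt hc

end H36CY
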