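import Pool.Agent.H36.CY.Df
import Pool.Agent.H76.PP.Ta

/-!
ROW Vl (project MP_78d38b_CY, about 110 lines): comparison of valuations above and below.

PROOF of over_dn: by definition of `dn` (comap).
val_one: `x ∈ K`, `(dn K w) x = 1`: write `x = n / d` with `d ∉ dn K w` (`HeightOneSpectrum.exists_primeCompl_mul_eq_of_integer`), then `n ∉ dn K w`, so the images are
not in `w` (`Pool.Agent.H10.Over.not_mem`) and have value one. val_lt_one: `(dn K w) x < 1`, so `≤ exp (-1)` (`Pool.Agent.H10.lt_one_le_exp`) and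
`Over.valuation_le` gives `w x ≤ exp (-1) < 1`. val_lt_iff: if `y = 0` both sides are false. Otherwise divide: `v (x / y) < 1`; the three cases `v (x/y) < 1`,
`= 1`, `> 1` (apply val_lt_one to `y / x`) give the equivalence.
map_lt: `h : Over v w`, `x, y ∈ K_v`, `Valued.v x < Valued.v y`; show `Valued.v (h.map x) < Valued.v (h.map y)`. It suffices that `Valued.v z < 1` implies
`Valued.v (h.map z) < 1` (`z = x / y`, `y ≠ 0`; `h.map` is a homomorphism of fields, `h.map y ≠ 0`). `h.map` is continuous (`Over.continuous_map`), `{t | Valued.v t < 1}` is open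
(a neighbourhood of `h.map z`-translates: `Te_nhd` of `Pool/Agent/H76/PP/Te.lean`), `K` is dense in `K_v` (`HeightOneSpectrum.denseRange_algebraMap`): choose
`z₀ ∈ K` with `Valued.v (z₀ - z) < 1` and `Valued.v (h.map z₀ - h.map z) < 1`. Then `v z₀ < 1`, `h.map z₀ = z₀` (`map_algebraMap`) has value `< 1`, so `h.map z` too.
-/

set_option autoImplicit false
set_option linter.unusedSectionVars false
open scoped Classical

open WithZero NumberField IsDedekindDomain H76PP

namespace H36CY

variable {K L : Type} [Field K] [NumberField K] [Field L] [NumberField L] [Algebra K L]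

theorem over_dn (w : HeightOneSpectrum (𝓞 L)) : Pool.Agent.H10.Over (dn K w) w := fun _ hx => hx

theorem v_one {v : HeightOneSpectrum (𝓞 K)} {w : HeightOneSpectrum (𝓞 L)}
    (h : Pool.Agent.H10.Over v w) {x : K} (hx : v.valuation K x = 1) :
    w.valuation L (algebraMap K L x) = 1 := by
  obtain ⟨n, ⟨d, hd⟩, hnd⟩ := HeightOneSpectrum.exists_primeCompl_mul_eq_of_integer v x hx.le
  change d ∉ v.asIdeal at hd
  change x * algebraMap (𝓞 K) K d = algebraMap (𝓞 K) K n at hnd
  have hd1 : v.valuation K (algebraMap (𝓞 K) K d) = 1 :=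
    (v.valuation_eq_one_iff_notMem (K := K)).mpr hd
  have hd2 : w.valuation L (algebraMap (𝓞 L) L (algebraMap (𝓞 K) (𝓞 L) d)) = 1 :=
    (w.valuation_eq_one_iff_notMem (K := L)).mpr (h.not_mem hd)
  have hn1 : v.valuation K (algebraMap (𝓞 K) K n) = 1 := by
    rw [← hnd, map_mul, hx, hd1, mul_one]
  have hn : n ∉ v.asIdeal := (v.valuation_eq_one_iff_notMem (K := K)).mp hn1
  have hn2 : w.valuation L (algebraMap (𝓞 L) L (algebraMap (𝓞 K) (𝓞 L) n)) = 1 :=
    (w.valuation_eq_one_iff_notMem (K := L)).mpr (h.not_mem hn)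
  have h5 : w.valuation L (algebraMap K L x) * 1 =
      w.valuation L (algebraMap (𝓞 L) L (algebraMap (𝓞 K) (𝓞 L) n)) := by
    rw [← hd2, ← map_mul]
    congr 1
    have := congrArg (algebraMap K L) hnd
    rw [map_mul] at this
    exact this
  rw [mul_one, hn2] at h5
  exact h5

theorem v_lt_one {v : HeightOneSpectrum (𝓞 K)} {w : HeightOneSpectrum (𝓞 L)}
    (h : Pool.Agent.H10.Over v w) {x : K} (hx : v.valuation K x < 1) :
    w.valuation L (algebraMap K L x) < 1 := by
  have h1 : v.valuation K x ≤ exp (-((1 : ℕ) : ℤ)) := Pool.Agent.H10.lt_one_le_exp hx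
  refine (h.valuation_le h1).trans_lt ?_
  rw [← exp_zero, exp_lt_exp]
  norm_num

theorem v_lt_one_iff {v : HeightOneSpectrum (𝓞 K)} {w : HeightOneSpectrum (𝓞 L)}
    (h : Pool.Agent.H10.Over v w) {x : K} :
    w.valuation L (algebraMap K L x) < 1 ↔ v.valuation K x < 1 := by
  refine ⟨fun h1 => ?_, v_lt_one h⟩
  rcases lt_trichotomy (v.valuation K x) 1 with h2 | h2 | h2
  · exact h2
  · rw [v_one h h2] at h1
    exact absurd h1 (lt_irrefl _)
  · have hx0 : x ≠ 0 := by
      rintro rfl
      rw [map_zero] at h2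
      exact absurd h2 not_lt_zero'
    have h3 : v.valuation K x⁻¹ < 1 := by
      rw [map_inv₀]
      exact inv_lt_one_of_one_lt₀ h2
    have h4 := v_lt_one h h3
    rw [map_inv₀, map_inv₀] at h4
    have h5 : 0 < w.valuation L (algebraMap K L x) := by
      rw [Valuation.pos_iff]
      exact (map_ne_zero _).2 hx0
    have h6 : 1 < w.valuation L (algebraMap K L x) := (inv_lt_one₀ h5).1 h4
    exact absurd (h6.trans h1) (lt_irrefl _)

theorem val_lt_iff (w : HeightOneSpectrum (𝓞 L)) (x y : K) :
    w.valuation L (algebraMap K L x) < w.valuation L (algebraMap K L y) ↔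
      (dn K w).valuation K x < (dn K w).valuation K y := by
  have h := over_dn (K := K) w
  by_cases hy : y = 0
  · subst hy
    rw [map_zero, map_zero, map_zero]
    exact ⟨fun h1 => absurd h1 not_lt_zero', fun h1 => absurd h1 not_lt_zero'⟩
  · have h1 : 0 < (dn K w).valuation K y := by
      rw [Valuation.pos_iff]
      exact hy
    have h2 : 0 < w.valuation L (algebraMap K L y) := by
      rw [Valuation.pos_iff]
      exact (map_ne_zero _).2 hy
    rw [← div_lt_one₀ h1, ← div_lt_one₀ h2, ← map_div₀, ← map_div₀, ← map_div₀]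
    exact v_lt_one_iff h

theorem map_lt {v : HeightOneSpectrum (𝓞 K)} {w : HeightOneSpectrum (𝓞 L)}
    (h : Pool.Agent.H10.Over v w) {x y : v.adicCompletion K} (hxy : Valued.v x < Valued.v y) :
    Valued.v (h.map x) < Valued.v (h.map y) := by
  have key : ∀ z : v.adicCompletion K, Valued.v z < 1 → Valued.v (h.map z) < 1 := by
    intro z hz
    have hd := HeightOneSpectrum.denseRange_algebraMap (K := K) v
    have h1 : {t : v.adicCompletion K | Valued.v (t - z) < Valued.v (1 : v.adicCompletion K)} ∈
        nhds z := Te_nhd z one_ne_zero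
    have h2 : h.map ⁻¹' {s | Valued.v (s - h.map z) < Valued.v (1 : w.adicCompletion L)} ∈
        nhds z := (h.continuous_map.continuousAt (x := z)).preimage_mem_nhds
          (Te_nhd (h.map z) one_ne_zero)
    obtain ⟨t, ⟨ht1, ht2⟩, ⟨k, rfl⟩⟩ :=
      mem_closure_iff_nhds.1 (hd z) _ (Filter.inter_mem h1 h2)
    have ht1' : Valued.v (algebraMap K (v.adicCompletion K) k - z) <
        Valued.v (1 : v.adicCompletion K) := ht1
    have ht2' : Valued.v (h.map (algebraMap K (v.adicCompletion K) k) - h.map z) <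
        Valued.v (1 : w.adicCompletion L) := ht2
    rw [map_one] at ht1' ht2'
    have h3 : Valued.v (algebraMap K (v.adicCompletion K) k) < 1 := by
      have h4 : algebraMap K (v.adicCompletion K) k =
          (algebraMap K (v.adicCompletion K) k - z) + z := by ring
      rw [h4]
      exact Valuation.map_add_lt _ ht1' hz
    have h5 := v.valuedAdicCompletion_eq_valuation' (K := K) k
    change Valued.v (algebraMap K (v.adicCompletion K) k) = _ at h5
    rw [h5] at h3
    have h6 := v_lt_one h h3
    have h7 := w.valuedAdicCompletion_eq_valuation' (K := L) (algebraMap K L k)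
    change Valued.v (algebraMap L (w.adicCompletion L) (algebraMap K L k)) = _ at h7
    rw [h.map_algebraMap] at ht2'
    have h8 : h.map z = algebraMap L (w.adicCompletion L) (algebraMap K L k) -
        (algebraMap L (w.adicCompletion L) (algebraMap K L k) - h.map z) := by ring
    rw [h8]
    refine Valuation.map_sub_lt _ ?_ ht2'
    rw [h7]
    exact h6
  have hy : y ≠ 0 := by
    rintro rfl
    rw [map_zero] at hxy
    exact absurd hxy not_lt_zero'
  have h1 : 0 < Valued.v y := by
    rw [Valuation.pos_iff]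
    exact hy
  have h2 : 0 < Valued.v (h.map y) := by
    rw [Valuation.pos_iff]
    exact (map_ne_zero _).2 hy
  have h3 := key (x / y) (by rw [map_div₀]; exact (div_lt_one₀ h1).2 hxy)
  rw [map_div₀, map_div₀] at h3
  exact (div_lt_one₀ h2).1 h3

/-- The special pairs and the root in a bigger completion. -/
theorem SpF.map {v : HeightOneSpectrum (𝓞 K)} {w : HeightOneSpectrum (𝓞 L)}
    (h : Pool.Agent.H10.Over v w) {a b : v.adicCompletion K} (hab : SpF a b) :
    SpF (h.map a) (h.map b) := by
  obtain ⟨h1, h2, h3⟩ := hab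
  have e2 : h.map 2 = 2 := map_ofNat _ _
  have e8 : h.map ((2 : v.adicCompletion K) ^ 8) = 2 ^ 8 := by rw [map_pow, e2]
  have e12 : h.map ((2 : v.adicCompletion K) ^ 12) = 2 ^ 12 := by rw [map_pow, e2]
  have ea : h.map (a + 27) = h.map a + 27 := by rw [map_add, map_ofNat]
  have eb : h.map (b + 3 * a + 27) = h.map b + 3 * h.map a + 27 := by
    rw [map_add, map_add, map_mul, map_ofNat, map_ofNat]
  refine ⟨?_, ?_, ?_⟩
  · have h4 := map_lt h (x := 2) (y := 1) (by rw [map_one]; exact h1)
    rw [e2, map_one, map_one] at h4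
    exact h4
  · have h4 := map_lt h h2
    rw [ea, e8] at h4
    exact h4
  · have h4 := map_lt h h3
    rw [eb, e12] at h4
    exact h4

theorem RtF.map {v : HeightOneSpectrum (𝓞 K)} {w : HeightOneSpectrum (𝓞 L)}
    (h : Pool.Agent.H10.Over v w) {a b θ : v.adicCompletion K} (hθ : RtF a b θ) :
    RtF (h.map a) (h.map b) (h.map θ) := by
  obtain ⟨h1, h2⟩ := hθ
  have e2 : h.map 2 = 2 := map_ofNat _ _
  have e8 : h.map ((2 : v.adicCompletion K) ^ 8) = 2 ^ 8 := by rw [map_pow, e2]
  have ea : h.map (θ + 6) = h.map θ + 6 := by rw [map_add, map_ofNat]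
  refine ⟨?_, ?_⟩
  · have h4 := congrArg h.map h1
    rw [map_add, map_add, map_mul, map_pow, map_zero] at h4
    exact h4
  · have h4 := map_lt h h2
    rw [ea, e8] at h4
    exact h4

end H36CY
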