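import Pool.Agent.H36.CY.Ia
import Pool.Agent.H36.CY.Vl
import Pool.Agent.H36.CY.Sq

/-!
ROW Ba (project MP_78d38b_CY, about 130 lines): a norm from the first layer is a norm in the base field. Use only the STATEMENTS of
Ia (`dense_hat`), Vl, Sq.

PROOF. `Ω = N_W`. `s = (γ + φ γ) / 2`, `r = (γ - φ γ) / (2 ρ)`: `φ s = s`, `φ r = r` (`φ ρ = -ρ`), and `s ^ 2 - D r ^ 2 = γ φ γ = q` (`ρ ^ 2 = D`; field_simp, ring).
Let `M = max 1 (max (Valued.v s) (Valued.v r))`, `M' = max 1 (Valued.v D)`; choose `ε ≠ 0` with `ε ≤ 1` and `ε * M * M' < Valued.v (4 q)` (for instance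
`exists_exp_neg_natCast_lt` for `Valued.v (4 q) / (M * M')`). `dense_hat` gives `X₀, Y₀ ∈ K` with `Valued.v (s - X₀) < ε`, `Valued.v (r - Y₀) < ε`. Then
`Valued.v (X₀) ≤ M` and `Valued.v (s ^ 2 - X₀ ^ 2) = Valued.v (s - X₀) * Valued.v (s + X₀) ≤ ε M`, the same for `r`, so
`Valued.v (X₀ ^ 2 - D Y₀ ^ 2 - q) < Valued.v (4 q)` in `Ω`. All terms are in `K`: by `valuedAdicCompletion_eq_valuation'` and `val_lt_iff`
`(dn K W) (X₀ ^ 2 - D Y₀ ^ 2 - q) < (dn K W) (4 q)`, so in `(dn K W).adicCompletion K` `sq_near` gives `X₀ ^ 2 - D Y₀ ^ 2 = q r' ^ 2`, `r' ≠ 0`. Take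
`X = X₀ / r'`, `Y = Y₀ / r'`. (Characteristic zero of the completions: `charZero_of_injective_algebraMap (algebraMap K _).injective`, see `Pool/Agent/H24/PD/Lf.lean`.)
-/

set_option autoImplicit false
set_option linter.unusedSectionVars false
open scoped Classical

open WithZero NumberField IsDedekindDomain H76PP

namespace H36CY

variable {K N : Type} [Field K] [NumberField K] [Field N] [NumberField N] [Algebra K N]

theorem to_base [IsGalois K N] {W : HeightOneSpectrum (𝓞 N)} {τ : N ≃ₐ[K] N}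
    (hτ : ∀ g : N ≃ₐ[K] N, Stb K W g ↔ g ∈ Subgroup.zpowers τ)
    {φ : W.adicCompletion N →+* W.adicCompletion N} (hφc : Continuous φ)
    (hφ : ∀ x : N, φ (algebraMap N (W.adicCompletion N) x) =
      algebraMap N (W.adicCompletion N) (τ x)) {q D : K} (hq : q ≠ 0) {γ ρ : W.adicCompletion N}
    (hγ : φ (φ γ) = γ)
    (hN : γ * φ γ = algebraMap N (W.adicCompletion N) (algebraMap K N q))
    (hρ : ρ ^ 2 = algebraMap N (W.adicCompletion N) (algebraMap K N D)) (hρ0 : ρ ≠ 0)
    (hρτ : φ ρ = -ρ) :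
    ∃ X Y : (dn K W).adicCompletion K, X ^ 2 - algebraMap K ((dn K W).adicCompletion K) D * Y ^ 2 =
      algebraMap K ((dn K W).adicCompletion K) q := by
  set i := algebraMap N (W.adicCompletion N) with hi
  have hch : CharZero (W.adicCompletion N) :=
    charZero_of_injective_algebraMap (algebraMap N (W.adicCompletion N)).injective
  have hch' : CharZero ((dn K W).adicCompletion K) :=
    charZero_of_injective_algebraMap (algebraMap K ((dn K W).adicCompletion K)).injective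
  have hiv : ∀ k : N, Valued.v (i k) = W.valuation N k := fun k =>
    HeightOneSpectrum.valuedAdicCompletion_eq_valuation' W k
  have h2 : (2 : W.adicCompletion N) ≠ 0 := two_ne_zero
  obtain ⟨s, hs⟩ : ∃ s, s = (γ + φ γ) / 2 := ⟨_, rfl⟩
  obtain ⟨r, hr⟩ : ∃ r, r = (γ - φ γ) / (2 * ρ) := ⟨_, rfl⟩
  have hφs : φ s = s := by
    rw [hs, map_div₀, map_add, hγ, map_ofNat, add_comm]
  have hφr : φ r = r := by
    rw [hr, map_div₀, map_sub, hγ, map_mul, map_ofNat, hρτ]
    field_simp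
    ring
  have hq2 : s ^ 2 - i (algebraMap K N D) * r ^ 2 = i (algebraMap K N q) := by
    rw [← hN, ← hρ, hs, hr]
    field_simp
    ring
  obtain ⟨M, hM⟩ : ∃ M, M = max 1 (max (Valued.v s) (Valued.v r)) := ⟨_, rfl⟩
  obtain ⟨M', hM'⟩ : ∃ M', M' = max 1 (Valued.v (i (algebraMap K N D))) := ⟨_, rfl⟩
  have hM1 : 1 ≤ M := hM ▸ le_max_left _ _
  have hMs : Valued.v s ≤ M := hM ▸ (le_max_left _ _).trans (le_max_right _ _)
  have hMr : Valued.v r ≤ M := hM ▸ (le_max_right _ _).trans (le_max_right _ _)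
  have hM'1 : 1 ≤ M' := hM' ▸ le_max_left _ _
  have hMD : Valued.v (i (algebraMap K N D)) ≤ M' := hM' ▸ le_max_right _ _
  have hMpos : 0 < M := zero_lt_one.trans_le hM1
  have hM'pos : 0 < M' := zero_lt_one.trans_le hM'1
  have h4q : (4 : K) * q ≠ 0 := mul_ne_zero (by norm_num) hq
  have hC0 : Valued.v (i (algebraMap K N (4 * q))) ≠ 0 := by
    rw [Valuation.ne_zero_iff]
    exact (map_ne_zero i).2 ((map_ne_zero _).2 h4q)
  have hMM : 0 < M * M' := mul_pos hMpos hM'pos
  obtain ⟨n, hn⟩ : ∃ n : ℕ, exp (-(n : ℤ)) <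
      Valued.v (i (algebraMap K N (4 * q))) / (M * M') :=
    exists_exp_neg_natCast_lt (div_ne_zero hC0 hMM.ne')
  rw [lt_div_iff₀ hMM] at hn
  obtain ⟨ε, hε⟩ : ∃ ε : WithZero (Multiplicative ℤ), ε = exp (-(n : ℤ)) := ⟨_, rfl⟩
  have hε0 : ε ≠ 0 := by
    rw [hε]
    exact exp_ne_zero
  have hε1 : ε ≤ 1 := by
    rw [hε, ← exp_zero, exp_le_exp]
    omega
  rw [← hε] at hn
  obtain ⟨X₀, hX⟩ := dense_hat (K := K) hτ hφc hφ hφs hε0
  obtain ⟨Y₀, hY⟩ := dense_hat (K := K) hτ hφc hφ hφr hε0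
  change Valued.v (s - i (algebraMap K N X₀)) < ε at hX
  change Valued.v (r - i (algebraMap K N Y₀)) < ε at hY
  have key : ∀ a b : W.adicCompletion N, Valued.v a ≤ M → Valued.v (a - b) < ε →
      Valued.v (a ^ 2 - b ^ 2) ≤ ε * M := by
    intro a b ha hab
    have h1 : Valued.v (a - b) ≤ M := hab.le.trans (hε1.trans hM1)
    have h3 : Valued.v b ≤ M := by
      have h4 : b = a - (a - b) := by ring
      rw [h4]
      exact Valuation.map_sub_le _ ha h1
    have h5 : Valued.v (a + b) ≤ M := Valuation.map_add_le _ ha h3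
    have h6 : a ^ 2 - b ^ 2 = (a - b) * (a + b) := by ring
    rw [h6, map_mul]
    exact mul_le_mul' hab.le h5
  have k1 := key s _ hMs hX
  have k2 := key r _ hMr hY
  have c1 : Valued.v (s ^ 2 - i (algebraMap K N X₀) ^ 2) <
      Valued.v (i (algebraMap K N (4 * q))) := by
    refine lt_of_le_of_lt ?_ hn
    refine k1.trans ?_
    have h7 : ε * M * 1 ≤ ε * M * M' := mul_le_mul' le_rfl hM'1
    rw [mul_one, mul_assoc] at h7
    exact h7
  have c2 : Valued.v (i (algebraMap K N D) * (r ^ 2 - i (algebraMap K N Y₀) ^ 2)) <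
      Valued.v (i (algebraMap K N (4 * q))) := by
    refine lt_of_le_of_lt ?_ hn
    rw [map_mul]
    calc Valued.v (i (algebraMap K N D)) * Valued.v (r ^ 2 - i (algebraMap K N Y₀) ^ 2)
        ≤ M' * (ε * M) := mul_le_mul' hMD k2
      _ = ε * (M * M') := by rw [mul_comm M', mul_assoc]
  have c3 : Valued.v (i (algebraMap K N (X₀ ^ 2 - D * Y₀ ^ 2 - q))) <
      Valued.v (i (algebraMap K N (4 * q))) := by
    have h8 : i (algebraMap K N (X₀ ^ 2 - D * Y₀ ^ 2 - q)) =
        i (algebraMap K N D) * (r ^ 2 - i (algebraMap K N Y₀) ^ 2) -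
          (s ^ 2 - i (algebraMap K N X₀) ^ 2) := by
      simp only [map_sub, map_mul, map_pow]
      rw [← hq2]
      ring
    rw [h8]
    exact Valuation.map_sub_lt _ c2 c1
  rw [hiv, hiv] at c3
  have c4 := (val_lt_iff (K := K) W (X₀ ^ 2 - D * Y₀ ^ 2 - q) (4 * q)).1 c3
  have hkv : ∀ k : K, Valued.v (algebraMap K ((dn K W).adicCompletion K) k) =
      (dn K W).valuation K k := fun k =>
    HeightOneSpectrum.valuedAdicCompletion_eq_valuation' (dn K W) k
  rw [← hkv, ← hkv] at c4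
  have c5 : Valued.v (algebraMap K ((dn K W).adicCompletion K) (X₀ ^ 2 - D * Y₀ ^ 2) -
      algebraMap K ((dn K W).adicCompletion K) q) <
      Valued.v (4 * algebraMap K ((dn K W).adicCompletion K) q) := by
    rw [← map_sub]
    have h9 : (4 : (dn K W).adicCompletion K) * algebraMap K ((dn K W).adicCompletion K) q =
        algebraMap K ((dn K W).adicCompletion K) (4 * q) := by
      rw [map_mul, map_ofNat]
    rw [h9]
    exact c4
  obtain ⟨r', hr', hy⟩ := sq_near c5
  refine ⟨algebraMap K ((dn K W).adicCompletion K) X₀ / r',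
    algebraMap K ((dn K W).adicCompletion K) Y₀ / r', ?_⟩
  simp only [map_sub, map_mul, map_pow] at hy
  have h10 : (algebraMap K ((dn K W).adicCompletion K) X₀ / r') ^ 2 -
      algebraMap K ((dn K W).adicCompletion K) D *
        (algebraMap K ((dn K W).adicCompletion K) Y₀ / r') ^ 2 =
      (algebraMap K ((dn K W).adicCompletion K) X₀ ^ 2 -
        algebraMap K ((dn K W).adicCompletion K) D *
          algebraMap K ((dn K W).adicCompletion K) Y₀ ^ 2) / r' ^ 2 := by
    rw [div_pow, div_pow]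
    ring
  rw [h10, hy, mul_div_assoc, div_self (pow_ne_zero 2 hr'), mul_one]

end H36CY
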