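import Mathlib

/-!
ROW Hi (project MP_78d38b_CY, about 150 lines): norms in the layers of a cyclic group (Hilbert 90 twice), pure algebra.

PROOF of hilb_step. `σ q = q`, `β ≠ 0` (as `q ≠ 0`), `σ β ≠ 0` (injective). Put `ε = β / σ β`. Then `ε * σ (σ ε) = (β σ²β) / (σ β σ³β) = q / σ q = 1`. There is `η ≠ 0` with
`σ²(σ² η) = η` and `η = ε * σ² η`: if `ε ≠ -1` take `η = 1 + ε` (`ε σ²η = ε (1 + σ²ε) = ε + 1`; `σ⁴ ε = σ⁴β / σ⁵β = ε` as `σ⁴ β = β`, `σ⁵ β = σ (σ⁴ β) = σ β`); if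
`ε = -1` take `η = ρ` (`σ²ρ = -ρ`, `σ⁴ρ = ρ`). Put `a = β / (η σ η)`. `σ a = σβ / (ση σ²η)` and `β σ²η = σβ η` (from `η = (β / σβ) σ²η`), so `σ a = a`. `γ = a η σ²η`:
`σ²γ = a σ²η σ⁴η = γ`, and `γ σγ = a² η ση σ²η σ³η = β σ²β = q` (`β = a η ση`, `σ²β = a σ²η σ³η`).

PROOF of drop_root. `σ²ρ = -ρ`, `ρ ≠ 0`. Let `c = ρ²`, `ρ' = c - σ c`. `σ² c = c`, so `σ ρ' = -ρ'`. If `ρ' = 0` then `(σ ρ)² = ρ²`, `σ ρ = ± ρ`, so `σ²ρ = ρ`, `2 ρ = 0`,
contradiction (characteristic zero).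

PROOF of chain_norm. Induction on `i`. `i = 0`: `γ = β` (`τ^[2^0] = τ`, `τ^[2^1] β = τ (τ β)`). Step: `σ = τ^[2^i]` as a ring homomorphism (`τ ^ (2^i)` in the monoid
`Ω →+* Ω`, whose coercion is the iterate: `RingHom.coe_pow`), `σ (σ x) = τ^[2^(i+1)] x`, `σ⁴ x = τ^[2^(i+2)] x` (`Function.iterate_add_apply`, `pow_succ`). hilb_step with
`ρ` gives `γ` with `σ (σ γ) = γ`, `γ σ γ = q`; drop_root gives the new `ρ'` (`σ ρ' = -ρ'`, `ρ' ≠ 0`). Apply the induction hypothesis to `γ`, `ρ'`.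

PROOF of exists_level. `orderOf τ = 2^n`, `g = τ^m` (`m : ℕ`, finite order). If `g = 1` take `i = n`, `l = 1`. Otherwise `m ≠ 0`, `m = 2^i * o`, `o` odd (`Nat.exists_eq_two_pow_mul_odd`).
`o` is coprime to `2^n`: choose `l` with `o * l ≡ 1 [MOD 2^n]` (`Nat.exists_mul_emod_eq_one_of_coprime`, or the inverse in `ZMod`); `l` is odd if `n > 0` (for `n = 0` everything is trivial: take
`l = 1`). `g^l = τ^(2^i o l) = τ^(2^i)` since `2^i o l ≡ 2^i [MOD 2^n]` (`pow_eq_pow_iff_modEq`).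
-/

set_option autoImplicit false
set_option linter.unusedSectionVars false

namespace H36CY

variable {Ω : Type*} [Field Ω] [CharZero Ω]

theorem hilb_step (σ : Ω →+* Ω) {q β ρ : Ω} (hq : σ q = q) (hq0 : q ≠ 0)
    (h4 : σ (σ (σ (σ β))) = β) (hN : β * σ (σ β) = q) (hρ0 : ρ ≠ 0) (hρ : σ (σ ρ) = -ρ) :
    ∃ γ : Ω, σ (σ γ) = γ ∧ γ * σ γ = q := by
  have hβ0 : β ≠ 0 := fun h => hq0 (by rw [← hN, h, zero_mul])
  have hsβ0 : σ β ≠ 0 := (map_ne_zero σ).2 hβ0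
  have hN2 : σ β * σ (σ (σ β)) = q := by
    rw [← map_mul, hN, hq]
  obtain ⟨ε, hε⟩ : ∃ ε, ε = β / σ β := ⟨_, rfl⟩
  have hε1 : ε * σ β = β := by
    rw [hε]
    exact div_mul_cancel₀ β hsβ0
  have hε2 : σ (σ ε) * σ (σ (σ β)) = σ (σ β) := by
    rw [← map_mul, ← map_mul, hε1]
  have hεε : ε * σ (σ ε) = 1 := by
    have h1 : ε * σ (σ ε) * q = q := by
      calc ε * σ (σ ε) * q = (ε * σ β) * (σ (σ ε) * σ (σ (σ β))) := by
            rw [← hN2]; ring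
        _ = q := by rw [hε1, hε2, hN]
    exact mul_right_cancel₀ hq0 (by rw [h1, one_mul])
  have hε4 : σ (σ (σ (σ ε))) = ε := by
    have h1 : σ (σ (σ (σ ε))) * σ β = β := by
      have h2 : σ (σ (σ (σ (ε * σ β)))) = σ (σ (σ (σ β))) := by rw [hε1]
      rw [map_mul, map_mul, map_mul, map_mul, h4] at h2
      exact h2
    exact mul_right_cancel₀ hsβ0 (by rw [h1, hε1])
  obtain ⟨η, hη0, hη4, hηε⟩ : ∃ η : Ω, η ≠ 0 ∧ σ (σ (σ (σ η))) = η ∧ η = ε * σ (σ η) := by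
    by_cases h : ε = -1
    · refine ⟨ρ, hρ0, ?_, ?_⟩
      · rw [hρ, map_neg, map_neg, hρ, neg_neg]
      · rw [hρ, h]
        ring
    · refine ⟨1 + ε, ?_, ?_, ?_⟩
      · intro h1
        apply h
        linear_combination h1
      · rw [map_add, map_add, map_add, map_add, map_one, map_one, map_one, map_one, hε4]
      · rw [map_add, map_add, map_one, map_one, mul_add, hεε]
        ring
  have hsη0 : σ η ≠ 0 := (map_ne_zero σ).2 hη0
  have hssη0 : σ (σ η) ≠ 0 := (map_ne_zero σ).2 hsη0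
  have hkey : β * σ (σ η) = σ β * η := by
    calc β * σ (σ η) = (ε * σ β) * σ (σ η) := by rw [hε1]
      _ = σ β * (ε * σ (σ η)) := by ring
      _ = σ β * η := by rw [← hηε]
  obtain ⟨a, ha⟩ : ∃ a, a = β / (η * σ η) := ⟨_, rfl⟩
  have ha1 : a * (η * σ η) = β := by
    rw [ha]
    exact div_mul_cancel₀ β (mul_ne_zero hη0 hsη0)
  have ha2 : σ a = a := by
    have h1 : σ a * (σ η * σ (σ η)) = σ β := by
      rw [← map_mul, ← map_mul, ha1]
    have h2 : a * (η * σ η) * σ (σ η) = σ a * (σ η * σ (σ η)) * η := by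
      rw [ha1, h1, hkey]
    have h3 : (η * σ η * σ (σ η)) ≠ 0 := mul_ne_zero (mul_ne_zero hη0 hsη0) hssη0
    exact mul_right_cancel₀ h3 (by linear_combination -h2)
  refine ⟨a * η * σ (σ η), ?_, ?_⟩
  · rw [map_mul, map_mul, map_mul, map_mul, ha2, ha2, hη4]
    ring
  · have h1 : σ (σ β) = a * (σ (σ η) * σ (σ (σ η))) := by
      rw [← ha1, map_mul, map_mul, map_mul, map_mul, ha2, ha2]
    rw [map_mul, map_mul, ha2, ← hN, h1]
    calc a * η * σ (σ η) * (a * σ η * σ (σ (σ η)))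
        = (a * (η * σ η)) * (a * (σ (σ η) * σ (σ (σ η)))) := by ring
      _ = β * (a * (σ (σ η) * σ (σ (σ η)))) := by rw [ha1]

theorem drop_root (σ : Ω →+* Ω) {ρ : Ω} (hρ0 : ρ ≠ 0) (hρ : σ (σ ρ) = -ρ) :
    ∃ ρ' : Ω, ρ' ≠ 0 ∧ σ ρ' = -ρ' ∧ ρ' = ρ ^ 2 - σ (ρ ^ 2) := by
  refine ⟨ρ ^ 2 - σ (ρ ^ 2), ?_, ?_, rfl⟩
  · intro h
    have h1 : (σ ρ) ^ 2 = ρ ^ 2 := by
      rw [← map_pow]
      exact (sub_eq_zero.1 h).symm
    have h2 : σ (σ ρ) = ρ := by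
      rcases sq_eq_sq_iff_eq_or_eq_neg.1 h1 with h3 | h3
      · rw [h3, h3]
      · rw [h3, map_neg, h3, neg_neg]
    rw [hρ] at h2
    have h3 : (2 : Ω) * ρ = 0 := by linear_combination -h2
    rcases mul_eq_zero.1 h3 with h4 | h4
    · exact two_ne_zero h4
    · exact hρ0 h4
  · rw [map_sub, map_pow, map_pow, hρ]
    ring

theorem chain_norm (τ : Ω →+* Ω) {q : Ω} (hq : τ q = q) (hq0 : q ≠ 0) (i : ℕ) :
    ∀ β ρ : Ω, τ^[2 ^ (i + 1)] β = β → β * τ^[2 ^ i] β = q → ρ ≠ 0 → τ^[2 ^ i] ρ = -ρ →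
      ∃ γ : Ω, τ (τ γ) = γ ∧ γ * τ γ = q := by
  induction i with
  | zero =>
    intro β ρ h1 h2 _ _
    exact ⟨β, h1, h2⟩
  | succ i ih =>
    intro β ρ h1 h2 hρ0 hρ
    have hc : ∀ x, (τ ^ (2 ^ i)) x = τ^[2 ^ i] x := fun x => by
      rw [RingHom.coe_pow]
    have hcc : ∀ x, (τ ^ (2 ^ i)) ((τ ^ (2 ^ i)) x) = τ^[2 ^ (i + 1)] x := fun x => by
      rw [hc, hc, ← Function.iterate_add_apply]
      congr 1
      ring
    have hc4 : ∀ x, (τ ^ (2 ^ i)) ((τ ^ (2 ^ i)) ((τ ^ (2 ^ i)) ((τ ^ (2 ^ i)) x))) =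
        τ^[2 ^ (i + 1 + 1)] x := fun x => by
      rw [hcc, hcc, ← Function.iterate_add_apply]
      congr 1
      ring
    have hq' : (τ ^ (2 ^ i)) q = q := by
      rw [hc]
      exact Function.iterate_fixed hq _
    obtain ⟨γ, hγ1, hγ2⟩ := hilb_step (τ ^ (2 ^ i)) hq' hq0 (by rw [hc4]; exact h1)
      (by rw [hcc]; exact h2) hρ0 (by rw [hcc]; exact hρ)
    obtain ⟨ρ', hρ'0, hρ', _⟩ := drop_root (τ ^ (2 ^ i)) hρ0 (by rw [hcc]; exact hρ)
    exact ih γ ρ' (by rw [← hcc]; exact hγ1) (by rw [← hc]; exact hγ2) hρ'0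
      (by rw [← hc]; exact hρ')

theorem exists_level {G : Type*} [Group G] {τ g : G} {n : ℕ} (hτ : orderOf τ = 2 ^ n)
    (hg : g ∈ Subgroup.zpowers τ) : ∃ i l : ℕ, Odd l ∧ τ ^ (2 ^ i) = g ^ l := by
  obtain ⟨m, rfl⟩ : ∃ m : ℕ, τ ^ m = g := by
    have hfin : IsOfFinOrder τ := by
      rw [← orderOf_pos_iff, hτ]
      positivity
    rw [← hfin.mem_powers_iff_mem_zpowers] at hg
    exact hg
  rcases Nat.eq_zero_or_pos m with hm | hm
  · refine ⟨n, 1, odd_one, ?_⟩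
    rw [hm, pow_zero, one_pow, ← hτ]
    exact pow_orderOf_eq_one τ
  · obtain ⟨i, o, ho, hmo⟩ := Nat.exists_eq_two_pow_mul_odd hm.ne'
    rcases Nat.eq_zero_or_pos n with hn | hn
    · refine ⟨0, 1, odd_one, ?_⟩
      have h1 : τ = 1 := by
        rw [hn, pow_zero] at hτ
        exact orderOf_eq_one_iff.1 hτ
      rw [h1, one_pow, one_pow, one_pow]
    · have hcop : Nat.Coprime o (2 ^ n) := (Nat.Coprime.pow_right n (by
        rw [Nat.coprime_comm, Nat.coprime_two_left]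
        exact ho))
      have h1n : 1 < 2 ^ n := Nat.one_lt_two_pow hn.ne'
      obtain ⟨l, hl⟩ := Nat.exists_mul_mod_eq_one_of_coprime hcop h1n
      refine ⟨i, l, ?_, ?_⟩
      · by_contra hodd
        have he : Even l := Nat.not_odd_iff_even.1 hodd
        have h2 : 2 ∣ o * l % 2 ^ n := by
          rw [Nat.dvd_mod_iff (dvd_pow_self 2 hn.ne')]
          exact (he.two_dvd).mul_left o
        rw [hl.2] at h2
        omega
      · rw [← pow_mul, hmo, pow_eq_pow_iff_modEq, hτ]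
        have h2 : o * l ≡ 1 [MOD 2 ^ n] := by
          show o * l % 2 ^ n = 1 % 2 ^ n
          rw [hl.2, Nat.mod_eq_of_lt h1n]
        have h3 := (h2.mul_left (2 ^ i)).symm
        rw [mul_one, ← mul_assoc] at h3
        exact h3

end H36CY
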