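import Pool.Agent.H36.CY.Df
import Pool.Agent.H73.P2.Cm
import Pool.Agent.H73.P2.Co

/-!
ROW Ke (project MP_78d38b_CY, about 170 lines): quadratic extensions.

PROOF of two_span: `1, ρ` are linearly independent over `k` (`ρ ∉ k`), so a basis (`Module.finrank = 2`: `LinearIndependent.span_eq_top_of_card_eq_finrank'`, or: the
`k`-subspace spanned by `1, ρ` has dimension 2).
PROOF of exists_emb: by two_span every `ζ` is `s + t ρ`, uniquely; `j ζ = i s + i t * r` is a ring homomorphism; or `PowerBasis`/`AdjoinRoot.lift`/`IsAlgClosed`-free: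
`k' = k⟮ρ⟯`, `minpoly k ρ = X ^ 2 - C D`, `PowerBasis.lift` for `i` (make `F` a `k`-algebra by `i.toAlgebra`).
PROOF of ker_quad: `ζ = s + t ρ`; in `N`: `z = s + t ρ`, `g z = s - t ρ` (`g` fixes `k`). `Valued` notation `|x| = W.valuation N x`. `|z ^ 2 - δ| < |16 δ| ≤ |δ|`, so
`|z| ^ 2 = |δ|`. `|g (z ^ 2 - δ)| = |z ^ 2 - δ|` (Stb), `z ^ 2 - (g z) ^ 2 = 4 s t ρ`, so `|4| |s| |t ρ| < |16| |z| ^ 2`, `|s| |t ρ| < |4| |z| ^ 2` (`|4| ≠ 0`). `|z| ≤ max |s| |t ρ|`.
If `|z| ≤ |s|`: `|t ρ| < |4| |z|`, and `s ^ 2 - δ = (z ^ 2 - δ) - 2 z (t ρ) + (t ρ) ^ 2` has value `< |4| |z| ^ 2 = |4 δ|`. If `|z| ≤ |t ρ|`: `|s| < |4| |z|`,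
`D t ^ 2 - δ = (t ρ) ^ 2 - δ = (z ^ 2 - δ) - 2 z s + s ^ 2`, same bound.
PROOF of LC_of_emb: copy of `LC_of_places` in `Pool/Agent/H73/P2/Cm.lean` with the place `u' = Cm_pl u j hj` (`exists_map` is proved with this place and `adicLift`); `dn k u' = u`: for
`x ∈ 𝓞 k`: `x ∈ dn k u'` iff `Valued.v (j (algebraMap x)) < 1` (`Cm_mem`) iff `u.valuation k x < 1` (`Cm_val`) iff `x ∈ u` (`HeightOneSpectrum.ext`).
-/

set_option autoImplicit false
set_option linter.unusedSectionVars false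
open scoped Classical

open WithZero NumberField IsDedekindDomain H76PP

namespace H36CY

theorem two_span {k k' : Type} [Field k] [Field k'] [Algebra k k'] (two : Module.finrank k k' = 2)
    {ρ : k'} (hρk : ∀ y : k, algebraMap k k' y ≠ ρ) (ζ : k') :
    ∃ s t : k, ζ = algebraMap k k' s + algebraMap k k' t * ρ := by
  have hfd : FiniteDimensional k k' := Module.finite_of_finrank_pos (by omega)
  have hli : LinearIndependent k ![(1 : k'), ρ] := by
    rw [LinearIndependent.pair_iff]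
    intro s t hst
    rw [Algebra.smul_def, Algebra.smul_def, mul_one] at hst
    by_cases ht : t = 0
    · subst ht
      rw [map_zero, zero_mul, add_zero, map_eq_zero] at hst
      exact ⟨hst, rfl⟩
    · exfalso
      have ht' : algebraMap k k' t ≠ 0 := by
        rw [Ne, map_eq_zero]
        exact ht
      refine hρk (-s / t) ?_
      rw [map_div₀, map_neg, div_eq_iff ht']
      linear_combination -hst
  have hsp : Submodule.span k (Set.range ![(1 : k'), ρ]) = ⊤ :=
    hli.span_eq_top_of_card_eq_finrank' (by rw [two, Fintype.card_fin])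
  have hζ : ζ ∈ Submodule.span k (Set.range ![(1 : k'), ρ]) := by
    rw [hsp]
    exact Submodule.mem_top
  rw [Matrix.range_cons_cons_empty, Submodule.mem_span_pair] at hζ
  obtain ⟨s, t, hst⟩ := hζ
  refine ⟨s, t, ?_⟩
  rw [← hst, Algebra.smul_def, Algebra.smul_def, mul_one]

theorem Ke_uniq {k k' : Type} [Field k] [Field k'] [Algebra k k'] {ρ : k'}
    (hρk : ∀ y : k, algebraMap k k' y ≠ ρ) {s t s' t' : k}
    (h : algebraMap k k' s + algebraMap k k' t * ρ = algebraMap k k' s' + algebraMap k k' t' * ρ) :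
    s = s' ∧ t = t' := by
  have ht : t = t' := by
    by_contra hne
    have h0 : algebraMap k k' (t - t') ≠ 0 := by
      rw [Ne, map_eq_zero, sub_eq_zero]
      exact hne
    refine hρk ((s' - s) / (t - t')) ?_
    rw [map_div₀, div_eq_iff h0, map_sub, map_sub]
    linear_combination -h
  refine ⟨?_, ht⟩
  rw [ht] at h
  exact (algebraMap k k').injective (add_right_cancel h)

theorem exists_emb {k k' F : Type} [Field k] [Field k'] [Field F] [Algebra k k']
    (two : Module.finrank k k' = 2) {ρ : k'} {D : k} (hρ : ρ ^ 2 = algebraMap k k' D)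
    (hρk : ∀ y : k, algebraMap k k' y ≠ ρ) (i : k →+* F) {r : F} (hr : r ^ 2 = i D) :
    ∃ j : k' →+* F, ∀ x : k, j (algebraMap k k' x) = i x := by
  choose s t hst using fun ζ => two_span two hρk ζ
  have hu : ∀ (ζ : k') (a b : k), ζ = algebraMap k k' a + algebraMap k k' b * ρ →
      s ζ = a ∧ t ζ = b := by
    intro ζ a b h
    exact Ke_uniq hρk ((hst ζ).symm.trans h)
  refine ⟨{ toFun := fun ζ => i (s ζ) + i (t ζ) * r, map_one' := ?_, map_mul' := ?_,
            map_zero' := ?_, map_add' := ?_ }, ?_⟩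
  · obtain ⟨h1, h2⟩ := hu 1 1 0 (by rw [map_one, map_zero, zero_mul, add_zero])
    rw [h1, h2, map_one, map_zero, zero_mul, add_zero]
  · intro ζ ξ
    obtain ⟨h1, h2⟩ := hu (ζ * ξ) (s ζ * s ξ + t ζ * t ξ * D) (s ζ * t ξ + t ζ * s ξ) (by
      have e1 := hst ζ
      have e2 := hst ξ
      rw [map_add, map_add, map_mul, map_mul, map_mul, map_mul, map_mul, ← hρ]
      calc ζ * ξ = (algebraMap k k' (s ζ) + algebraMap k k' (t ζ) * ρ) *
            (algebraMap k k' (s ξ) + algebraMap k k' (t ξ) * ρ) := by rw [← e1, ← e2]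
        _ = _ := by ring)
    show i (s (ζ * ξ)) + i (t (ζ * ξ)) * r = (i (s ζ) + i (t ζ) * r) * (i (s ξ) + i (t ξ) * r)
    rw [h1, h2, map_add, map_add, map_mul, map_mul, map_mul, map_mul, map_mul, ← hr]
    ring
  · obtain ⟨h1, h2⟩ := hu 0 0 0 (by rw [map_zero, zero_mul, add_zero])
    show i (s 0) + i (t 0) * r = 0
    rw [h1, h2, map_zero, zero_mul, add_zero]
  · intro ζ ξ
    obtain ⟨h1, h2⟩ := hu (ζ + ξ) (s ζ + s ξ) (t ζ + t ξ) (by
      have e1 := hst ζ
      have e2 := hst ξ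
      rw [map_add, map_add]
      calc ζ + ξ = (algebraMap k k' (s ζ) + algebraMap k k' (t ζ) * ρ) +
            (algebraMap k k' (s ξ) + algebraMap k k' (t ξ) * ρ) := by rw [← e1, ← e2]
        _ = _ := by ring)
    show i (s (ζ + ξ)) + i (t (ζ + ξ)) * r = (i (s ζ) + i (t ζ) * r) + (i (s ξ) + i (t ξ) * r)
    rw [h1, h2, map_add, map_add]
    ring
  · intro x
    obtain ⟨h1, h2⟩ := hu (algebraMap k k' x) x 0 (by rw [map_zero, zero_mul, add_zero])
    show i (s (algebraMap k k' x)) + i (t (algebraMap k k' x)) * r = i x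
    rw [h1, h2, map_zero, zero_mul, add_zero]

theorem Ke_core {N Γ : Type} [Field N] [LinearOrderedCommGroupWithZero Γ] (v : Valuation N Γ)
    (h2 : v 2 ≤ 1) {z S R δ : N} (hz : z = S + R) (h1 : v (z ^ 2 - δ) < v (16 * δ))
    (h3 : v (4 * S * R) < v (16 * δ)) (hle : v z ≤ v S) : v (S ^ 2 - δ) < v (4 * δ) := by
  have h4 : v 4 ≤ 1 := by
    have e : (4 : N) = 2 * 2 := by norm_num
    rw [e, map_mul]
    exact mul_le_one' h2 h2
  have e16 : v (16 * δ) = v 4 * (v 4 * v δ) := by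
    have e : (16 : N) * δ = 4 * (4 * δ) := by ring
    rw [e, map_mul, map_mul]
  have e4 : v (4 * δ) = v 4 * v δ := map_mul _ _ _
  have hle16 : v (16 * δ) ≤ v (4 * δ) := by
    rw [e16, e4]
    exact mul_le_of_le_one_left' h4
  have hleδ : v (4 * δ) ≤ v δ := by
    rw [e4]
    exact mul_le_of_le_one_left' h4
  have hzδ : v z ^ 2 = v δ := by
    have e : z ^ 2 = δ + (z ^ 2 - δ) := by ring
    rw [← map_pow, e]
    exact Valuation.map_add_eq_of_lt_left v (lt_of_lt_of_le h1 (hle16.trans hleδ))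
  have hpos16 : 0 < v (16 * δ) := lt_of_le_of_lt zero_le h1
  have h40 : 0 < v 4 := by
    rw [e16] at hpos16
    exact zero_lt_iff.2 (left_ne_zero_of_mul hpos16.ne')
  have hδ0 : 0 < v δ := by
    rw [e16] at hpos16
    exact zero_lt_iff.2 (right_ne_zero_of_mul (right_ne_zero_of_mul hpos16.ne'))
  have hz0 : 0 < v z := by
    rw [← hzδ] at hδ0
    exact zero_lt_iff.2 (fun h => hδ0.ne' (by rw [h, zero_pow two_ne_zero]))
  have hSR : v S * v R < v 4 * v z ^ 2 := by
    by_contra hcon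
    rw [not_lt] at hcon
    have h5 : v 4 * (v 4 * v z ^ 2) ≤ v 4 * (v S * v R) := mul_le_mul' le_rfl hcon
    rw [hzδ, ← e16, ← mul_assoc, ← map_mul, ← map_mul] at h5
    exact absurd h3 (not_lt.2 h5)
  have hR : v R < v 4 * v z := by
    by_contra hcon
    rw [not_lt] at hcon
    have h5 : v z * (v 4 * v z) ≤ v S * v R := mul_le_mul' hle hcon
    have h6 : v z * (v 4 * v z) = v 4 * v z ^ 2 := by
      rw [pow_two, mul_left_comm]
    rw [h6] at h5
    exact absurd hSR (not_lt.2 h5)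
  have e5 : S ^ 2 - δ = (z ^ 2 - δ) + (R ^ 2 - 2 * z * R) := by
    rw [hz]
    ring
  rw [e5]
  refine Valuation.map_add_lt v (lt_of_lt_of_le h1 hle16) (Valuation.map_sub_lt v ?_ ?_)
  · rw [map_pow, e4, ← hzδ, pow_two, pow_two]
    calc v R * v R < v 4 * v z * (v 4 * v z) := mul_lt_mul'' hR hR zero_le zero_le
      _ ≤ v z * (v 4 * v z) := mul_le_mul' (mul_le_of_le_one_left' h4) le_rfl
      _ = v 4 * (v z * v z) := by rw [mul_left_comm]
  · rw [map_mul, map_mul, e4, ← hzδ, pow_two]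
    calc v 2 * v z * v R ≤ v z * v R := mul_le_mul' (mul_le_of_le_one_left' h2) le_rfl
      _ < v z * (v 4 * v z) := mul_lt_mul_of_pos_left hR hz0
      _ = v 4 * (v z * v z) := by rw [mul_left_comm]

theorem ker_quad {k k' N : Type} [Field k] [NumberField k] [Field k'] [NumberField k'] [Field N]
    [NumberField N] [Algebra k k'] [Algebra k N] [Algebra k' N] [IsScalarTower k k' N]
    (two : Module.finrank k k' = 2) (W : HeightOneSpectrum (𝓞 N)) {ρ : k'} {D : k}
    (hρ : ρ ^ 2 = algebraMap k k' D) (hρk : ∀ y : k, algebraMap k k' y ≠ ρ) {g : N ≃ₐ[k] N}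
    (hg : Stb k W g) (hgρ : g (algebraMap k' N ρ) = -algebraMap k' N ρ) {δ : k} {ζ : k'}
    (hζ : W.valuation N (algebraMap k' N ζ ^ 2 - algebraMap k N δ) <
      W.valuation N (16 * algebraMap k N δ)) :
    (∃ s : k, W.valuation N (algebraMap k N (s ^ 2 - δ)) < W.valuation N (algebraMap k N (4 * δ))) ∨
      ∃ t : k, W.valuation N (algebraMap k N (D * t ^ 2 - δ)) <
        W.valuation N (algebraMap k N (4 * δ)) := by
  obtain ⟨s, t, hst⟩ := two_span two hρk ζ
  obtain ⟨v, hv⟩ : ∃ v, v = W.valuation N := ⟨_, rfl⟩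
  have h2 : v 2 ≤ 1 := by
    rw [hv]
    have := H73P2.Cm_int (W.valuation N) (2 : 𝓞 N)
    rwa [map_ofNat] at this
  have eS : algebraMap k' N (algebraMap k k' s) = algebraMap k N s :=
    (IsScalarTower.algebraMap_apply k k' N s).symm
  have eT : algebraMap k' N (algebraMap k k' t) = algebraMap k N t :=
    (IsScalarTower.algebraMap_apply k k' N t).symm
  have eD : algebraMap k' N ρ ^ 2 = algebraMap k N D := by
    rw [← map_pow, hρ, ← IsScalarTower.algebraMap_apply]
  obtain ⟨z, hz⟩ : ∃ z, z = algebraMap k' N ζ := ⟨_, rfl⟩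
  obtain ⟨S, hS⟩ : ∃ S, S = algebraMap k N s := ⟨_, rfl⟩
  obtain ⟨R, hR⟩ : ∃ R, R = algebraMap k N t * algebraMap k' N ρ := ⟨_, rfl⟩
  have hzSR : z = S + R := by
    rw [hz, hst, map_add, map_mul, eS, eT, hS, hR]
  have hgz : g z = S - R := by
    rw [hzSR, map_add, hS, hR, map_mul, g.commutes, g.commutes, hgρ]
    ring
  rw [← hz, ← hv] at hζ
  have h5 : v ((g z) ^ 2 - algebraMap k N δ) < v (16 * algebraMap k N δ) := by
    have h6 := hg (z ^ 2 - algebraMap k N δ)
    rw [map_sub, map_pow, g.commutes, ← hv] at h6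
    rw [h6]
    exact hζ
  have h6 : v (4 * S * R) < v (16 * algebraMap k N δ) := by
    have e : 4 * S * R = (z ^ 2 - algebraMap k N δ) - ((g z) ^ 2 - algebraMap k N δ) := by
      rw [hgz, hzSR]
      ring
    rw [e]
    exact Valuation.map_sub_lt v hζ h5
  rcases le_total (v R) (v S) with h7 | h7
  · left
    have h8 : v z ≤ v S := by
      rw [hzSR]
      exact Valuation.map_add_le v le_rfl h7
    refine ⟨s, ?_⟩
    have h9 := Ke_core v h2 hzSR hζ h6 h8
    rw [← hv, map_sub, map_pow, ← hS, map_mul, map_ofNat]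
    exact h9
  · right
    have h8 : v z ≤ v R := by
      rw [hzSR]
      exact Valuation.map_add_le v h7 le_rfl
    refine ⟨t, ?_⟩
    have h9 := Ke_core v h2 (hzSR.trans (add_comm S R)) hζ
      (by rw [show 4 * R * S = 4 * S * R by ring]; exact h6) h8
    have e : algebraMap k N (D * t ^ 2 - δ) = R ^ 2 - algebraMap k N δ := by
      rw [map_sub, map_mul, map_pow, ← eD, hR]
      ring
    rw [← hv, e, map_mul, map_ofNat]
    exact h9

theorem LC_of_emb {k k' : Type} [Field k] [NumberField k] [Field k'] [NumberField k']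
    [Algebra k k'] {a b : k'} {d : Fin 3 → k'} (u : HeightOneSpectrum (𝓞 k))
    (h : ∀ u' : HeightOneSpectrum (𝓞 k'), dn k u' = u →
      LC (algebraMap k' (u'.adicCompletion k')) a b d) (j : k' →+* u.adicCompletion k)
    (hj : ∀ x : k, j (algebraMap k k' x) = algebraMap k (u.adicCompletion k) x) : LC j a b d := by
  have hdn : dn k (H73P2.Cm_pl u j hj) = u := by
    apply HeightOneSpectrum.ext
    ext x
    change algebraMap (𝓞 k) (𝓞 k') x ∈ H73P2.Cm_id u j hj ↔ x ∈ u.asIdeal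
    rw [H73P2.Cm_mem, ← IsScalarTower.algebraMap_apply (𝓞 k) (𝓞 k') k',
      IsScalarTower.algebraMap_apply (𝓞 k) k k', H73P2.Cm_val u j hj]
    exact u.valuation_lt_one_iff_mem (K := k) x
  have hφ : ∀ x : k', Pool.Agent.H10.adicLift (H73P2.Cm_pl u j hj) j
      (Pool.Agent.H10.continuous_fromVal (H73P2.Cm_pl u j hj) j (H73P2.Cm_nhds u j hj))
      (algebraMap k' ((H73P2.Cm_pl u j hj).adicCompletion k') x) = j x :=
    fun x => Pool.Agent.H10.adicLift_algebraMap (H73P2.Cm_pl u j hj) _ _ x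
  generalize Pool.Agent.H10.adicLift (H73P2.Cm_pl u j hj) j
      (Pool.Agent.H10.continuous_fromVal (H73P2.Cm_pl u j hj) j (H73P2.Cm_nhds u j hj)) = φ at hφ
  obtain ⟨x, y, z, hy, hxy, hm⟩ := h _ hdn
  refine ⟨φ x, φ y, fun i => φ (z i), ?_, ?_, ?_⟩
  · rw [Ne, map_eq_zero]
    exact hy
  · rw [← hφ a, ← hφ b, ← map_pow, hxy, map_add, map_add, map_mul, map_pow]
  · have e1 : (fun i => φ ((![x, -1, 0] : Fin 3 → (H73P2.Cm_pl u j hj).adicCompletion k') i)) =
        ![φ x, -1, 0] := by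
      funext i
      fin_cases i <;> simp
    have e2 : (fun i => j (d i)) = fun i =>
        φ (algebraMap k' ((H73P2.Cm_pl u j hj).adicCompletion k') (d i)) := by
      funext i
      rw [hφ]
    funext i
    have h1 := Te_m3_map φ (algebraMap k' ((H73P2.Cm_pl u j hj).adicCompletion k') a)
      (algebraMap k' ((H73P2.Cm_pl u j hj).adicCompletion k') b)
      (fun i => algebraMap k' ((H73P2.Cm_pl u j hj).adicCompletion k') (d i)) ![x, -1, 0] i
    have h2 := Te_m3_map φ (algebraMap k' ((H73P2.Cm_pl u j hj).adicCompletion k') a)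
      (algebraMap k' ((H73P2.Cm_pl u j hj).adicCompletion k') b) z z i
    rw [e1, hφ, hφ] at h1
    rw [hφ, hφ] at h2
    rw [e2, h1, h2, hm]

end H36CY
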