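import Pool.Agent.H36.CY.Ia
import Pool.Agent.H36.CY.Hi
import Pool.Agent.H36.CY.Sq

/-!
ROW Ly (project MP_78d38b_CY, about 200 lines): the first layer. Use only the STATEMENTS of De, Ia (`act_iso`), Hi (`drop_root`), Sq (`sq_near`).

PROOF of conj_exists: `W`, `W'` lie above the same prime of `K` and `N / K` is Galois, so the Galois group moves one to the other:
`Ideal.exists_smul_eq_of_isGaloisGroup` (model: `Pool/Agent/H11/Global.lean` line 131, `Pool/Agent/H2/T4/H4.lean` line 210) or `exists_comap_galRestrict_eq`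
(`Mathlib/NumberTheory/RamificationInertia/Galois.lean`); then `W'.valuation N x = W.valuation N (g x)`: `Pool.Agent.H10.exists_conj g W` gives the prime `W''` with
`W.valuation N (g x) = W''.valuation N x`; `W'' = W'` by comparing the ideals (`x ∈ W''` iff `W''.valuation x < 1` iff `W (g x) < 1` iff `g x ∈ W`).

PROOF of lay_conj: `W'.valuation N x = W.valuation N (g x)`. Put `τ' = g⁻¹ τ g`, `ρ' = g⁻¹ ρ` (`AlgEquiv` group). `Stb K W' h ↔ Stb K W (g h g⁻¹)` (substitute), so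
`↔ g h g⁻¹ ∈ zpowers τ ↔ h ∈ zpowers τ'` (`(g⁻¹ τ g) ^ n = g⁻¹ τ ^ n g`: `conj_zpow`). `τ' ρ' = g⁻¹ τ ρ = -ρ'`. `W' (ρ' ^ 2 - D) = W (ρ ^ 2 - D) < W (4 D) = W' (4 D)`
(`g` fixes `K`).

PROOF of lay_exists: `orderOf τ ∣ card = 2 ^ r` (`IsGalois.card_aut_eq_finrank`, `orderOf_dvd_natCard`), so `orderOf τ = 2 ^ n` (`Nat.dvd_prime_pow`). If `n = 0` then `τ = 1` and `zpowers τ` is
trivial. Let `n > 0`. CLAIM: for all `i ≤ n - 1` there is `ρ ∈ N`, `ρ ≠ 0`, `τ^(2^i) ρ = -ρ` (downwards induction): for `i = n - 1` `σ = τ^(2^(n-1)) ≠ 1`, `σ² = 1`: choose `x` with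
`σ x ≠ x`, `ρ = x - σ x`. From `i + 1` to `i`: `drop_root` for `σ = τ^(2^i)` as a ring homomorphism. So `τ ρ = -ρ` for some `ρ ≠ 0` (`i = 0`). `ρ ^ 2` is fixed by
`τ`, so by all `g` with `Stb K W g`; `dense_fix` with `ε = W (4 ρ ^ 2)` gives `D` with `W (ρ ^ 2 - D) < W (4 ρ ^ 2) ≤ W (ρ ^ 2)`, so `W D = W (ρ ^ 2)`.

PROOF of lay_root: in `Ω = N_W`: `sq_near` for `y = ρ ^ 2`, `z = D`: `ρ ^ 2 = D κ ^ 2`, `κ ≠ 0`. `Valued.v (κ ^ 2 - 1) < Valued.v 4`. One of `κ - 1`, `κ + 1` has value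
`< Valued.v 2` (the product has value `< Valued.v 4`); replacing `κ` by `-κ` we may assume `Valued.v (κ - 1) < Valued.v 2`. `φ (κ ^ 2) = κ ^ 2` (`φ ρ = -ρ`, `φ D = D`), so `φ κ = ± κ`;
`φ κ = -κ` would give `Valued.v (κ + 1) = Valued.v (φ (κ - 1)) = Valued.v (κ - 1) < Valued.v 2` (act_iso), so `Valued.v 2 < Valued.v 2`. So `φ κ = κ` and `ρ' = ρ / κ`.
-/

set_option autoImplicit false
set_option linter.unusedSectionVars false
open scoped Classical

open WithZero NumberField IsDedekindDomain H76PP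

namespace H36CY

variable {K N : Type} [Field K] [NumberField K] [Field N] [NumberField N] [Algebra K N]

theorem conj_exists [IsGalois K N] {W W' : HeightOneSpectrum (𝓞 N)} (h : dn K W' = dn K W) :
    ∃ g : N ≃ₐ[K] N, ∀ x : N, W'.valuation N x = W.valuation N (g x) := by
  have hp : (dn K W).asIdeal = W.asIdeal.comap (algebraMap (𝓞 K) (𝓞 N)) := rfl
  have hp' : (dn K W).asIdeal = W'.asIdeal.comap (algebraMap (𝓞 K) (𝓞 N)) := by
    rw [← h]
    rfl
  have i1 : W.asIdeal.IsPrime := W.isPrime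
  have i2 : W'.asIdeal.IsPrime := W'.isPrime
  have i3 : W.asIdeal.LiesOver (dn K W).asIdeal := ⟨hp⟩
  have i4 : W'.asIdeal.LiesOver (dn K W).asIdeal := ⟨hp'⟩
  obtain ⟨g, hg⟩ := Ideal.exists_smul_eq_of_isGaloisGroup (dn K W).asIdeal W'.asIdeal W.asIdeal
    (N ≃ₐ[K] N)
  obtain ⟨W2, hW2, -⟩ := Pool.Agent.H10.exists_conj g W
  have hmem : ∀ x : 𝓞 N, x ∈ W2.asIdeal ↔ x ∈ W'.asIdeal := by
    intro x
    have e1 : x ∈ W2.asIdeal ↔ W2.valuation N (algebraMap (𝓞 N) N x) < 1 :=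
      (W2.valuation_lt_one_iff_mem x).symm
    have e2 : W.valuation N (algebraMap (𝓞 N) N (g • x)) < 1 ↔ g • x ∈ W.asIdeal :=
      W.valuation_lt_one_iff_mem (g • x)
    have e3 : algebraMap (𝓞 N) N (g • x) = g (algebraMap (𝓞 N) N x) := rfl
    rw [e1, ← hW2, ← e3, e2, ← hg]
    exact Ideal.smul_mem_pointwise_smul_iff
  have hWW : W2 = W' := HeightOneSpectrum.ext (Ideal.ext hmem)
  refine ⟨g, fun x => ?_⟩
  rw [hW2, hWW]

private theorem Ly_stb {W W' : HeightOneSpectrum (𝓞 N)} {g : N ≃ₐ[K] N}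
    (hg : ∀ x : N, W'.valuation N x = W.valuation N (g x)) (s : N ≃ₐ[K] N) :
    Stb K W' s ↔ Stb K W (g * s * g⁻¹) := by
  unfold Stb
  constructor
  · intro h z
    have h1 := h (g⁻¹ z)
    rw [hg, hg] at h1
    have h2 : g (g⁻¹ z) = z := g.apply_symm_apply z
    rw [h2] at h1
    exact h1
  · intro h y
    rw [hg, hg]
    have h1 := h (g y)
    have h2 : (g * s * g⁻¹) (g y) = g (s y) := by
      have h3 : g⁻¹ (g y) = y := g.symm_apply_apply y
      rw [AlgEquiv.mul_apply, AlgEquiv.mul_apply, h3]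
    rw [h2] at h1
    exact h1

theorem lay_conj [IsGalois K N] {W W' : HeightOneSpectrum (𝓞 N)} (h : dn K W' = dn K W) {D : K}
    (hL : Lay K W D) : Lay K W' D := by
  obtain ⟨g, hg⟩ := conj_exists h
  obtain ⟨τ, ρ, hT⟩ := hL
  have hgg : ∀ z : N, g (g⁻¹ z) = z := fun z => g.apply_symm_apply z
  refine ⟨g⁻¹ * τ * g, g⁻¹ ρ, ⟨?_, ?_, ?_, ?_⟩⟩
  · intro s
    rw [Ly_stb hg, hT.gen, Subgroup.mem_zpowers_iff, Subgroup.mem_zpowers_iff]
    have hc : ∀ n : ℤ, (g⁻¹ * τ * g) ^ n = g⁻¹ * τ ^ n * g := by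
      intro n
      have := conj_zpow (a := g⁻¹) (b := τ) (i := n)
      rw [inv_inv] at this
      exact this
    constructor
    · rintro ⟨n, hn⟩
      refine ⟨n, ?_⟩
      rw [hc, hn]
      group
    · rintro ⟨n, hn⟩
      refine ⟨n, ?_⟩
      rw [← hn, hc]
      group
  · intro h0
    apply hT.ne
    have := congrArg g h0
    rw [hgg, map_zero] at this
    exact this
  · rw [AlgEquiv.mul_apply, AlgEquiv.mul_apply, hgg, hT.neg, map_neg]
  · rw [hg, hg, map_sub, map_pow, map_mul, hgg, map_ofNat, AlgEquiv.commutes]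
    exact hT.near

theorem triv_conj [IsGalois K N] {W W' : HeightOneSpectrum (𝓞 N)} (h : dn K W' = dn K W)
    (hL : ∀ g : N ≃ₐ[K] N, Stb K W g → g = 1) : ∀ g : N ≃ₐ[K] N, Stb K W' g → g = 1 := by
  obtain ⟨g, hg⟩ := conj_exists h
  intro s hs
  have h1 := hL _ ((Ly_stb hg s).1 hs)
  have h2 : g * s = g := by
    have := congrArg (fun t => t * g) h1
    simpa using this
  exact mul_left_cancel (h2.trans (mul_one g).symm)

private theorem Ly_four (W : HeightOneSpectrum (𝓞 N)) : W.valuation N 4 ≤ 1 := by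
  have e : algebraMap (𝓞 N) N 4 = 4 := map_ofNat _ 4
  rw [← e]
  exact W.valuation_le_one 4

private theorem Ly_neg (τ : N ≃ₐ[K] N) (n : ℕ) (hτ : orderOf τ = 2 ^ (n + 1)) :
    ∀ j : ℕ, j ≤ n → ∃ ρ : N, ρ ≠ 0 ∧ (τ ^ (2 ^ (n - j))) ρ = -ρ := by
  intro j
  induction j with
  | zero =>
    intro _
    rw [Nat.sub_zero]
    have h1 : τ ^ (2 ^ n) ≠ 1 := by
      intro h
      have h2 := orderOf_dvd_of_pow_eq_one h
      rw [hτ] at h2
      have h3 := Nat.le_of_dvd (by positivity) h2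
      have h4 : 2 ^ n < 2 ^ (n + 1) := Nat.pow_lt_pow_right (by norm_num) (Nat.lt_succ_self n)
      omega
    have h2 : ∃ x : N, (τ ^ (2 ^ n)) x ≠ x := by
      by_contra hcon
      push Not at hcon
      exact h1 (AlgEquiv.ext hcon)
    obtain ⟨x, hx⟩ := h2
    have h3 : (τ ^ (2 ^ n)) ((τ ^ (2 ^ n)) x) = x := by
      rw [← AlgEquiv.mul_apply, ← pow_add]
      have h4 : 2 ^ n + 2 ^ n = orderOf τ := by
        rw [hτ]
        ring
      rw [h4, pow_orderOf_eq_one, AlgEquiv.one_apply]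
    refine ⟨x - (τ ^ (2 ^ n)) x, fun h => hx (sub_eq_zero.1 h).symm, ?_⟩
    rw [map_sub, h3]
    ring
  | succ j ih =>
    intro hj
    obtain ⟨ρ, hρ0, hρ⟩ := ih (by omega)
    have he : 2 ^ (n - j) = 2 ^ (n - (j + 1)) + 2 ^ (n - (j + 1)) := by
      have : n - j = (n - (j + 1)) + 1 := by omega
      rw [this, pow_succ]
      ring
    obtain ⟨σ, hσ⟩ : ∃ σ : N →+* N, ∀ x, σ x = (τ ^ (2 ^ (n - (j + 1)))) x :=
      ⟨((τ ^ (2 ^ (n - (j + 1)))).toRingEquiv : N →+* N), fun x => rfl⟩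
    have h1 : σ (σ ρ) = -ρ := by
      rw [hσ, hσ, ← AlgEquiv.mul_apply, ← pow_add, ← he]
      exact hρ
    obtain ⟨ρ', h2, h3, -⟩ := drop_root σ hρ0 h1
    refine ⟨ρ', h2, ?_⟩
    rw [← hσ]
    exact h3

theorem lay_exists [IsGalois K N] {r : ℕ} (hr : Module.finrank K N = 2 ^ r)
    {W : HeightOneSpectrum (𝓞 N)} {τ : N ≃ₐ[K] N}
    (hτ : ∀ g : N ≃ₐ[K] N, Stb K W g ↔ g ∈ Subgroup.zpowers τ) :
    (∀ g : N ≃ₐ[K] N, Stb K W g → g = 1) ∨ ∃ D : K, Lay K W D := by
  have hcard : Nat.card (N ≃ₐ[K] N) = 2 ^ r := by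
    rw [IsGalois.card_aut_eq_finrank, hr]
  have hord : orderOf τ ∣ 2 ^ r := by
    rw [← hcard]
    exact orderOf_dvd_natCard τ
  obtain ⟨n, -, hn⟩ := (Nat.dvd_prime_pow Nat.prime_two).1 hord
  cases n with
  | zero =>
    left
    rw [pow_zero, orderOf_eq_one_iff] at hn
    intro g hg
    have h1 := (hτ g).1 hg
    rw [hn, Subgroup.zpowers_one_eq_bot, Subgroup.mem_bot] at h1
    exact h1
  | succ n =>
    right
    obtain ⟨ρ, hρ0, hρ⟩ := Ly_neg τ n hn n le_rfl
    rw [Nat.sub_self, pow_zero, pow_one] at hρ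
    have hfix : ∀ g : N ≃ₐ[K] N, Stb K W g → g (ρ ^ 2) = ρ ^ 2 := by
      intro g hg
      have h1 := (hτ g).1 hg
      have h2 : Subgroup.zpowers τ ≤ MulAction.stabilizer (N ≃ₐ[K] N) (ρ ^ 2) := by
        rw [Subgroup.zpowers_le, MulAction.mem_stabilizer_iff]
        show τ (ρ ^ 2) = ρ ^ 2
        rw [map_pow, hρ]
        ring
      exact h2 h1
    have hv0 : W.valuation N (4 * ρ ^ 2) ≠ 0 := by
      rw [Valuation.ne_zero_iff]
      have h4 : (4 : N) ≠ 0 := by norm_num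
      exact mul_ne_zero h4 (pow_ne_zero 2 hρ0)
    obtain ⟨D, hD⟩ := dense_fix W hfix hv0
    have h1 : W.valuation N (4 * ρ ^ 2) ≤ W.valuation N (ρ ^ 2) := by
      rw [map_mul]
      exact mul_le_of_le_one_left' (Ly_four W)
    have h2 : W.valuation N (algebraMap K N D) = W.valuation N (ρ ^ 2) := by
      apply Valuation.map_eq_of_sub_lt
      rw [Valuation.map_sub_swap]
      exact lt_of_lt_of_le hD h1
    refine ⟨D, τ, ρ, ⟨hτ, hρ0, hρ, ?_⟩⟩
    rw [map_mul (W.valuation N) 4 (algebraMap K N D), h2, ← map_mul]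
    exact hD

theorem lay_root {W : HeightOneSpectrum (𝓞 N)} {τ : N ≃ₐ[K] N} {ρ : N} {D : K}
    (h : LayT K W τ ρ D) {φ : W.adicCompletion N →+* W.adicCompletion N} (hφc : Continuous φ)
    (hφ : ∀ x : N, φ (algebraMap N (W.adicCompletion N) x) =
      algebraMap N (W.adicCompletion N) (τ x)) :
    ∃ ρ' : W.adicCompletion N, ρ' ^ 2 = algebraMap N (W.adicCompletion N) (algebraMap K N D) ∧
      ρ' ≠ 0 ∧ φ ρ' = -ρ' := by
  have hcz : CharZero (W.adicCompletion N) :=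
    charZero_of_injective_algebraMap (algebraMap N (W.adicCompletion N)).injective
  obtain ⟨a, ha⟩ : ∃ a : W.adicCompletion N, a = algebraMap N (W.adicCompletion N) ρ := ⟨_, rfl⟩
  obtain ⟨b, hb⟩ : ∃ b : W.adicCompletion N,
    b = algebraMap N (W.adicCompletion N) (algebraMap K N D) := ⟨_, rfl⟩
  have hval : ∀ x : N, Valued.v (algebraMap N (W.adicCompletion N) x) = W.valuation N x :=
    fun x => HeightOneSpectrum.valuedAdicCompletion_eq_valuation' W x
  have hnear : Valued.v (a ^ 2 - b) < Valued.v (4 * b) := by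
    have h1 : a ^ 2 - b = algebraMap N (W.adicCompletion N) (ρ ^ 2 - algebraMap K N D) := by
      rw [map_sub, map_pow, ha, hb]
    have h2 : 4 * b = algebraMap N (W.adicCompletion N) (4 * algebraMap K N D) := by
      rw [map_mul, map_ofNat, hb]
    rw [h1, h2, hval, hval]
    exact h.near
  obtain ⟨κ, hκ0, hκ⟩ := sq_near hnear
  have hφa : φ a = -a := by
    rw [ha, hφ, h.neg, map_neg]
  have hφb : φ b = b := by
    rw [hb, hφ, AlgEquiv.commutes]
  have ha0 : a ≠ 0 := by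
    rw [ha]
    intro h0
    exact h.ne ((map_eq_zero_iff _ (algebraMap N (W.adicCompletion N)).injective).1 h0)
  have hb0 : b ≠ 0 := by
    intro h0
    rw [h0, zero_mul] at hκ
    exact ha0 (pow_eq_zero_iff two_ne_zero |>.1 hκ)
  have hstab : Stb K W τ := (h.gen τ).2 (Subgroup.mem_zpowers τ)
  have hiso := act_iso hstab hφc hφ
  have hlt : Valued.v (κ ^ 2 - 1) < Valued.v (4 : W.adicCompletion N) := by
    have h1 : a ^ 2 - b = b * (κ ^ 2 - 1) := by
      rw [hκ]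
      ring
    rw [h1, map_mul, map_mul, mul_comm (Valued.v (4 : W.adicCompletion N))] at hnear
    exact lt_of_mul_lt_mul_left' hnear
  -- choose the sign
  have hsign : ∃ κ' : W.adicCompletion N, κ' ≠ 0 ∧ a ^ 2 = b * κ' ^ 2 ∧
      Valued.v (κ' - 1) < Valued.v (2 : W.adicCompletion N) := by
    by_cases h1 : Valued.v (κ - 1) < Valued.v (2 : W.adicCompletion N)
    · exact ⟨κ, hκ0, hκ, h1⟩
    · by_cases h2 : Valued.v (κ + 1) < Valued.v (2 : W.adicCompletion N)
      · refine ⟨-κ, neg_ne_zero.2 hκ0, by rw [hκ]; ring, ?_⟩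
        have h3 : -κ - 1 = -(κ + 1) := by ring
        rw [h3, Valuation.map_neg]
        exact h2
      · exfalso
        rw [not_lt] at h1 h2
        have h3 := mul_le_mul' h1 h2
        have h4 : Valued.v (κ ^ 2 - 1) = Valued.v (κ - 1) * Valued.v (κ + 1) := by
          rw [← map_mul]
          congr 1
          ring
        have h5 : Valued.v (4 : W.adicCompletion N) =
            Valued.v (2 : W.adicCompletion N) * Valued.v (2 : W.adicCompletion N) := by
          rw [← map_mul]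
          congr 1
          norm_num
        rw [← h4, ← h5] at h3
        exact absurd hlt (not_lt.2 h3)
  obtain ⟨κ', hκ0', hκ', hlt'⟩ := hsign
  have hsq : (φ κ') ^ 2 = κ' ^ 2 := by
    have h1 := congrArg φ hκ'
    rw [map_pow, hφa, map_mul, hφb, map_pow, neg_sq, hκ'] at h1
    exact (mul_left_cancel₀ hb0 h1).symm
  have hfix : φ κ' = κ' := by
    rcases sq_eq_sq_iff_eq_or_eq_neg.1 hsq with h1 | h1
    · exact h1
    · exfalso
      have h2 := hiso (κ' - 1)
      rw [map_sub, map_one, h1] at h2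
      have h3 : -κ' - 1 = -(κ' + 1) := by ring
      rw [h3, Valuation.map_neg] at h2
      have h4 : Valued.v (κ' + 1) < Valued.v (2 : W.adicCompletion N) := by
        rw [h2]
        exact hlt'
      have h5 : Valued.v ((κ' + 1) - (κ' - 1)) < Valued.v (2 : W.adicCompletion N) :=
        Valuation.map_sub_lt _ h4 hlt'
      have h6 : (κ' + 1) - (κ' - 1) = 2 := by ring
      rw [h6] at h5
      exact lt_irrefl _ h5
  refine ⟨a / κ', ?_, div_ne_zero ha0 hκ0', ?_⟩
  · rw [div_pow, hκ', ← hb]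
    field_simp
  · rw [map_div₀, hφa, hfix]
    ring

end H36CY
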