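import Pool.Agent.H36.CY.Cr
import Pool.Agent.H36.CY.Vl
import Pool.Agent.H36.CY.Hi
import Pool.Agent.H36.CY.Ba
import Pool.Agent.H36.CY.Ly
import Pool.Agent.H36.CY.Ke
import Pool.Agent.H73.P2.Ua

/-!
Local descent at a prime above two with cyclic decomposition groups (project MP_78d38b_CY, no row; assembly).
-/

set_option autoImplicit false
set_option linter.unusedSectionVars false
open scoped Classical

open WithZero NumberField IsDedekindDomain H76PP H73P2

namespace H36CY

theorem vn {F Γ : Type*} [Field F] [LinearOrderedCommGroupWithZero Γ] (V : Valuation F Γ) (n : ℕ) :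
    V (n : F) ≤ 1 := by
  induction n with
  | zero => rw [Nat.cast_zero, map_zero]; exact zero_le'
  | succ n ih =>
    rw [Nat.cast_succ]
    exact V.map_add_le ih (le_of_eq (map_one V))

section

variable {k : Type} [Field k] [NumberField k]

theorem val_coe (u : HeightOneSpectrum (𝓞 k)) (x : k) :
    Valued.v (algebraMap k (u.adicCompletion k) x) = u.valuation k x :=
  HeightOneSpectrum.valuedAdicCompletion_eq_valuation' u x

theorem char_zero (u : HeightOneSpectrum (𝓞 k)) : CharZero (u.adicCompletion k) :=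
  charZero_of_injective_algebraMap (algebraMap k (u.adicCompletion k)).injective

/-- An element of the base field close to `z` is `z` times a square. -/
theorem sq_near' (u : HeightOneSpectrum (𝓞 k)) {y z : k}
    (h : u.valuation k (y - z) < u.valuation k (4 * z)) :
    ∃ r : u.adicCompletion k, r ≠ 0 ∧ algebraMap k (u.adicCompletion k) y =
      algebraMap k (u.adicCompletion k) z * r ^ 2 := by
  have _ := char_zero u
  refine sq_near ?_
  have e4 : (4 : u.adicCompletion k) = algebraMap k (u.adicCompletion k) 4 := by rw [map_ofNat]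
  rw [← map_sub, e4, ← map_mul, val_coe, val_coe]
  exact h

/-- An element of the base field close to an element of the completion. -/
theorem near_coe (u : HeightOneSpectrum (𝓞 k)) (x : u.adicCompletion k) {c : u.adicCompletion k}
    (hc : c ≠ 0) : ∃ y : k, Valued.v (algebraMap k (u.adicCompletion k) y - x) < Valued.v c := by
  have hd := HeightOneSpectrum.denseRange_algebraMap (K := k) u
  obtain ⟨y, hy⟩ := hd.mem_nhds (Te_nhd x hc)
  exact ⟨y, hy⟩

end

section Split

variable {k k' N : Type} [Field k] [NumberField k] [Field k'] [NumberField k'] [Field N]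
  [NumberField N] [Algebra k k'] [Algebra k N] [Algebra k' N] [IsScalarTower k k' N]

theorem over_mid (W : HeightOneSpectrum (𝓞 N)) :
    Pool.Agent.H10.Over (dn k W) (dn k' W) := by
  have h := over_dn (K := k) (dn k' W)
  rwa [dn_dn] at h

theorem ld_split [IsGalois k N] (two : Module.finrank k k' = 2) {a b : k} {d : Fin 3 → k}
    (W : HeightOneSpectrum (𝓞 N)) {ρ : k'} {D : k} (hρ : ρ ^ 2 = algebraMap k k' D)
    (hρk : ∀ y : k, algebraMap k k' y ≠ ρ)
    (hA : ∀ g : N ≃ₐ[k] N, Stb k W g → g (algebraMap k' N ρ) = algebraMap k' N ρ)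
    (hloc : ∀ u' : HeightOneSpectrum (𝓞 k'), dn k u' = dn k W →
      LC (algebraMap k' (u'.adicCompletion k')) (algebraMap k k' a) (algebraMap k k' b)
        (fun i => algebraMap k k' (d i))) :
    LC (algebraMap k ((dn k W).adicCompletion k)) a b d := by
  have hρ0 : ρ ≠ 0 := fun h => hρk 0 (by rw [map_zero, h])
  obtain ⟨z, hz⟩ : ∃ z, z = algebraMap k' N ρ := ⟨_, rfl⟩
  have hz0 : z ≠ 0 := by
    rw [hz]
    exact (map_ne_zero _).2 hρ0
  have hz2 : z ^ 2 = algebraMap k N D := by
    rw [hz, ← map_pow, hρ, ← IsScalarTower.algebraMap_apply]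
  rw [← hz] at hA
  have h4z : (4 : N) * z ≠ 0 := mul_ne_zero (by norm_num) hz0
  obtain ⟨t, ht⟩ := dense_fix (K := k) W hA (ε := W.valuation N (4 * z))
    ((Valuation.ne_zero_iff _).2 h4z)
  -- the square of `t` is close to `D`
  have h4 : W.valuation N (4 : N) ≤ 1 := by exact_mod_cast vn (W.valuation N) 4
  have h2 : W.valuation N (2 : N) ≤ 1 := by exact_mod_cast vn (W.valuation N) 2
  have ht1 : W.valuation N (z - algebraMap k N t) < W.valuation N z := by
    refine lt_of_lt_of_le ht ?_
    rw [map_mul]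
    exact mul_le_of_le_one_left' h4
  have ht2 : W.valuation N (z + algebraMap k N t) ≤ W.valuation N z := by
    have e : z + algebraMap k N t = 2 * z - (z - algebraMap k N t) := by ring
    rw [e]
    refine (Valuation.map_sub _ _ _).trans (max_le ?_ ht1.le)
    rw [map_mul]
    exact mul_le_of_le_one_left' h2
  have ht3 : W.valuation N (algebraMap k N (t ^ 2 - D)) < W.valuation N (algebraMap k N (4 * D)) := by
    have e1 : algebraMap k N (t ^ 2 - D) = -((z - algebraMap k N t) * (z + algebraMap k N t)) := by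
      rw [map_sub, map_pow, ← hz2]
      ring
    have e2 : algebraMap k N (4 * D) = 4 * z * z := by
      rw [map_mul, map_ofNat, ← hz2]
      ring
    rw [e1, e2, Valuation.map_neg, map_mul, map_mul (W.valuation N) (4 * z) z]
    exact mul_lt_mul_of_lt_of_le_of_nonneg_of_pos ht ht2 zero_le'
      (zero_lt_iff.2 ((Valuation.ne_zero_iff _).2 hz0))
  rw [val_lt_iff] at ht3
  obtain ⟨r, hr0, hr⟩ := sq_near' (dn k W) ht3
  have hr' : (algebraMap k ((dn k W).adicCompletion k) t / r) ^ 2 =
      algebraMap k ((dn k W).adicCompletion k) D := by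
    rw [div_pow, ← map_pow, hr]
    field_simp
  obtain ⟨j, hj⟩ := exists_emb two hρ hρk (algebraMap k ((dn k W).adicCompletion k)) hr'
  have h5 := LC_of_emb (dn k W) hloc j hj
  unfold LC at h5 ⊢
  simp only [hj] at h5
  exact h5

/-- The square class of the value at the root near `-6`. -/
theorem ld_ker (two : Module.finrank k k' = 2) {a b : k} {d : Fin 3 → k}
    (W : HeightOneSpectrum (𝓞 N)) {ρ : k'} {D : k} (hρ : ρ ^ 2 = algebraMap k k' D)
    (hρk : ∀ y : k, algebraMap k k' y ≠ ρ) {g : N ≃ₐ[k] N} (hg : Stb k W g)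
    (hgρ : g (algebraMap k' N ρ) = -algebraMap k' N ρ)
    (hSp : SpF (algebraMap k ((dn k W).adicCompletion k) a)
      (algebraMap k ((dn k W).adicCompletion k) b)) {θ : (dn k W).adicCompletion k}
    (hθ : RtF (algebraMap k ((dn k W).adicCompletion k) a)
      (algebraMap k ((dn k W).adicCompletion k) b) θ)
    (hE : e1 θ (fun j => algebraMap k ((dn k W).adicCompletion k) (d j)) ≠ 0)
    (hLC : LC (algebraMap k' ((dn k' W).adicCompletion k')) (algebraMap k k' a) (algebraMap k k' b)
      (fun i => algebraMap k k' (d i))) :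
    IsSquare (e1 θ (fun j => algebraMap k ((dn k W).adicCompletion k) (d j))) ∨
      ∃ m : (dn k W).adicCompletion k, m ≠ 0 ∧
        e1 θ (fun j => algebraMap k ((dn k W).adicCompletion k) (d j)) =
          algebraMap k ((dn k W).adicCompletion k) D * m ^ 2 := by
  have _ := char_zero (dn k W)
  have _ := char_zero (dn k' W)
  have hov : Pool.Agent.H10.Over (dn k W) (dn k' W) := over_mid W
  obtain ⟨E, hEd⟩ : ∃ E, E = e1 θ (fun j => algebraMap k ((dn k W).adicCompletion k) (d j)) :=
    ⟨_, rfl⟩
  rw [← hEd] at hE ⊢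
  have hSp' := SpF.map hov hSp
  have hθ' := RtF.map hov hθ
  simp only [Pool.Agent.H10.Over.map_algebraMap] at hSp' hθ'
  -- the value is a square in the upper completion
  have hsq := sq_of_LC (algebraMap k' ((dn k' W).adicCompletion k')) hSp' hθ' hLC
  have hmap : e1 (hov.map θ) (fun j => algebraMap k' ((dn k' W).adicCompletion k')
      (algebraMap k k' (d j))) = hov.map E := by
    rw [hEd]
    unfold e1
    simp only [map_add, map_mul, map_pow, Pool.Agent.H10.Over.map_algebraMap]
  rw [hmap] at hsq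
  obtain ⟨z, hz⟩ := hsq
  have hz0 : z ≠ 0 := by
    rintro rfl
    apply hE
    have h1 : hov.map E = 0 := by rw [hz, mul_zero]
    exact (map_eq_zero hov.map).1 h1
  -- approximation
  have h16 : (16 : (dn k W).adicCompletion k) ≠ 0 := by norm_num
  have h16' : (16 : (dn k' W).adicCompletion k') ≠ 0 := by norm_num
  obtain ⟨δ, hδ⟩ := near_coe (dn k W) E (mul_ne_zero h16 hE)
  obtain ⟨ζ, hζ⟩ := near_coe (dn k' W) z (mul_ne_zero h16' hz0)
  have v16 : Valued.v (16 : (dn k W).adicCompletion k) ≤ 1 := by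
    exact_mod_cast vn (Valued.v (R := (dn k W).adicCompletion k)) 16
  have v4 : Valued.v (4 : (dn k W).adicCompletion k) ≤ 1 := by
    exact_mod_cast vn (Valued.v (R := (dn k W).adicCompletion k)) 4
  have v16' : Valued.v (16 : (dn k' W).adicCompletion k') ≤ 1 := by
    exact_mod_cast vn (Valued.v (R := (dn k' W).adicCompletion k')) 16
  have v2' : Valued.v (2 : (dn k' W).adicCompletion k') ≤ 1 := by
    exact_mod_cast vn (Valued.v (R := (dn k' W).adicCompletion k')) 2
  have hz1 : Valued.v z ≠ 0 := (Valuation.ne_zero_iff _).2 hz0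
  obtain ⟨i', hi'⟩ : ∃ i', i' = algebraMap k' ((dn k' W).adicCompletion k') := ⟨_, rfl⟩
  rw [← hi'] at hζ
  have e1 : Valued.v (i' ζ - z) < Valued.v z := by
    refine lt_of_lt_of_le hζ ?_
    rw [map_mul]
    exact mul_le_of_le_one_left' v16'
  have e2 : Valued.v (i' ζ + z) ≤ Valued.v z := by
    have e : i' ζ + z = 2 * z + (i' ζ - z) := by ring
    rw [e]
    refine (Valuation.map_add _ _ _).trans (max_le ?_ e1.le)
    rw [map_mul]
    exact mul_le_of_le_one_left' v2'
  have e3 : Valued.v (i' ζ ^ 2 - z * z) < Valued.v (16 * (z * z)) := by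
    have e : i' ζ ^ 2 - z * z = (i' ζ - z) * (i' ζ + z) := by ring
    have e' : 16 * (z * z) = 16 * z * z := by ring
    rw [e, e', map_mul, map_mul Valued.v (16 * z) z]
    exact mul_lt_mul_of_lt_of_le_of_nonneg_of_pos hζ e2 zero_le' (zero_lt_iff.2 hz1)
  have e4 : Valued.v (i' (algebraMap k k' δ) - z * z) < Valued.v (16 * (z * z)) := by
    have h1 := map_lt hov hδ
    rw [map_sub, map_mul, Pool.Agent.H10.Over.map_algebraMap, hz, ← hi', map_ofNat] at h1
    exact h1
  have e5 : Valued.v (16 * (z * z)) ≤ Valued.v (z * z) := by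
    rw [map_mul]
    exact mul_le_of_le_one_left' v16'
  have e6 : Valued.v (i' (algebraMap k k' δ)) = Valued.v (z * z) := by
    have e : i' (algebraMap k k' δ) = z * z + (i' (algebraMap k k' δ) - z * z) := by ring
    rw [e]
    exact Valuation.map_add_eq_of_lt_left _ (e4.trans_le e5)
  have e7 : Valued.v (i' (ζ ^ 2 - algebraMap k k' δ)) < Valued.v (i' (16 * algebraMap k k' δ)) := by
    have e : i' (ζ ^ 2 - algebraMap k k' δ) =
        (i' ζ ^ 2 - z * z) - (i' (algebraMap k k' δ) - z * z) := by
      rw [map_sub, map_pow]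
      ring
    have e' : Valued.v (i' (16 * algebraMap k k' δ)) = Valued.v (16 * (z * z)) := by
      rw [map_mul, map_ofNat, map_mul, e6, ← map_mul]
    rw [e, e']
    exact (Valuation.map_sub _ _ _).trans_lt (max_lt e3 e4)
  rw [hi', val_coe, val_coe] at e7
  have e8 := (val_lt_iff (K := k') (L := N) W _ _).2 e7
  have e9 : W.valuation N (algebraMap k' N ζ ^ 2 - algebraMap k N δ) <
      W.valuation N (16 * algebraMap k N δ) := by
    have g1 : algebraMap k' N (ζ ^ 2 - algebraMap k k' δ) =
        algebraMap k' N ζ ^ 2 - algebraMap k N δ := by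
      rw [map_sub, map_pow, ← IsScalarTower.algebraMap_apply]
    have g2 : algebraMap k' N (16 * algebraMap k k' δ) = 16 * algebraMap k N δ := by
      rw [map_mul, map_ofNat, ← IsScalarTower.algebraMap_apply]
    rw [g1, g2] at e8
    exact e8
  obtain ⟨r, hr0, hr⟩ : ∃ r : (dn k W).adicCompletion k, r ≠ 0 ∧
      algebraMap k ((dn k W).adicCompletion k) δ = E * r ^ 2 := by
    refine sq_near (lt_of_lt_of_le hδ ?_)
    have e : (16 : (dn k W).adicCompletion k) * E = 4 * (4 * E) := by ring
    rw [e, map_mul]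
    exact mul_le_of_le_one_left' v4
  rcases ker_quad two W hρ hρk hg hgρ e9 with ⟨s, hs⟩ | ⟨t, ht⟩
  · rw [val_lt_iff] at hs
    obtain ⟨r1, hr1, h1⟩ := sq_near' (dn k W) hs
    left
    rw [hr, map_pow] at h1
    refine ⟨algebraMap k ((dn k W).adicCompletion k) s / (r1 * r), ?_⟩
    field_simp
    linear_combination -h1
  · rw [val_lt_iff] at ht
    obtain ⟨r1, hr1, h1⟩ := sq_near' (dn k W) ht
    right
    rw [hr, map_mul, map_pow] at h1
    have h2 : E = algebraMap k ((dn k W).adicCompletion k) D *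
        (algebraMap k ((dn k W).adicCompletion k) t / (r1 * r)) ^ 2 := by
      field_simp
      linear_combination -h1
    refine ⟨algebraMap k ((dn k W).adicCompletion k) t / (r1 * r), ?_, h2⟩
    intro h3
    rw [h3] at h2
    apply hE
    rw [h2]
    ring

end Split

section Norm

variable {K k k' N : Type} [Field K] [NumberField K] [Field k] [NumberField k] [Field k']
  [NumberField k'] [Field N] [NumberField N] [Algebra K k] [Algebra k k'] [Algebra K N] [Algebra k N]
  [Algebra k' N] [IsScalarTower K k N] [IsScalarTower k k' N]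

theorem act_iter {W : HeightOneSpectrum (𝓞 N)} {τ : N ≃ₐ[K] N}
    {φ : W.adicCompletion N →+* W.adicCompletion N}
    (hφ : ∀ x : N, φ (algebraMap N (W.adicCompletion N) x) =
      algebraMap N (W.adicCompletion N) (τ x)) (n : ℕ) (x : N) :
    φ^[n] (algebraMap N (W.adicCompletion N) x) = algebraMap N (W.adicCompletion N) ((τ ^ n) x) := by
  induction n generalizing x with
  | zero => rfl
  | succ n ih =>
    rw [Function.iterate_succ_apply, hφ, ih, pow_succ]
    rfl

theorem g_iter {F : Type*} [Field F] {x : F} (f : F → F) (hx : f x = -x) (hf : ∀ y, f (-y) = -f y)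
    (l : ℕ) : f^[l] x = (-1) ^ l * x := by
  induction l with
  | zero => simp
  | succ l ih =>
    rw [Function.iterate_succ_apply', ih]
    rcases Nat.even_or_odd l with h | h
    · rw [h.neg_one_pow, one_mul, hx, pow_succ, h.neg_one_pow]
      ring
    · rw [h.neg_one_pow, neg_one_mul, hf, hx, pow_succ, h.neg_one_pow]
      ring

theorem ld_norm [IsGalois K N] {r : ℕ} (hr : Module.finrank K N = 2 ^ r)
    (W : HeightOneSpectrum (𝓞 N)) {τ : N ≃ₐ[K] N} {ρ₁ : N} {D₁ : K} (hL : LayT K W τ ρ₁ D₁)
    {ρ : k'} {D₀ : k} (hρ : ρ ^ 2 = algebraMap k k' D₀) (hρ0 : ρ ≠ 0) {g : N ≃ₐ[k] N}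
    (hg : Stb k W g) (hgρ : g (algebraMap k' N ρ) = -algebraMap k' N ρ) {q : K} (hq : q ≠ 0)
    {X Y : (dn k W).adicCompletion k}
    (h : X ^ 2 - algebraMap k ((dn k W).adicCompletion k) D₀ * Y ^ 2 =
      algebraMap k ((dn k W).adicCompletion k) (algebraMap K k q)) :
    ∃ X' Y' : (dn K W).adicCompletion K,
      X' ^ 2 - algebraMap K ((dn K W).adicCompletion K) D₁ * Y' ^ 2 =
        algebraMap K ((dn K W).adicCompletion K) q := by
  have _ := char_zero W
  have _ : FiniteDimensional K N := Module.Finite.of_restrictScalars_finite ℚ K N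
  have hτs : Stb K W τ := (hL.gen τ).2 (Subgroup.mem_zpowers τ)
  obtain ⟨φ, hφc, hφ⟩ := exists_act W hτs
  obtain ⟨ρ', h1, h2, h3⟩ := lay_root hL hφc hφ
  have hgK : g.restrictScalars K ∈ Subgroup.zpowers τ := (hL.gen _).1 hg
  obtain ⟨n, hn⟩ : ∃ n, orderOf τ = 2 ^ n := by
    have h4 : orderOf τ ∣ 2 ^ r := by
      rw [← hr, ← IsGalois.card_aut_eq_finrank K N]
      exact orderOf_dvd_natCard τ
    obtain ⟨n, -, hn⟩ := (Nat.dvd_prime_pow Nat.prime_two).1 h4
    exact ⟨n, hn⟩
  obtain ⟨i, l, hl, hil⟩ := exists_level hn hgK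
  -- the action of the power of `τ`
  have hgl : ∀ x : N, ((g.restrictScalars K) ^ l) x = (g^[l]) x := by
    intro x
    rw [AlgEquiv.coe_pow]
    rfl
  have hk : ∀ x : k, φ^[2 ^ i] (algebraMap N (W.adicCompletion N) (algebraMap k N x)) =
      algebraMap N (W.adicCompletion N) (algebraMap k N x) := by
    intro x
    rw [act_iter hφ, hil, hgl]
    congr 1
    exact Function.iterate_fixed (g.commutes x) l
  have hc : ∀ n : ℕ, Continuous (φ^[n]) := fun n => hφc.iterate n
  have hov : Pool.Agent.H10.Over (dn k W) W := over_dn W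
  have hkc : ∀ x : (dn k W).adicCompletion k, φ^[2 ^ i] (hov.map x) = hov.map x := by
    intro x
    have h5 := act_ext (dn k W) (f := fun x => φ^[2 ^ i] (hov.map x)) (f' := fun x => hov.map x)
      ((hc _).comp hov.continuous_map) hov.continuous_map (fun x => by
        change φ^[2 ^ i] (hov.map _) = hov.map _
        rw [hov.map_algebraMap]
        exact hk x)
    exact congrFun h5 x
  obtain ⟨z, hz⟩ : ∃ z, z = algebraMap N (W.adicCompletion N) (algebraMap k' N ρ) := ⟨_, rfl⟩
  have hz0 : z ≠ 0 := by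
    rw [hz]
    exact (map_ne_zero _).2 ((map_ne_zero _).2 hρ0)
  have hzg : φ^[2 ^ i] z = -z := by
    rw [hz, act_iter hφ, hil, hgl, g_iter (F := N) g hgρ (fun y => map_neg g y), hl.neg_one_pow,
      neg_one_mul, map_neg]
  have hz2 : z ^ 2 = hov.map (algebraMap k ((dn k W).adicCompletion k) D₀) := by
    rw [hov.map_algebraMap, hz, ← map_pow, ← map_pow, hρ, ← IsScalarTower.algebraMap_apply k k' N]
  -- the homomorphism
  have hadd : ∀ (n : ℕ) (x y : W.adicCompletion N), φ^[n] (x + y) = φ^[n] x + φ^[n] y := fun n x y =>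
    iterate_map_add φ n x y
  have hmul : ∀ (n : ℕ) (x y : W.adicCompletion N), φ^[n] (x * y) = φ^[n] x * φ^[n] y := fun n x y =>
    iterate_map_mul φ n x y
  have hneg : ∀ (n : ℕ) (x : W.adicCompletion N), φ^[n] (-x) = -φ^[n] x := fun n x =>
    iterate_map_neg φ n x
  have hβ1 : φ^[2 ^ i] (hov.map X + z * hov.map Y) = hov.map X - z * hov.map Y := by
    rw [hadd, hmul, hzg, hkc, hkc]
    ring
  have hβ2 : φ^[2 ^ (i + 1)] (hov.map X + z * hov.map Y) = hov.map X + z * hov.map Y := by
    rw [pow_succ, mul_two, Function.iterate_add_apply, hβ1]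
    have e : hov.map X - z * hov.map Y = hov.map X + -(z * hov.map Y) := by ring
    rw [e, hadd, hneg, hmul, hzg, hkc, hkc]
    ring
  have hβ3 : (hov.map X + z * hov.map Y) * φ^[2 ^ i] (hov.map X + z * hov.map Y) =
      algebraMap N (W.adicCompletion N) (algebraMap K N q) := by
    rw [hβ1]
    have h6 := congrArg hov.map h
    rw [map_sub, map_mul, map_pow, map_pow, ← hz2, hov.map_algebraMap,
      ← IsScalarTower.algebraMap_apply K k N] at h6
    linear_combination h6
  have hφq : φ (algebraMap N (W.adicCompletion N) (algebraMap K N q)) =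
      algebraMap N (W.adicCompletion N) (algebraMap K N q) := by
    rw [hφ, τ.commutes]
  have hq0 : algebraMap N (W.adicCompletion N) (algebraMap K N q) ≠ 0 :=
    (map_ne_zero _).2 ((map_ne_zero _).2 hq)
  obtain ⟨γ, hγ1, hγ2⟩ := chain_norm φ hφq hq0 i _ z hβ2 hβ3 hz0 hzg
  exact to_base hL.gen hφc hφ hq hγ1 hγ2 h1 h2 h3

/-- Local descent at a prime above two with cyclic decomposition groups. -/
theorem descAt [IsGalois K N] {r : ℕ} (hr : Module.finrank K N = 2 ^ r)
    {v : HeightOneSpectrum (𝓞 K)} {a b : K} (h : Good2 K N v a b) : DescAt K N v a b := by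
  intro k k' _ _ _ _ _ _ _ _ _ _ _ _ _ two d hd hsq hloc u hu
  have _ : IsGalois k N := IsGalois.tower_top_of_isGalois K k N
  obtain ⟨D₀, ρ, hρ, hρk⟩ := exists_gen0 (k := k) (k' := k') two
  have hρ0 : ρ ≠ 0 := fun h => hρk 0 (by rw [map_zero, h])
  obtain ⟨W, rfl⟩ := exists_above (L := N) u
  subst hu
  have hab : ∀ x : K, algebraMap K k' x = algebraMap k k' (algebraMap K k x) :=
    IsScalarTower.algebraMap_apply K k k'
  by_cases hA : ∀ g : N ≃ₐ[k] N, Stb k W g → g (algebraMap k' N ρ) = algebraMap k' N ρ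
  · refine ld_split two W hρ hρk hA ?_
    intro u' hu'
    have h1 := hloc u' (by rw [← hu', dn_dn])
    rw [hab, hab] at h1
    exact h1
  · push Not at hA
    obtain ⟨g, hg, hgne⟩ := hA
    have hgρ : g (algebraMap k' N ρ) = -algebraMap k' N ρ := by
      have h1 : g (algebraMap k' N ρ) ^ 2 = algebraMap k' N ρ ^ 2 := by
        rw [← map_pow, ← map_pow, hρ, ← IsScalarTower.algebraMap_apply, g.commutes]
      rcases sq_eq_sq_iff_eq_or_eq_neg.1 h1 with h2 | h2
      · exact absurd h2 hgne
      · exact h2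
    have _ := char_zero (dn k W)
    have hov : Pool.Agent.H10.Over (dn K (dn k W)) (dn k W) := over_dn _
    have hSp := SpF.map hov h.1
    simp only [Pool.Agent.H10.Over.map_algebraMap] at hSp
    obtain ⟨θ, hθ⟩ := root_F hSp
    have hnf := Te_nf_map (algebraMap k ((dn k W).adicCompletion k)) (algebraMap K k a)
      (algebraMap K k b) d
    have hfac := nf_fac hθ.1 (fun j => algebraMap k ((dn k W).adicCompletion k) (d j))
    have hne : Te_nf (algebraMap k ((dn k W).adicCompletion k) (algebraMap K k a))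
        (algebraMap k ((dn k W).adicCompletion k) (algebraMap K k b))
        (fun j => algebraMap k ((dn k W).adicCompletion k) (d j)) ≠ 0 := by
      rw [hnf]
      exact (map_ne_zero _).2 hd
    have hE : e1 θ (fun j => algebraMap k ((dn k W).adicCompletion k) (d j)) ≠ 0 := by
      intro h1
      apply hne
      rw [hfac, h1, zero_mul]
    have hLC := hloc (dn k' W) (by
      have e1 : dn K (dn k (dn k' W)) = dn K (dn k' W) := dn_dn _
      have e0 : dn k (dn k' W) = dn k W := dn_dn W
      rw [← e1, e0])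
    rw [hab, hab] at hLC
    obtain ⟨π, hπ⟩ := (dn k W).valuation_exists_uniformizer k
    have hπ' : Valued.v (algebraMap k ((dn k W).adicCompletion k) π) = exp (-1 : ℤ) := by
      rw [val_coe, hπ]
    rcases ld_ker two W hρ hρk hg hgρ hSp hθ hE hLC with h1 | ⟨m, hm, h1⟩
    · exact LC_of_sq _ hSp hθ hπ' hd hsq h1
    · exfalso
      obtain ⟨n, hn⟩ := hsq
      have hn0 : algebraMap k ((dn k W).adicCompletion k) n ≠ 0 := by
        refine (map_ne_zero _).2 ?_
        rintro rfl
        apply hd
        rw [hn, mul_zero]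
      have hD0 : algebraMap k ((dn k W).adicCompletion k) D₀ ≠ 0 := by
        refine (map_ne_zero _).2 ?_
        rintro rfl
        rw [map_zero] at hρ
        exact hρ0 (pow_eq_zero_iff two_ne_zero |>.1 hρ)
      obtain ⟨X, Y, hXY⟩ := norm_form two_ne_zero hθ.1 hD0 hm h1
        (n := algebraMap k ((dn k W).adicCompletion k) n) (by rw [hnf, hn, map_mul, sq]) hn0
      have hXY' : X ^ 2 - algebraMap k ((dn k W).adicCompletion k) D₀ * Y ^ 2 =
          algebraMap k ((dn k W).adicCompletion k) (algebraMap K k (-(4 * a ^ 3 + 27 * b ^ 2))) := by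
        rw [hXY]
        simp only [map_neg, map_add, map_mul, map_pow, map_ofNat]
      have eW : dn K W = dn K (dn k W) := (dn_dn W).symm
      rcases h.2 with h2 | ⟨D₁, h2, h3⟩
      · have h4 := h2 W eW (g.restrictScalars K) hg
        apply hgne
        have h5 : g (algebraMap k' N ρ) = (g.restrictScalars K) (algebraMap k' N ρ) := rfl
        rw [h5, h4]
        rfl
      · obtain ⟨τ, ρ₁, hL⟩ := h2 W eW
        have hq : -(4 * a ^ 3 + 27 * b ^ 2) ≠ 0 := by
          intro h4
          apply h3 0 0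
          rw [h4, map_zero]
          ring
        have h5 := ld_norm hr W hL hρ hρ0 hg hgρ hq hXY'
        rw [eW] at h5
        obtain ⟨X', Y', h6⟩ := h5
        exact h3 X' Y' h6

end Norm

end H36CY
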