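import Pool.Agent.H36.CY.Df

/-!
ROW Ac (project MP_78d38b_CY, about 90 lines): the action of the decomposition group on the completion.

PROOF of exists_act: `φ = Pool.Agent.H10.adicLift W ((algebraMap N N_W).comp (g : N →+* N)) hc`; continuity `hc`: `Pool.Agent.H10.continuous_fromVal`, the condition
`∀ U ∈ 𝓝 0, ∃ k, ∀ x, W.valuation N x ≤ exp (-k) → f x ∈ U` as in `Over.small` of `Pool/Agent/H10/Comp.lean` (`f x` is the image of `g x` and `W.valuation N (g x) = W.valuation N x`).
`adicLift_algebraMap`, `continuous_adicLift`.
PROOF of act_ext: two continuous maps which agree on the dense subset `K` (`HeightOneSpectrum.denseRange_algebraMap`) of a space agree, the target is Hausdorff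
(`DenseRange.equalizer`). conj_place: `exists_conj` and `adicLift` in the same way, for a prime `u'` and the prime `u''` with
`u'.valuation k' (τ x) = u''.valuation k' x`; the last statement of `exists_conj` gives `dn k u'' = dn k u'`, but only
`u''.valuation k' 2 = u'.valuation k' 2` is needed (`τ 2 = 2`).
-/

set_option autoImplicit false
set_option linter.unusedSectionVars false
open scoped Classical

open WithZero NumberField IsDedekindDomain H76PP

namespace H36CY

variable {K N : Type} [Field K] [NumberField K] [Field N] [NumberField N] [Algebra K N]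

theorem exists_act (W : HeightOneSpectrum (𝓞 N)) {g : N ≃ₐ[K] N} (hg : Stb K W g) :
    ∃ φ : W.adicCompletion N →+* W.adicCompletion N, Continuous φ ∧
      ∀ x : N, φ (algebraMap N (W.adicCompletion N) x) = algebraMap N (W.adicCompletion N) (g x) := by
  have hs : ∀ U ∈ nhds (0 : W.adicCompletion N), ∃ k : ℕ, ∀ x : N,
      W.valuation N x ≤ exp (-(k : ℤ)) →
        ((algebraMap N (W.adicCompletion N)).comp (RingHomClass.toRingHom g)) x ∈ U := by
    intro U hU
    rw [Valued.mem_nhds_zero] at hU
    obtain ⟨γ, hγ⟩ := hU
    obtain ⟨k, hk⟩ := exists_exp_neg_natCast_lt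
      (x := MonoidWithZeroHom.ValueGroup₀.embedding γ.1) (by simp)
    refine ⟨k, fun x hx => hγ ?_⟩
    change Valued.v.restrict _ < γ.1
    rw [Valuation.restrict_lt_iff_lt_embedding]
    refine lt_of_le_of_lt ?_ hk
    have h1 := W.valuedAdicCompletion_eq_valuation' (K := N) (g x)
    change Valued.v (algebraMap N (W.adicCompletion N) (g x)) = _ at h1
    change Valued.v (algebraMap N (W.adicCompletion N) (g x)) ≤ _
    rw [h1, hg x]
    exact hx
  refine ⟨Pool.Agent.H10.adicLift W ((algebraMap N (W.adicCompletion N)).comp (RingHomClass.toRingHom g))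
    (Pool.Agent.H10.continuous_fromVal W _ hs), Pool.Agent.H10.continuous_adicLift W _ _, fun x => ?_⟩
  rw [Pool.Agent.H10.adicLift_algebraMap]
  rfl

theorem act_ext {F : Type} [TopologicalSpace F] [T2Space F] (v : HeightOneSpectrum (𝓞 K))
    {f f' : v.adicCompletion K → F} (hf : Continuous f) (hf' : Continuous f')
    (h : ∀ x : K, f (algebraMap K (v.adicCompletion K) x) = f' (algebraMap K (v.adicCompletion K) x)) :
    f = f' := by
  exact (HeightOneSpectrum.denseRange_algebraMap K v).equalizer hf hf' (funext h)

end H36CY
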