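import Pool.Agent.H36.CY.Sq

/-!
ROW Cl (project MP_78d38b_CY, about 150 lines): the residue classes at a prime above two. Use only the STATEMENT `sq_near` of Sq.

NOTATION: `|x| = v.valuation K x` on `K` (`= Valued.v x` in `K_v`, `valuedAdicCompletion_eq_valuation'`); `|2| < 1`, `|3| = 1` (`3 = 1 + 2`), `|c| ≤ 1`.
PROOF. Choose `k` with `|4 ^ k c| < |2 ^ 12|` (powers of `|4| < 1`; `exists_pow_lt₀`); `β = -4 ^ k c ∈ 𝓞 K`, `β ≠ 0`, and `b₀ = 54 + 729 β`. Choose `n` with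
`exp (-n) < |16 β| ` (`exists_exp_neg_natCast_lt`). Let `a + 27 ∈ v ^ n`, `b - b₀ ∈ v ^ n`, so `|a + 27| ≤ exp (-n)`, `|b - b₀| ≤ exp (-n)`
(`intValuation_le_pow_iff_mem`, `valuation_of_algebraMap`).
SpF: `|2| < 1`; `|a + 27| ≤ exp (-n) < |16 β| ≤ |β| < |2 ^ 12| ≤ |2 ^ 8|`; `b + 3 a + 27 = (b - b₀) + 3 (a + 27) + 729 β`, value `< |2 ^ 12|`.
Put `g = dsc a b - dsc (-27) b₀ = 4 (a + 27) (a ^ 2 - 27 a + 729) + 27 (b - b₀) (b + b₀)`: `|g| ≤ exp (-n) < |16 β|`. `dsc (-27) b₀ = 3 ^ 12 (4 β + 27 β ^ 2)` (ring). So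
`dsc a b - 3 ^ 12 * 4 β = g + 3 ^ 15 β ^ 2` has value `< |16 β|` (`|β ^ 2| < |16 β|` since `|β| < |2 ^ 12| ≤ |16|`) and `|3 ^ 12 * 4 β| = |4 β|`. Hence `|dsc a b| = |4 β| ≥ |16 β| > exp (-n)`, so
`dsc a b ∉ v ^ n`; and `-dsc a b` is close to `z = 3 ^ 12 * 4 * 4 ^ k c`: `|-dsc a b - z| < |16 β| = |4 z|`, so `sq_near` in `K_v` gives
`-dsc a b = z r ^ 2 = c (3 ^ 6 * 2 * 2 ^ k * r) ^ 2`.
-/

set_option autoImplicit false
set_option linter.unusedSectionVars false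
open scoped Classical

open WithZero NumberField IsDedekindDomain H76PP

namespace H36CY

variable {K : Type} [Field K] [NumberField K] {v : HeightOneSpectrum (𝓞 K)}

/-- Abstract form. -/
theorem Cl_abs (w : Valuation K (WithZero (Multiplicative ℤ))) (h2 : w 2 < 1) {β a b b₀ : K} (hβ : β ≠ 0)
    (hβ12 : w β < w ((2 : K) ^ 12)) (ha : w a ≤ 1) (hb : w b ≤ 1) (hb₀ : w b₀ ≤ 1)
    (hb0 : b₀ = 54 + 729 * β) {ε : WithZero (Multiplicative ℤ)} (hε : ε < w (16 * β))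
    (h1 : w (a + 27) ≤ ε) (h3 : w (b - b₀) ≤ ε) :
    w (a + 27) < w ((2 : K) ^ 8) ∧ w (b + 3 * a + 27) < w ((2 : K) ^ 12) ∧
      w (dsc a b - 3 ^ 12 * (4 * β)) < w (16 * β) ∧ ε < w (dsc a b) ∧ w (3 : K) = 1 := by
  have hn : ∀ n : ℕ, w (n : K) ≤ 1 := fun n => by
    induction n with
    | zero => simp
    | succ n ih =>
      rw [Nat.cast_succ]
      exact (w.map_add _ _).trans (max_le ih (by simp))
  have hof : ∀ n : ℕ, [n.AtLeastTwo] → w (OfNat.ofNat n : K) ≤ 1 := fun n _ => hn n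
  have hβw : 0 < w β := by
    rw [zero_lt_iff]
    exact (Valuation.ne_zero_iff w).2 hβ
  have h2w : w (2 : K) ≤ 1 := h2.le
  have h3w : w (3 : K) = 1 := by
    have e : (3 : K) = 1 + 2 := by norm_num
    have h := Valuation.map_add_eq_of_lt_right w (x := (2 : K)) (y := 1) (by rwa [map_one])
    rw [e, add_comm, h, map_one]
  have hp : ∀ i j : ℕ, i ≤ j → w ((2 : K) ^ j) ≤ w ((2 : K) ^ i) := by
    intro i j hij
    rw [map_pow, map_pow]
    exact pow_le_pow_right_of_le_one' h2w hij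
  have h16 : w (16 : K) ≤ 1 := hof 16
  have h16β : w (16 * β) ≤ w β := by
    rw [map_mul]
    exact mul_le_of_le_one_left' h16
  have hε12 : ε < w ((2 : K) ^ 12) := (hε.trans_le h16β).trans hβ12
  have hsum : ∀ {x y : K} {r : WithZero (Multiplicative ℤ)}, w x < r → w y < r → w (x + y) < r :=
    fun hx hy => (w.map_add _ _).trans_lt (max_lt hx hy)
  have hm : ∀ {x y : K} {r : WithZero (Multiplicative ℤ)}, w x ≤ 1 → w y < r → w (x * y) < r :=
    fun {x y r} hx hy => by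
      rw [map_mul]
      exact (mul_le_of_le_one_left' hx).trans_lt hy
  have hm1 : ∀ {x y : K}, w x ≤ 1 → w y ≤ 1 → w (x * y) ≤ 1 :=
    fun {x y} hx hy => by
      rw [map_mul]
      exact (mul_le_of_le_one_left' hx).trans hy
  have hs1 : ∀ {x y : K}, w x ≤ 1 → w y ≤ 1 → w (x + y) ≤ 1 :=
    fun hx hy => (w.map_add _ _).trans (max_le hx hy)
  have hd1 : ∀ {x y : K}, w x ≤ 1 → w y ≤ 1 → w (x - y) ≤ 1 :=
    fun hx hy => (w.map_sub _ _).trans (max_le hx hy)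
  refine ⟨h1.trans_lt (hε12.trans_le (hp 8 12 (by norm_num))), ?_, ?_⟩
  · have e : b + 3 * a + 27 = (b - b₀) + (3 * (a + 27) + 729 * β) := by rw [hb0]; ring
    rw [e]
    exact hsum (h3.trans_lt hε12) (hsum (hm (hof 3) (h1.trans_lt hε12)) (hm (hof 729) hβ12))
  have key : w (dsc a b - 3 ^ 12 * (4 * β)) < w (16 * β) := by
    have e : dsc a b - 3 ^ 12 * (4 * β) = (4 * (a ^ 2 - 27 * a + 729)) * (a + 27) +
        ((27 * (b + b₀)) * (b - b₀) + (14348907 * β) * β) := by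
      rw [dsc, hb0]; ring
    rw [e]
    have hA : w (4 * (a ^ 2 - 27 * a + 729)) ≤ 1 := by
      refine hm1 (hof 4) (hs1 (hd1 ?_ (hm1 (hof 27) ha)) (hof 729))
      rw [sq]
      exact hm1 ha ha
    have hB : w (27 * (b + b₀)) ≤ 1 := hm1 (hof 27) (hs1 hb hb₀)
    refine hsum (hm hA (h1.trans_lt hε)) (hsum (hm hB (h3.trans_lt hε)) ?_)
    rw [map_mul, map_mul w 16 β]
    refine mul_lt_mul_of_pos_right ?_ hβw
    refine hm (hof 14348907) (hβ12.trans_le ?_)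
    have e2 : (16 : K) = 2 ^ 4 := by norm_num
    rw [e2]
    exact hp 4 12 (by norm_num)
  refine ⟨key, ?_, h3w⟩
  have e4 : w (3 ^ 12 * (4 * β)) = w (4 * β) := by
    rw [map_mul, map_pow, h3w, one_pow, one_mul]
  have e5 : w (16 * β) ≤ w (4 * β) := by
    have e : (16 * β : K) = 4 * (4 * β) := by ring
    rw [e, map_mul w 4 (4 * β)]
    exact mul_le_of_le_one_left' (hof 4)
  have e6 : w (dsc a b) = w (4 * β) := by
    have e : dsc a b = 3 ^ 12 * (4 * β) + (dsc a b - 3 ^ 12 * (4 * β)) := by ring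
    rw [e, Valuation.map_add_eq_of_lt_left, e4]
    rw [e4]
    exact key.trans_le e5
  rw [e6]
  exact hε.trans_le e5

theorem class_of (h2 : v.valuation K 2 < 1) {c : 𝓞 K} (hc : c ≠ 0) :
    ∃ (n : ℕ) (b₀ : 𝓞 K), ∀ a b : 𝓞 K, a + 27 ∈ v.asIdeal ^ n → b - b₀ ∈ v.asIdeal ^ n →
      SpF (algebraMap K (v.adicCompletion K) (a : K)) (algebraMap K (v.adicCompletion K) (b : K)) ∧
      dsc a b ∉ v.asIdeal ^ n ∧ ∃ r : v.adicCompletion K, r ≠ 0 ∧
        algebraMap K (v.adicCompletion K) (-(4 * (a : K) ^ 3 + 27 * (b : K) ^ 2)) =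
          algebraMap K (v.adicCompletion K) (c : K) * r ^ 2 := by
  have hval : ∀ x : K, Valued.v (algebraMap K (v.adicCompletion K) x) = v.valuation K x := fun x =>
    v.valuedAdicCompletion_eq_valuation' x
  have hofK : ∀ n : ℕ, [n.AtLeastTwo] → (OfNat.ofNat n : v.adicCompletion K) =
      algebraMap K (v.adicCompletion K) (OfNat.ofNat n) := fun n _ => (map_ofNat _ n).symm
  have hint : ∀ x : 𝓞 K, v.valuation K (x : K) ≤ 1 := fun x => v.valuation_le_one x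
  have hmem : ∀ (x : 𝓞 K) (n : ℕ), x ∈ v.asIdeal ^ n ↔ v.valuation K (x : K) ≤ exp (-(n : ℤ)) :=
    fun x n => by
      rw [← v.intValuation_le_pow_iff_mem, ← v.valuation_of_algebraMap (K := K)]
  -- choose `k`
  obtain ⟨k, hk⟩ : ∃ k : ℕ, v.valuation K ((4 : K) ^ k * c) < v.valuation K ((2 : K) ^ 12) := by
    have h20 : v.valuation K ((2 : K) ^ 12) ≠ 0 := (Valuation.ne_zero_iff _).2 (by norm_num)
    obtain ⟨k, hk⟩ := exists_pow_lt₀ h2 (Units.mk0 _ h20)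
    refine ⟨k, ?_⟩
    rw [Units.val_mk0] at hk
    refine lt_of_le_of_lt ?_ hk
    have e : (4 : K) ^ k * c = 2 ^ k * (2 ^ k * c) := by
      rw [show (4 : K) = 2 * 2 by norm_num, mul_pow, mul_assoc]
    rw [e, map_mul, ← map_pow]
    refine mul_le_of_le_one_right' ?_
    rw [map_mul, map_pow]
    exact (mul_le_of_le_one_right' (hint c)).trans (pow_le_one₀ zero_le h2.le)
  set β : 𝓞 K := -(4 ^ k * c) with hβd
  have hβK : ((β : 𝓞 K) : K) = -((4 : K) ^ k * c) := by rw [hβd]; push_cast; rfl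
  have hβ0 : (β : K) ≠ 0 := by
    rw [hβK, neg_ne_zero]
    refine mul_ne_zero (pow_ne_zero _ (by norm_num)) ?_
    rwa [Ne, RingOfIntegers.coe_eq_zero_iff]
  obtain ⟨n, hn⟩ : ∃ n : ℕ, exp (-(n : ℤ)) < v.valuation K (16 * (β : K)) :=
    exists_exp_neg_natCast_lt ((Valuation.ne_zero_iff _).2 (mul_ne_zero (by norm_num) hβ0))
  refine ⟨n, 54 + 729 * β, fun a b ha hb => ?_⟩
  rw [hmem] at ha hb
  have ha' : v.valuation K ((a : K) + 27) ≤ exp (-(n : ℤ)) := by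
    have e : ((a + 27 : 𝓞 K) : K) = (a : K) + 27 := by push_cast; rfl
    rwa [e] at ha
  have hb₀e : ((54 + 729 * β : 𝓞 K) : K) = 54 + 729 * (β : K) := by push_cast; rfl
  have hb' : v.valuation K ((b : K) - (54 + 729 * (β : K))) ≤ exp (-(n : ℤ)) := by
    have e : ((b - (54 + 729 * β) : 𝓞 K) : K) = (b : K) - (54 + 729 * (β : K)) := by push_cast; rfl
    rwa [e] at hb
  obtain ⟨c1, c2, c3, c4, c5⟩ := Cl_abs (v.valuation K) h2 hβ0
    (by rw [hβK, Valuation.map_neg]; exact hk) (hint a) (hint b)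
    (by rw [← hb₀e]; exact hint _) rfl hn ha' hb'
  refine ⟨⟨?_, ?_, ?_⟩, ?_, ?_⟩
  · rw [hofK 2, hval]
    exact h2
  · rw [hofK 27, hofK 2, ← map_add, ← map_pow, hval, hval]
    exact c1
  · rw [hofK 27, hofK 3, hofK 2, ← map_mul, ← map_add, ← map_add, ← map_pow, hval, hval]
    exact c2
  · rw [hmem, not_le]
    have e : ((dsc a b : 𝓞 K) : K) = dsc (a : K) (b : K) := by
      rw [dsc, dsc]; push_cast; rfl
    rw [e]
    exact c4
  · obtain ⟨r, hr, hr'⟩ := sq_near (F := v.adicCompletion K)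
      (y := algebraMap K (v.adicCompletion K) (-(4 * (a : K) ^ 3 + 27 * (b : K) ^ 2)))
      (z := algebraMap K (v.adicCompletion K) (3 ^ 12 * (4 * (4 ^ k * (c : K))))) (by
        rw [hofK 4, ← map_sub, ← map_mul, hval, hval]
        have e1 : -(4 * (a : K) ^ 3 + 27 * (b : K) ^ 2) - 3 ^ 12 * (4 * (4 ^ k * (c : K))) =
            -(dsc (a : K) (b : K) - 3 ^ 12 * (4 * (β : K))) := by
          rw [dsc, hβK]; ring
        have e2 : v.valuation K (4 * (3 ^ 12 * (4 * (4 ^ k * (c : K))))) =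
            v.valuation K (16 * (β : K)) := by
          have e3 : (4 * (3 ^ 12 * (4 * (4 ^ k * (c : K)))) : K) = -(3 ^ 12 * (16 * (β : K))) := by
            rw [hβK]; ring
          rw [e3, Valuation.map_neg, map_mul, map_pow, c5, one_pow, one_mul]
        rw [e1, Valuation.map_neg, e2]
        exact c3)
    refine ⟨algebraMap K (v.adicCompletion K) (3 ^ 6 * (2 * 2 ^ k)) * r, mul_ne_zero ?_ hr, ?_⟩
    · rw [Ne, map_eq_zero]
      exact mul_ne_zero (by norm_num) (mul_ne_zero two_ne_zero (pow_ne_zero _ two_ne_zero))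
    · rw [hr', mul_pow, ← map_pow, ← mul_assoc (algebraMap K (v.adicCompletion K) (c : K)), ← map_mul]
      congr 2
      rw [show (4 : K) ^ k = 2 ^ k * 2 ^ k by
        rw [← mul_pow]; norm_num]
      ring

end H36CY
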