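import Pool.Agent.H36.CY.Nc

/-!
ROW Nn (project MP_78d38b_CY, about 160 lines): an element of `K` which is not a norm from `K_v(√D)`. Use only the STATEMENTS of Na, Nc.

PROOF of stein (pure algebra, any field with `2 ≠ 0`): let `b = P ^ 2 - a Q ^ 2`; replacing `Q` by `-Q` we may assume `Q ≠ -1` (if `Q = -1` then `-Q = 1 ≠ -1`). Then
`P ^ 2 (a + b) = (a Q - b) ^ 2 + a b (Q + 1) ^ 2` (ring, using `P ^ 2 = b + a Q ^ 2`), so `-a b = A ^ 2 - (a + b) B ^ 2` with `A = (a Q - b) / (Q + 1)`, `B = P / (Q + 1)`.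

PROOF of nonnorm_F: `F = v.adicCompletion K`, `|x| = Valued.v x`. By `defect` there are three cases; in each we give `c ∈ F`, `c ≠ 0`, which is not of the form `X ^ 2 - D Y ^ 2`.
(1) `|D| = exp n`, `n` odd. `ρ` from `exists_rho`, `c = 1 + 4 ρ` (`|c| = 1`). If `c = X ^ 2 - D Y ^ 2`: `Y ≠ 0`, since otherwise `1 ^ 2 * c - X ^ 2 = 0`, i.e. `X ^ 2 - c * 1 ^ 2 = 0`
has value `γ ^ 2 ≠ 0` by rho_even (contradiction). `D = (X / Y) ^ 2 - c (1 / Y) ^ 2` has value `γ ^ 2` by rho_even: `exp n = γ ^ 2`, contradiction (`n` odd; `γ = exp m`).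
(3) `D s ^ 2 = 1 + 4 ρ`. `c = π`, `|π| = exp (-1)`: `c = X ^ 2 - D Y ^ 2 = X ^ 2 - (1 + 4 ρ) (Y / s) ^ 2` would have value `γ ^ 2` (`X`, `Y` not both zero), contradiction.
(2) `D s ^ 2 = 1 + x`, `|x| = exp n`, `n` odd, `|4| < |x| < 1`. `ρ` from `exists_rho`, so `ρ ≠ 0` (`t = 0`: `|ρ| = 1`). `y = -4 ρ / x`, `|y| = |4| / |x| < 1`, `1 - x y = 1 + 4 ρ`.
`c = 1 + y` (`|c| = 1`). Suppose `c = X ^ 2 - D Y ^ 2 = X ^ 2 - (1 + x) (Y / s) ^ 2`. Put `a = 1 + x`. `-x = 1 ^ 2 - a 1 ^ 2`. So `b = -x (1 + y) = P ^ 2 - a Q ^ 2` with `P = X + a Y'`, `Q = X + Y'`, `Y' = Y / s`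
(`(X ^ 2 - a Y' ^ 2) (1 - a) = (X + a Y') ^ 2 - a (X + Y') ^ 2`, ring). `a + b = 1 - x y = 1 + 4 ρ`. By stein `-a b = A ^ 2 - (1 + 4 ρ) B ^ 2`, of value
`γ ^ 2` by rho_even (`-a b ≠ 0`). But `-a b = x (1 + x) (1 + y)` has value `|x| = exp n`, `n` odd. Contradiction.

PROOF of exists_nonnorm: take `c₀ ∈ F` from nonnorm_F and `c ∈ K` with `|c - c₀| < |4 c₀|` (density): `c = c₀ r ^ 2`, `r ≠ 0` (`sq_near`), so `c = X ^ 2 - D Y ^ 2` would give
`c₀ = (X / r) ^ 2 - D (Y / r) ^ 2`. Write `c = x / y` with `x, y ∈ 𝓞 K`, `y ≠ 0` (`IsFractionRing.div_surjective`); `x y = c y ^ 2 ∈ 𝓞 K` is also not a norm.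
-/

set_option autoImplicit false
set_option linter.unusedSectionVars false
open scoped Classical

open WithZero NumberField IsDedekindDomain H76PP

namespace H36CY

variable {K : Type} [Field K] [NumberField K] {v : HeightOneSpectrum (𝓞 K)}

theorem stein {F : Type*} [Field F] (h2 : (2 : F) ≠ 0) {a b P Q : F} (h : b = P ^ 2 - a * Q ^ 2) :
    ∃ A B : F, -(a * b) = A ^ 2 - (a + b) * B ^ 2 := by
  have key : ∀ Q : F, Q + 1 ≠ 0 → b = P ^ 2 - a * Q ^ 2 →
      ∃ A B : F, -(a * b) = A ^ 2 - (a + b) * B ^ 2 := by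
    intro Q hQ h
    refine ⟨(a * Q - b) / (Q + 1), P / (Q + 1), ?_⟩
    have hP : P ^ 2 = b + a * Q ^ 2 := by rw [h]; ring
    rw [div_pow, div_pow, hP]
    field_simp
    ring
  by_cases hQ : Q + 1 = 0
  · apply key 1 (by rw [one_add_one_eq_two]; exact h2)
    rw [h, eq_neg_of_add_eq_zero_left hQ]
    ring
  · exact key Q hQ h

theorem nonnorm_F (h2 : v.valuation K 2 < 1) {D : v.adicCompletion K} (hD : ¬ IsSquare D) :
    ∃ c : v.adicCompletion K, c ≠ 0 ∧ ∀ X Y : v.adicCompletion K, X ^ 2 - D * Y ^ 2 ≠ c := by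
  have hval : ∀ k : K, Valued.v (algebraMap K (v.adicCompletion K) k) = v.valuation K k :=
    fun k => HeightOneSpectrum.valuedAdicCompletion_eq_valuation' v k
  have h2F : Valued.v (2 : v.adicCompletion K) < 1 := by
    have h := hval 2
    have h' : algebraMap K (v.adicCompletion K) 2 = 2 := by rw [map_ofNat]
    rw [h'] at h
    rw [h]; exact h2
  have h4F : Valued.v (4 : v.adicCompletion K) < 1 := by
    have : (4 : v.adicCompletion K) = 2 * 2 := by norm_num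
    rw [this, map_mul]
    exact mul_lt_one_of_lt_of_le h2F h2F.le
  have hr4 : ∀ r : v.adicCompletion K, Valued.v r ≤ 1 → Valued.v (1 + 4 * r) = 1 := by
    intro r hr
    apply Valuation.map_one_add_of_lt
    rw [map_mul]
    exact mul_lt_one_of_lt_of_le h4F hr
  have hodd : ∀ n : ℤ, Odd n → ∀ γ : WithZero (Multiplicative ℤ), γ ≠ 0 → exp n ≠ γ ^ 2 := by
    intro n hn γ hγ h
    rw [← exp_log hγ, ← exp_nsmul] at h
    have h1 := congrArg log h
    rw [log_exp, log_exp] at h1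
    obtain ⟨k, hk⟩ := hn
    simp only [nsmul_eq_mul, Nat.cast_ofNat] at h1
    omega
  obtain ⟨ρ, hρ1, hρ⟩ := exists_rho h2
  rcases defect h2 hD with ⟨n, hn, hDn⟩ | ⟨s, x, hs, hDs, ⟨n, hn, hxn⟩, hx4, hx1⟩ |
    ⟨s, r, hs, hDs, hr1, hr⟩
  · have hc : (1 + 4 * ρ : v.adicCompletion K) ≠ 0 := by
      intro h
      have := hr4 ρ hρ1
      rw [h, map_zero] at this
      exact zero_ne_one this
    refine ⟨1 + 4 * ρ, hc, ?_⟩
    intro X Y hXY
    by_cases hY : Y = 0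
    · obtain ⟨γ, hγ, hγ2⟩ := rho_even h2 hρ1 hρ (A := X) (B := 1) (Or.inr one_ne_zero)
      have h0 : X ^ 2 - (1 + 4 * ρ) * 1 ^ 2 = 0 := by
        rw [← hXY, hY]
        ring
      rw [h0, map_zero] at hγ2
      exact pow_ne_zero 2 hγ hγ2.symm
    · obtain ⟨γ, hγ, hγ2⟩ := rho_even h2 hρ1 hρ (A := X / Y) (B := 1 / Y)
        (Or.inr (one_div_ne_zero hY))
      have h0 : (X / Y) ^ 2 - (1 + 4 * ρ) * (1 / Y) ^ 2 = D := by
        rw [← hXY]
        field_simp
        ring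
      rw [h0, hDn] at hγ2
      exact hodd n hn γ hγ hγ2
  · have hx0 : x ≠ 0 := by
      intro h
      rw [h, map_zero] at hxn
      exact exp_ne_zero hxn.symm
    have hvx : Valued.v x ≠ 0 := (Valuation.ne_zero_iff _).2 hx0
    have hρv : Valued.v ρ = 1 := by
      have h := hρ 0 (by rw [map_zero]; exact zero_le)
      have h0 : (0 : v.adicCompletion K) ^ 2 + 0 - ρ = -ρ := by ring
      rw [h0, Valuation.map_neg] at h
      exact h
    obtain ⟨y, hy⟩ : ∃ y : v.adicCompletion K, y = -(4 * ρ) / x := ⟨_, rfl⟩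
    have hxy : x * y = -(4 * ρ) := by
      rw [hy]
      field_simp
    have hyv : Valued.v y < 1 := by
      rw [hy, map_div₀, Valuation.map_neg, map_mul, hρv, mul_one,
        div_lt_iff₀ (zero_lt_iff.2 hvx), one_mul]
      exact hx4
    have hy1 : Valued.v (1 + y) = 1 := Valuation.map_one_add_of_lt _ hyv
    have hx1' : Valued.v (1 + x) = 1 := Valuation.map_one_add_of_lt _ hx1
    have hy0 : 1 + y ≠ 0 := by
      intro h
      rw [h, map_zero] at hy1
      exact zero_ne_one hy1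
    refine ⟨1 + y, hy0, ?_⟩
    intro X Y hXY
    have hDY : D * Y ^ 2 = (1 + x) * (Y / s) ^ 2 := by
      rw [← hDs]
      field_simp
    have hb : -(x * (1 + y)) =
        (X + (1 + x) * (Y / s)) ^ 2 - (1 + x) * (X + Y / s) ^ 2 := by
      rw [← hXY, hDY]
      ring
    have h20 : (2 : v.adicCompletion K) ≠ 0 := two_ne_zero
    obtain ⟨A, B, hAB⟩ := stein h20 hb
    have hab : (1 + x) + -(x * (1 + y)) = 1 + 4 * ρ := by
      have : (1 + x) + -(x * (1 + y)) = 1 - x * y := by ring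
      rw [this, hxy]
      ring
    rw [hab] at hAB
    have hv : Valued.v (-((1 + x) * -(x * (1 + y)))) = exp n := by
      have : -((1 + x) * -(x * (1 + y))) = x * ((1 + x) * (1 + y)) := by ring
      rw [this, map_mul, map_mul, hx1', hy1, one_mul, mul_one, hxn]
    have hne : A ≠ 0 ∨ B ≠ 0 := by
      by_contra hcon
      push Not at hcon
      rw [hcon.1, hcon.2] at hAB
      have h0 : (0 : v.adicCompletion K) ^ 2 - (1 + 4 * ρ) * 0 ^ 2 = 0 := by ring
      rw [h0] at hAB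
      rw [hAB, map_zero] at hv
      exact exp_ne_zero hv.symm
    obtain ⟨γ, hγ, hγ2⟩ := rho_even h2 hρ1 hρ hne
    rw [← hAB, hv] at hγ2
    exact hodd n hn γ hγ hγ2
  · obtain ⟨π, hπ⟩ := v.valuation_exists_uniformizer K
    obtain ⟨p, hp⟩ : ∃ p : v.adicCompletion K, p = algebraMap K (v.adicCompletion K) π :=
      ⟨_, rfl⟩
    have hpv : Valued.v p = exp (-1 : ℤ) := by
      rw [hp, hval π, hπ]
    have hp0 : p ≠ 0 := by
      intro h
      rw [h, map_zero] at hpv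
      exact exp_ne_zero hpv.symm
    refine ⟨p, hp0, ?_⟩
    intro X Y hXY
    have hDY : D * Y ^ 2 = (1 + 4 * r) * (Y / s) ^ 2 := by
      rw [← hDs]
      field_simp
    rw [hDY] at hXY
    have hne : X ≠ 0 ∨ Y / s ≠ 0 := by
      by_contra hcon
      push Not at hcon
      rw [hcon.1, hcon.2] at hXY
      apply hp0
      rw [← hXY]
      ring
    obtain ⟨γ, hγ, hγ2⟩ := rho_even h2 hr1 hr hne
    rw [hXY, hpv] at hγ2
    exact hodd (-1) (by decide) γ hγ hγ2

theorem exists_nonnorm (h2 : v.valuation K 2 < 1) {D : v.adicCompletion K} (hD : ¬ IsSquare D) :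
    ∃ c : 𝓞 K, c ≠ 0 ∧ ∀ X Y : v.adicCompletion K, X ^ 2 - D * Y ^ 2 ≠
      algebraMap K (v.adicCompletion K) (c : K) := by
  obtain ⟨c₀, hc₀, hno⟩ := nonnorm_F h2 hD
  have h40 : (4 : v.adicCompletion K) ≠ 0 := by
    have : (4 : v.adicCompletion K) = 2 * 2 := by norm_num
    rw [this]
    exact mul_ne_zero two_ne_zero two_ne_zero
  obtain ⟨k, hk⟩ : ∃ k : K, Valued.v (algebraMap K (v.adicCompletion K) k - c₀) <
      Valued.v (4 * c₀) := by
    have hd := HeightOneSpectrum.denseRange_algebraMap (K := K) v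
    have hopen : IsOpen {y : v.adicCompletion K | Valued.v (y - c₀) < Valued.v (4 * c₀)} := by
      have h1 : IsOpen {y : v.adicCompletion K | Valued.v y < Valued.v (4 * c₀)} := by
        have := Valued.isOpen_ball (v.adicCompletion K) (Valued.v.restrict (4 * c₀))
        simp_rw [Valuation.restrict_lt_iff] at this
        exact this
      exact h1.preimage (continuous_sub_right c₀)
    have hne : (4 * c₀ : v.adicCompletion K) ≠ 0 := mul_ne_zero h40 hc₀
    obtain ⟨k, hk⟩ := hd.exists_mem_open hopen ⟨c₀, by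
      simp only [Set.mem_setOf_eq, sub_self, map_zero]
      exact zero_lt_iff.2 ((Valuation.ne_zero_iff _).2 hne)⟩
    exact ⟨k, hk⟩
  obtain ⟨r, hr0, hr⟩ := sq_near (F := v.adicCompletion K) hk
  have hk0 : k ≠ 0 := by
    intro h
    rw [h, map_zero] at hr
    exact mul_ne_zero hc₀ (pow_ne_zero 2 hr0) hr.symm
  obtain ⟨x, y, hy, hxy⟩ := IsFractionRing.div_surjective (A := 𝓞 K) k
  have hy0 : (y : 𝓞 K) ≠ 0 := nonZeroDivisors.ne_zero hy
  have hyK : (algebraMap (𝓞 K) K y) ≠ 0 := by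
    intro h
    exact hy0 ((FaithfulSMul.algebraMap_eq_zero_iff (𝓞 K) K).1 h)
  have hx0 : x ≠ 0 := by
    intro h
    rw [h, map_zero, zero_div] at hxy
    exact hk0 hxy.symm
  refine ⟨x * y, mul_ne_zero hx0 hy0, ?_⟩
  intro X Y hXY
  obtain ⟨z, hz⟩ : ∃ z : v.adicCompletion K,
      z = algebraMap K (v.adicCompletion K) (algebraMap (𝓞 K) K y) := ⟨_, rfl⟩
  have hz0 : z ≠ 0 := by
    rw [hz]
    exact (map_ne_zero _).2 hyK
  have h1 : algebraMap K (v.adicCompletion K) ((x * y : 𝓞 K) : K) = c₀ * r ^ 2 * z ^ 2 := by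
    have h2 : ((x * y : 𝓞 K) : K) = k * (algebraMap (𝓞 K) K y) ^ 2 := by
      rw [← hxy]
      have h3 : ((x * y : 𝓞 K) : K) = algebraMap (𝓞 K) K x * algebraMap (𝓞 K) K y := by
        rw [← map_mul]
      rw [h3]
      field_simp
    rw [h2, map_mul, map_pow, hr, ← hz]
  rw [h1] at hXY
  apply hno (X / (r * z)) (Y / (r * z))
  have h4 : (X / (r * z)) ^ 2 - D * (Y / (r * z)) ^ 2 = (X ^ 2 - D * Y ^ 2) / (r * z) ^ 2 := by
    ring
  rw [h4, hXY]
  field_simp

end H36CY
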