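import Pool.Agent.H36.CY.Ld
import Pool.Agent.H36.CY.Nn
import Pool.Agent.H36.CY.Cl

/-!
The interface of block (I) of the project MP_78d38b_CY (no row; assembly): first layer, residue classes at a prime
above two, local descent.
-/

set_option autoImplicit false
set_option linter.unusedSectionVars false
open scoped Classical

open WithZero NumberField IsDedekindDomain H76PP H73P2

namespace H36CY

variable {K N : Type} [Field K] [NumberField K] [Field N] [NumberField N] [Algebra K N]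

/-- If the decomposition groups above `v` are cyclic then they are trivial or the first layer is given
by an element of `K`. -/
theorem lay_all [IsGalois K N] {r : ℕ} (hr : Module.finrank K N = 2 ^ r)
    {v : HeightOneSpectrum (𝓞 K)}
    (hcyc : ∀ W : HeightOneSpectrum (𝓞 N), dn K W = v → ∃ τ : N ≃ₐ[K] N, ∀ g : N ≃ₐ[K] N,
      Stb K W g ↔ g ∈ Subgroup.zpowers τ) :
    (∀ W : HeightOneSpectrum (𝓞 N), dn K W = v → ∀ g : N ≃ₐ[K] N, Stb K W g → g = 1) ∨
      ∃ D : K, ∀ W : HeightOneSpectrum (𝓞 N), dn K W = v → Lay K W D := by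
  obtain ⟨W, hW⟩ := exists_above (L := N) v
  obtain ⟨τ, hτ⟩ := hcyc W hW
  rcases lay_exists hr hτ with h | ⟨D, hD⟩
  · left
    intro W' hW'
    exact triv_conj (W := W) (W' := W') (by rw [hW, hW']) h
  · right
    exact ⟨D, fun W' hW' => lay_conj (W := W) (W' := W') (by rw [hW, hW']) hD⟩

/-- `D` is not a square in the completion of `K`. -/
theorem lay_nonsq {W : HeightOneSpectrum (𝓞 N)} {D : K} (h : Lay K W D) :
    ¬ IsSquare (algebraMap K ((dn K W).adicCompletion K) D) := by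
  rintro ⟨r, hr⟩
  obtain ⟨τ, ρ, hL⟩ := h
  have hτs : Stb K W τ := (hL.gen τ).2 (Subgroup.mem_zpowers τ)
  obtain ⟨φ, hφc, hφ⟩ := exists_act W hτs
  obtain ⟨ρ', h1, h2, h3⟩ := lay_root hL hφc hφ
  have _ := char_zero W
  have hov : Pool.Agent.H10.Over (dn K W) W := over_dn W
  have h4 : ∀ x : (dn K W).adicCompletion K, φ (hov.map x) = hov.map x := by
    intro x
    have h5 := act_ext (dn K W) (f := fun x => φ (hov.map x)) (f' := fun x => hov.map x)
      (hφc.comp hov.continuous_map) hov.continuous_map (fun x => by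
        change φ (hov.map _) = hov.map _
        rw [hov.map_algebraMap, hφ, τ.commutes])
    exact congrFun h5 x
  have h5 : ρ' ^ 2 = hov.map r ^ 2 := by
    rw [h1, ← hov.map_algebraMap, hr, map_mul, sq]
  have h6 : φ ρ' = ρ' := by
    rcases sq_eq_sq_iff_eq_or_eq_neg.1 h5 with h | h
    · rw [h, h4]
    · rw [h, map_neg, h4]
  rw [h6] at h3
  have h7 : 2 * ρ' = 0 := by linear_combination h3
  rcases mul_eq_zero.1 h7 with h | h
  · exact two_ne_zero h
  · exact h2 h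

/-- The residue class at a prime above two with a given first layer. -/
theorem class_lay {v : HeightOneSpectrum (𝓞 K)} (h2 : v.valuation K 2 < 1) {D : K}
    (hD : ¬ IsSquare (algebraMap K (v.adicCompletion K) D)) :
    ∃ (n : ℕ) (b₀ : 𝓞 K), ∀ a b : 𝓞 K, a + 27 ∈ v.asIdeal ^ n → b - b₀ ∈ v.asIdeal ^ n →
      SpF (algebraMap K (v.adicCompletion K) (a : K)) (algebraMap K (v.adicCompletion K) (b : K)) ∧
      dsc a b ∉ v.asIdeal ^ n ∧ ∀ X Y : v.adicCompletion K,
        X ^ 2 - algebraMap K (v.adicCompletion K) D * Y ^ 2 ≠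
          algebraMap K (v.adicCompletion K) (-(4 * (a : K) ^ 3 + 27 * (b : K) ^ 2)) := by
  obtain ⟨c, hc, hcn⟩ := exists_nonnorm h2 hD
  obtain ⟨n, b₀, h⟩ := class_of h2 hc
  refine ⟨n, b₀, fun a b ha hb => ?_⟩
  obtain ⟨h3, h4, r, hr, h5⟩ := h a b ha hb
  refine ⟨h3, h4, fun X Y hXY => ?_⟩
  rw [h5] at hXY
  apply hcn (X / r) (Y / r)
  field_simp
  linear_combination hXY

/-- The residue class at a prime above two with trivial decomposition groups. -/
theorem class_triv {v : HeightOneSpectrum (𝓞 K)} (h2 : v.valuation K 2 < 1) :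
    ∃ (n : ℕ) (b₀ : 𝓞 K), ∀ a b : 𝓞 K, a + 27 ∈ v.asIdeal ^ n → b - b₀ ∈ v.asIdeal ^ n →
      SpF (algebraMap K (v.adicCompletion K) (a : K)) (algebraMap K (v.adicCompletion K) (b : K)) ∧
      dsc a b ∉ v.asIdeal ^ n := by
  obtain ⟨n, b₀, h⟩ := class_of h2 (c := 1) one_ne_zero
  exact ⟨n, b₀, fun a b ha hb => ⟨(h a b ha hb).1, (h a b ha hb).2.1⟩⟩

/-- The residue class at a prime above two with cyclic decomposition groups. -/
theorem class_good [IsGalois K N] {r : ℕ} (hr : Module.finrank K N = 2 ^ r)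
    {v : HeightOneSpectrum (𝓞 K)} (h2 : v.valuation K 2 < 1)
    (hcyc : ∀ W : HeightOneSpectrum (𝓞 N), dn K W = v → ∃ τ : N ≃ₐ[K] N, ∀ g : N ≃ₐ[K] N,
      Stb K W g ↔ g ∈ Subgroup.zpowers τ) :
    ∃ (n : ℕ) (b₀ : 𝓞 K), ∀ a b : 𝓞 K, a + 27 ∈ v.asIdeal ^ n → b - b₀ ∈ v.asIdeal ^ n →
      Good2 K N v (a : K) (b : K) ∧ dsc a b ∉ v.asIdeal ^ n := by
  rcases lay_all hr hcyc with h | ⟨D, hD⟩
  · obtain ⟨n, b₀, h3⟩ := class_triv h2
    exact ⟨n, b₀, fun a b ha hb => ⟨⟨(h3 a b ha hb).1, Or.inl h⟩, (h3 a b ha hb).2⟩⟩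
  · obtain ⟨W, rfl⟩ := exists_above (L := N) v
    obtain ⟨n, b₀, h3⟩ := class_lay h2 (lay_nonsq (hD W rfl))
    exact ⟨n, b₀, fun a b ha hb => ⟨⟨(h3 a b ha hb).1, Or.inr ⟨D, hD, (h3 a b ha hb).2.2⟩⟩,
      (h3 a b ha hb).2.1⟩⟩

end H36CY
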