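import Pool.Agent.H73.P2.Df
import Pool.Agent.H76.PP.Te
import Pool.Agent.H36.MT.Df
import Pool.Agent.H10.GrHen

/-!
Definitions for the project MP_78d38b_CY (no row): a Galois 2-extension `N / K` with cyclic decomposition
groups at the primes above two, given in advance.
-/

set_option autoImplicit false
set_option linter.unusedSectionVars false
open scoped Classical

open WithZero NumberField IsDedekindDomain H38RT
open H38T1 (SC sc scu rep eo la si Pri OddP tp unif)
open H76PP

namespace H36CY

section Local

variable {F : Type*} [Field F]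

/-- The pair `(a, b)` is close to `(-27, 54)`, where the cubic is `(x - 3)^2 (x + 6)`, and two has
valuation less than one. -/
def SpF [Valued F (WithZero (Multiplicative ℤ))] (a b : F) : Prop :=
  Valued.v (2 : F) < 1 ∧ Valued.v (a + 27) < Valued.v ((2 : F) ^ 8) ∧
    Valued.v (b + 3 * a + 27) < Valued.v ((2 : F) ^ 12)

/-- `θ` is the root of `x^3 + a x + b` close to `-6`. -/
def RtF [Valued F (WithZero (Multiplicative ℤ))] (a b θ : F) : Prop :=
  θ ^ 3 + a * θ + b = 0 ∧ Valued.v (θ + 6) < Valued.v ((2 : F) ^ 8)

/-- The value of `z 0 + z 1 T + z 2 T^2` at `θ`. -/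
def e1 (θ : F) (z : Fin 3 → F) : F := z 0 + z 1 * θ + z 2 * θ ^ 2

/-- The constant coefficient of the residue of `z 0 + z 1 T + z 2 T^2` modulo
`T^2 + θ T + θ^2 + a`. -/
def pp (θ a : F) (z : Fin 3 → F) : F := z 0 - z 2 * (θ ^ 2 + a)

/-- The other coefficient. -/
def qq (θ : F) (z : Fin 3 → F) : F := z 1 - z 2 * θ

/-- The norm of `p + q T` modulo `T^2 + θ T + θ^2 + a`. -/
def N2 (θ a p q : F) : F := p ^ 2 - θ * p * q + (θ ^ 2 + a) * q ^ 2

end Local

section Global

variable (K : Type) {N : Type} [Field K] [NumberField K] [Field N] [NumberField N] [Algebra K N]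

/-- The automorphism `g` stabilises the prime `W`. -/
def Stb (W : HeightOneSpectrum (𝓞 N)) (g : N ≃ₐ[K] N) : Prop :=
  ∀ y : N, W.valuation N (g y) = W.valuation N y

/-- The decomposition group of `W` is cyclic and not trivial, `τ` is a generator, `ρ` generates its
first layer and `D` is an element of `K` close to `ρ^2`. -/
structure LayT (W : HeightOneSpectrum (𝓞 N)) (τ : N ≃ₐ[K] N) (ρ : N) (D : K) : Prop where
  gen : ∀ g : N ≃ₐ[K] N, Stb K W g ↔ g ∈ Subgroup.zpowers τ
  ne : ρ ≠ 0
  neg : τ ρ = -ρ
  near : W.valuation N (ρ ^ 2 - algebraMap K N D) < W.valuation N (4 * algebraMap K N D)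

/-- The first layer of the decomposition group is given by the square root of `D`. -/
def Lay (W : HeightOneSpectrum (𝓞 N)) (D : K) : Prop := ∃ τ ρ, LayT K W τ ρ D

variable (N) in
/-- The local hypothesis at a prime `v` above two: `(a, b)` is close to `(-27, 54)` and either the
decomposition groups are trivial or minus the number `4 a^3 + 27 b^2` is not a norm from the
first layer. -/
def Good2 (v : HeightOneSpectrum (𝓞 K)) (a b : K) : Prop :=
  SpF (algebraMap K (v.adicCompletion K) a) (algebraMap K (v.adicCompletion K) b) ∧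
    ((∀ W : HeightOneSpectrum (𝓞 N), dn K W = v → ∀ g : N ≃ₐ[K] N, Stb K W g → g = 1) ∨
      ∃ D : K, (∀ W : HeightOneSpectrum (𝓞 N), dn K W = v → Lay K W D) ∧
        ∀ X Y : v.adicCompletion K, X ^ 2 - algebraMap K (v.adicCompletion K) D * Y ^ 2 ≠
          algebraMap K (v.adicCompletion K) (-(4 * a ^ 3 + 27 * b ^ 2)))

end Global

section Rel

variable (K k L : Type) [Field K] [NumberField K] [Field k] [NumberField k] [Field L] [NumberField L]
  [Algebra K k] [Algebra k L]

/-- The relaxed Selmer condition: square norm, even orders at the odd primes away from `S`, the local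
conditions at the places of `S` (for all embeddings), at all places above two and at the real
places. -/
structure RelC (S : Finset (HeightOneSpectrum (𝓞 K))) (a b : K) (θ : L) (d : Fin 3 → k) : Prop where
  ne : ev θ d ≠ 0
  sq : IsSquare (Algebra.norm k (ev θ d))
  even : ∀ w : HeightOneSpectrum (𝓞 L), dn K (dn k w) ∉ S → w.valuation L 2 = 1 →
    eo w (sc (ev θ d)) = 0
  loc : ∀ v ∈ S, H73P2.LCv K v a b d
  two : ∀ u : HeightOneSpectrum (𝓞 k), u.valuation k 2 < 1 →
    LC (algebraMap k (u.adicCompletion k)) (algebraMap K k a) (algebraMap K k b) d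
  real : ∀ s : k →+* ℝ, LC s (algebraMap K k a) (algebraMap K k b) d

/-- The relaxed Selmer group is trivial. -/
def RelCT (S : Finset (HeightOneSpectrum (𝓞 K))) (a b : K) (θ : L) : Prop :=
  ∀ d : Fin 3 → k, RelC K k L S a b θ d → IsSquare (ev θ d)

end Rel

/-- Descent of the local conditions at the places above `v` in the quadratic extensions between `K`
and `N`. -/
def DescAt (K N : Type) [Field K] [NumberField K] [Field N] [NumberField N] [Algebra K N]
    (v : HeightOneSpectrum (𝓞 K)) (a b : K) : Prop :=
  ∀ (k k' : Type) [Field k] [NumberField k] [Field k'] [NumberField k'] [Algebra K k] [Algebra K k']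
    [Algebra k k'] [IsScalarTower K k k'] [Algebra k N] [Algebra k' N] [IsScalarTower K k N]
    [IsScalarTower K k' N] [IsScalarTower k k' N], Module.finrank k k' = 2 → ∀ d : Fin 3 → k,
    Te_nf (algebraMap K k a) (algebraMap K k b) d ≠ 0 →
    IsSquare (Te_nf (algebraMap K k a) (algebraMap K k b) d) →
    (∀ u' : HeightOneSpectrum (𝓞 k'), dn K u' = v →
      LC (algebraMap k' (u'.adicCompletion k')) (algebraMap K k' a) (algebraMap K k' b)
        (fun i => algebraMap k k' (d i))) →
    ∀ u : HeightOneSpectrum (𝓞 k), dn K u = v →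
      LC (algebraMap k (u.adicCompletion k)) (algebraMap K k a) (algebraMap K k b) d

/-- Descent of the local conditions above two in the quadratic extensions between `K` and `N`. -/
def Desc2 (K N : Type) [Field K] [NumberField K] [Field N] [NumberField N] [Algebra K N]
    (a b : K) : Prop :=
  ∀ (k k' : Type) [Field k] [NumberField k] [Field k'] [NumberField k'] [Algebra K k] [Algebra K k']
    [Algebra k k'] [IsScalarTower K k k'] [Algebra k N] [Algebra k' N] [IsScalarTower K k N]
    [IsScalarTower K k' N] [IsScalarTower k k' N], Module.finrank k k' = 2 → ∀ d : Fin 3 → k,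
    Te_nf (algebraMap K k a) (algebraMap K k b) d ≠ 0 →
    IsSquare (Te_nf (algebraMap K k a) (algebraMap K k b) d) →
    (∀ u' : HeightOneSpectrum (𝓞 k'), u'.valuation k' 2 < 1 →
      LC (algebraMap k' (u'.adicCompletion k')) (algebraMap K k' a) (algebraMap K k' b)
        (fun i => algebraMap k k' (d i))) →
    ∀ u : HeightOneSpectrum (𝓞 k), u.valuation k 2 < 1 →
      LC (algebraMap k (u.adicCompletion k)) (algebraMap K k a) (algebraMap K k b) d

end H36CY
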