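import Pool.Agent.H36.CY.Df

/-!
Algebra for the project MP_78d38b_CY (no row, proved): the factor `T - θ` and the quadratic factor
`T^2 + θ T + θ^2 + a` of `T^3 + a T + b`.
-/

set_option autoImplicit false
set_option linter.unusedSectionVars false
open scoped Classical

open WithZero NumberField IsDedekindDomain H76PP

namespace H36CY

variable {F : Type*} [Field F] {a b θ : F}

theorem e1_m3 (hθ : θ ^ 3 + a * θ + b = 0) (u v : Fin 3 → F) :
    e1 θ (m3 a b u v) = e1 θ u * e1 θ v := by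
  simp only [e1, m3, Matrix.cons_val_zero, Matrix.cons_val_one, Matrix.cons_val_two,
    Matrix.head_cons, Matrix.tail_cons, Matrix.cons_val]
  linear_combination (-(u 1 * v 2 + u 2 * v 1 + u 2 * v 2 * θ)) * hθ

theorem pp_m3 (hθ : θ ^ 3 + a * θ + b = 0) (u v : Fin 3 → F) :
    pp θ a (m3 a b u v) = pp θ a u * pp θ a v - (θ ^ 2 + a) * (qq θ u * qq θ v) := by
  simp only [pp, qq, m3, Matrix.cons_val_zero, Matrix.cons_val_one, Matrix.cons_val_two,
    Matrix.head_cons, Matrix.tail_cons, Matrix.cons_val]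
  linear_combination (-(u 1 * v 2 + u 2 * v 1)) * hθ

theorem qq_m3 (hθ : θ ^ 3 + a * θ + b = 0) (u v : Fin 3 → F) :
    qq θ (m3 a b u v) = pp θ a u * qq θ v + qq θ u * pp θ a v - θ * (qq θ u * qq θ v) := by
  simp only [pp, qq, m3, Matrix.cons_val_zero, Matrix.cons_val_one, Matrix.cons_val_two,
    Matrix.head_cons, Matrix.tail_cons, Matrix.cons_val]
  linear_combination (-(u 2 * v 2)) * hθ

theorem nf_fac (hθ : θ ^ 3 + a * θ + b = 0) (u : Fin 3 → F) :
    Te_nf a b u = e1 θ u * N2 θ a (pp θ a u) (qq θ u) := by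
  simp only [e1, pp, qq, N2, Te_nf]
  have hb : b = -(θ ^ 3 + a * θ) := by linear_combination hθ
  subst hb
  ring

/-- Elements with the same residues are equal. -/
theorem crt (hg : 3 * θ ^ 2 + a ≠ 0) {u v : Fin 3 → F} (h1 : e1 θ u = e1 θ v)
    (h2 : pp θ a u = pp θ a v) (h3 : qq θ u = qq θ v) : u = v := by
  unfold e1 at h1
  unfold pp at h2
  unfold qq at h3
  have h4 : (3 * θ ^ 2 + a) * (u 2 - v 2) = 0 := by linear_combination h1 - h2 - θ * h3
  have h5 : u 2 = v 2 := by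
    rcases mul_eq_zero.1 h4 with h | h
    · exact absurd h hg
    · exact sub_eq_zero.1 h
  have h6 : u 1 = v 1 := by
    rw [h5] at h3
    linear_combination h3
  have h7 : u 0 = v 0 := by
    rw [h5] at h2
    linear_combination h2
  funext j
  fin_cases j
  · exact h7
  · exact h6
  · exact h5

/-- Elements with given residues exist. -/
theorem crt_ex (hg : 3 * θ ^ 2 + a ≠ 0) (c p q : F) :
    ∃ z : Fin 3 → F, e1 θ z = c ∧ pp θ a z = p ∧ qq θ z = q := by
  obtain ⟨l, hl⟩ : ∃ l, l = (c - p - q * θ) / (3 * θ ^ 2 + a) := ⟨_, rfl⟩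
  have hl' : l * (3 * θ ^ 2 + a) = c - p - q * θ := by
    rw [hl, div_mul_cancel₀ _ hg]
  refine ⟨![p + l * (θ ^ 2 + a), q + l * θ, l], ?_, ?_, ?_⟩
  · simp only [e1, Matrix.cons_val_zero, Matrix.cons_val_one, Matrix.cons_val_two,
      Matrix.head_cons, Matrix.tail_cons, Matrix.cons_val]
    linear_combination hl'
  · simp only [pp, Matrix.cons_val_zero, Matrix.cons_val_one, Matrix.cons_val_two,
      Matrix.head_cons, Matrix.tail_cons, Matrix.cons_val]
    ring
  · simp only [qq, Matrix.cons_val_zero, Matrix.cons_val_one, Matrix.cons_val_two,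
      Matrix.head_cons, Matrix.tail_cons, Matrix.cons_val]
    ring

/-- An element of square norm is an element of `F` times a square. -/
theorem sq_two_dim (h2 : (2 : F) ≠ 0) {p q n : F} (hn : n ≠ 0) (h : N2 θ a p q = n ^ 2) :
    ∃ u r s : F, u ≠ 0 ∧ p = u * (r ^ 2 - (θ ^ 2 + a) * s ^ 2) ∧ q = u * (2 * r * s - θ * s ^ 2) := by
  unfold N2 at h
  have key : ∀ n : F, p ^ 2 - θ * p * q + (θ ^ 2 + a) * q ^ 2 = n ^ 2 → 2 * p - θ * q + 2 * n ≠ 0 →
      ∃ u r s : F, u ≠ 0 ∧ p = u * (r ^ 2 - (θ ^ 2 + a) * s ^ 2) ∧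
        q = u * (2 * r * s - θ * s ^ 2) := by
    intro n h h1
    refine ⟨1 / (2 * p - θ * q + 2 * n), p + n, q, one_div_ne_zero h1, ?_, ?_⟩
    · rw [one_div, eq_inv_mul_iff_mul_eq₀ h1]
      linear_combination h
    · rw [one_div, eq_inv_mul_iff_mul_eq₀ h1]
      ring
  by_cases h1 : 2 * p - θ * q + 2 * n = 0
  · refine key (-n) (by rw [h]; ring) ?_
    intro h3
    have h4 : 2 * (2 * n) = 0 := by linear_combination h1 - h3
    exact mul_ne_zero h2 (mul_ne_zero h2 hn) h4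
  · exact key n h h1

/-- If the value at `θ` is `D` times a square and the norm is a square then minus
`4 a^3 + 27 b^2` is a norm from `F(√D)`. -/
theorem norm_form (h2 : (2 : F) ≠ 0) (hθ : θ ^ 3 + a * θ + b = 0) {d : Fin 3 → F} {D m n : F}
    (hD : D ≠ 0) (hm : m ≠ 0) (h1 : e1 θ d = D * m ^ 2) (hn : Te_nf a b d = n ^ 2) (hn0 : n ≠ 0) :
    ∃ X Y : F, X ^ 2 - D * Y ^ 2 = -(4 * a ^ 3 + 27 * b ^ 2) := by
  have hb : b = -(θ ^ 3 + a * θ) := by linear_combination hθ
  rw [nf_fac hθ, h1] at hn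
  obtain ⟨p, hp⟩ : ∃ p, p = pp θ a d := ⟨_, rfl⟩
  obtain ⟨q, hq⟩ : ∃ q, q = qq θ d := ⟨_, rfl⟩
  rw [← hp, ← hq] at hn
  unfold N2 at hn
  have hs : p ^ 2 - θ * p * q + (θ ^ 2 + a) * q ^ 2 = D * (n / (D * m)) ^ 2 := by
    field_simp
    linear_combination hn
  obtain ⟨s, hs'⟩ : ∃ s, s = n / (D * m) := ⟨_, rfl⟩
  have hs0 : s ≠ 0 := by
    rw [hs']
    exact div_ne_zero hn0 (mul_ne_zero hD hm)
  rw [← hs'] at hs
  by_cases hq0 : q = 0
  · rw [hq0] at hs
    have h3 : p ^ 2 = D * s ^ 2 := by linear_combination hs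
    obtain ⟨r, hr⟩ : ∃ r, r = p / s := ⟨_, rfl⟩
    have hDr : D = r ^ 2 := by
      rw [hr]
      field_simp
      linear_combination -h3
    have hr0 : r ≠ 0 := by
      intro h
      rw [h] at hDr
      apply hD
      rw [hDr]
      ring
    refine ⟨(-(4 * a ^ 3 + 27 * b ^ 2) + 1) / 2, (-(4 * a ^ 3 + 27 * b ^ 2) - 1) / (2 * r), ?_⟩
    rw [hDr]
    field_simp
    ring
  · refine ⟨(2 * p - θ * q) * (3 * θ ^ 2 + a) / q, 2 * s * (3 * θ ^ 2 + a) / q, ?_⟩
    rw [hb]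
    field_simp
    linear_combination 4 * (3 * θ ^ 2 + a) ^ 2 * hs

end H36CY
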