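import Pool.Agent.H36.CY.Po

/-!
The local condition at the places above two (project MP_78d38b_CY, no row): square norm and square value at
the root near `-6`.
-/

set_option autoImplicit false
set_option linter.unusedSectionVars false
open scoped Classical

open WithZero NumberField IsDedekindDomain H76PP

namespace H36CY

theorem sq_of_LC {k F : Type} [Field k] [Field F] [CharZero F]
    [Valued F (WithZero (Multiplicative ℤ))] [CompleteSpace F] (i : k →+* F) {a b : k}
    (h : SpF (i a) (i b)) {θ : F} (hθ : RtF (i a) (i b) θ) {d : Fin 3 → k} (hLC : LC i a b d) :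
    IsSquare (e1 θ (fun j => i (d j))) := by
  obtain ⟨x, y, z, hy, hxy, hm⟩ := hLC
  obtain ⟨r, hr⟩ := pt_sq h hθ hxy
  have hr0 : r ≠ 0 := by
    rintro rfl
    apply hy
    have h1 : x = θ := by linear_combination hr
    have h2 : y ^ 2 = 0 := by
      rw [hxy, h1]
      exact hθ.1
    exact pow_eq_zero_iff (two_ne_zero) |>.1 h2
  have h1 := congrArg (e1 θ) hm
  rw [e1_m3 hθ.1, e1_m3 hθ.1] at h1
  have h2 : e1 θ ![x, -1, 0] = r * r := by
    rw [← hr]
    simp only [e1, Matrix.cons_val_zero, Matrix.cons_val_one, Matrix.cons_val_two,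
      Matrix.head_cons, Matrix.tail_cons]
    ring
  rw [h2] at h1
  refine ⟨e1 θ z / r, ?_⟩
  field_simp
  linear_combination h1

theorem LC_of_sq {k F : Type} [Field k] [Field F] [CharZero F]
    [Valued F (WithZero (Multiplicative ℤ))] [CompleteSpace F] (i : k →+* F) {a b : k}
    (h : SpF (i a) (i b)) {θ : F} (hθ : RtF (i a) (i b) θ) {π : F}
    (hπ : Valued.v π = exp (-1 : ℤ)) {d : Fin 3 → k} (hd : Te_nf a b d ≠ 0)
    (hsq : IsSquare (Te_nf a b d)) (h1 : IsSquare (e1 θ (fun j => i (d j)))) : LC i a b d := by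
  have h2 : (2 : F) ≠ 0 := two_ne_zero
  have hg := (val_facts h hθ).2
  obtain ⟨e, he⟩ := h1
  obtain ⟨n, hn⟩ := hsq
  have hnf : Te_nf (i a) (i b) (fun j => i (d j)) = i (Te_nf a b d) := Te_nf_map i a b d
  have hfac := nf_fac hθ.1 (fun j => i (d j))
  have hne : Te_nf (i a) (i b) (fun j => i (d j)) ≠ 0 := by
    rw [hnf]
    exact (map_ne_zero i).2 hd
  have he0 : e ≠ 0 := by
    rintro rfl
    rw [hfac, he] at hne
    exact hne (by ring)
  obtain ⟨p, hp⟩ : ∃ p, p = pp θ (i a) (fun j => i (d j)) := ⟨_, rfl⟩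
  obtain ⟨q, hq⟩ : ∃ q, q = qq θ (fun j => i (d j)) := ⟨_, rfl⟩
  rw [← hp, ← hq] at hfac
  have hN : N2 θ (i a) p q = (i n / e) ^ 2 := by
    have h3 : i n * i n = e * e * N2 θ (i a) p q := by
      rw [← he, ← hfac, hnf, hn, map_mul]
    field_simp
    linear_combination -h3
  have hin : i n / e ≠ 0 := by
    refine div_ne_zero ?_ he0
    intro h3
    apply hne
    rw [hnf, hn, map_mul, h3, mul_zero]
  obtain ⟨u, r, s, hu, hpu, hqu⟩ := sq_two_dim h2 hin hN
  obtain ⟨x, y, t, p', q', hy, hxy, ht0, ht, hx1, hx2⟩ := pt_of h hθ hπ hu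
  -- the square root
  obtain ⟨z, hz1, hz2, hz3⟩ := crt_ex hg (e * t) (u * (r * p' - (θ ^ 2 + i a) * (s * q')))
    (u * (r * q' + s * p' - θ * (s * q')))
  refine ⟨x, y, z, hy, hxy, ?_⟩
  refine crt hg ?_ ?_ ?_
  · rw [e1_m3 hθ.1, e1_m3 hθ.1, hz1, he]
    have h3 : e1 θ ![x, -1, 0] = t ^ 2 := by
      rw [← ht]
      simp only [e1, Matrix.cons_val_zero, Matrix.cons_val_one, Matrix.cons_val_two,
        Matrix.head_cons, Matrix.tail_cons]
      ring
    rw [h3]
    ring
  · rw [pp_m3 hθ.1, pp_m3 hθ.1, hz2, hz3, ← hp, ← hq]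
    have h3 : pp θ (i a) ![x, -1, 0] = x := by
      simp only [pp, Matrix.cons_val_zero, Matrix.cons_val_two, Matrix.head_cons, Matrix.tail_cons]
      ring
    have h4 : qq θ ![x, -1, 0] = -1 := by
      simp only [qq, Matrix.cons_val_zero, Matrix.cons_val_one, Matrix.cons_val_two,
        Matrix.head_cons, Matrix.tail_cons]
      ring
    rw [h3, h4, hpu, hqu, hx1, hx2]
    ring
  · rw [qq_m3 hθ.1, qq_m3 hθ.1, hz2, hz3, ← hp, ← hq]
    have h3 : pp θ (i a) ![x, -1, 0] = x := by
      simp only [pp, Matrix.cons_val_zero, Matrix.cons_val_two, Matrix.head_cons, Matrix.tail_cons]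
      ring
    have h4 : qq θ ![x, -1, 0] = -1 := by
      simp only [qq, Matrix.cons_val_zero, Matrix.cons_val_one, Matrix.cons_val_two,
        Matrix.head_cons, Matrix.tail_cons]
      ring
    rw [h3, h4, hpu, hqu, hx1, hx2]
    ring

end H36CY
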