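import Pool.Agent.H36.CY.Df
import Pool.Agent.H10.StarGal

/-!
ROW De (project MP_78d38b_CY, about 150 lines): an element fixed by the decomposition group is a limit of elements of
the base field.

PROOF. `G = N ≃ₐ[K] N` is finite. Let `H = {g | Stb K W g}` (closed under products and inverses). For every `g ∈ G` there is a prime `W_g` with
`W.valuation N (g y) = W_g.valuation N y` (`Pool.Agent.H10.exists_conj`); `W_g = W` iff `g ∈ H` (if the valuations agree; conversely equal primes have
equal valuations).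
WEAK APPROXIMATION: there is `y ∈ N` with `W.valuation N (y - x) < ε'` and `W_g.valuation N y < ε'` for all `g ∉ H`, where `ε' = min ε ε * W (card H)` (below). Proof: choose an
integer `n ≠ 0` with `n x ∈ 𝓞 N` (`IsLocalization.exist_integer_multiples` / `RingOfIntegers`; or `exists_natCast_mul_..`), and the Chinese remainder theorem
`IsDedekindDomain.exists_forall_sub_mem_ideal` for the finite set of primes `{W_g}` and a large power `k` (the same for all): `z ∈ 𝓞 N` with `z - n x ∈ W ^ k`,
`z ∈ W_g ^ k` for `g ∉ H`; `y = z / n`; the value is `≤ exp (-k) / W_g(n) < ε'` for large `k` (`exists_exp_neg_natCast_lt` and finitely many primes).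
TRACE: `∑ g : G, g y` is fixed by `G`, so it is `algebraMap K N s` (`IsGalois.mem_bot_iff_fixed`, or `IsGalois` fixed field, or `Algebra.trace`:
`trace_eq_sum_automorphisms : algebraMap K L (trace K L x) = ∑ σ : L ≃ₐ[K] L, σ x`). Let `h = card H`, `t = s / h ∈ K`. Then
`h (x - t) = ∑ g ∈ H, (x - g y) - ∑ g ∉ H, g y` and for `g ∈ H`: `x - g y = g (x - y)` (`g x = x` by hypothesis), of value `W (x - y) < ε'`; for `g ∉ H`:
`W (g y) = W_g y < ε'`. So `W (h (x - t)) < ε'` and `W (x - t) < ε' / W h ≤ ε` if `ε' = ε * W h` (`W h ≠ 0`: characteristic zero; `W h ≤ 1`).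
(`Valuation.map_sum_lt`.)
-/

set_option autoImplicit false
set_option linter.unusedSectionVars false
open scoped Classical

open WithZero NumberField IsDedekindDomain H76PP

namespace H36CY

/-- A uniform power: for finitely many primes. -/
private lemma unif_pow {N : Type} [Field N] [NumberField N] (S : Finset (HeightOneSpectrum (𝓞 N)))
    {b : 𝓞 N} (hb : b ≠ 0) {ε : WithZero (Multiplicative ℤ)} (hε : ε ≠ 0) :
    ∃ k : ℕ, ∀ V ∈ S, exp (-(k : ℤ)) < ε * V.intValuation b := by
  induction S using Finset.induction_on with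
  | empty => exact ⟨0, fun V hV => absurd hV (Finset.notMem_empty V)⟩
  | insert V S hV ih =>
    obtain ⟨k, hk⟩ := ih
    have h0 : ε * V.intValuation b ≠ 0 := mul_ne_zero hε (V.intValuation_ne_zero b hb)
    obtain ⟨l, hl⟩ := exists_exp_neg_natCast_lt h0
    refine ⟨max k l, fun U hU => ?_⟩
    rcases Finset.mem_insert.mp hU with rfl | hU
    · refine lt_of_le_of_lt ?_ hl
      rw [exp_le_exp]
      have : (l : ℤ) ≤ ((max k l : ℕ) : ℤ) := by exact_mod_cast le_max_right k l
      omega
    · refine lt_of_le_of_lt ?_ (hk U hU)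
      rw [exp_le_exp]
      have : (k : ℤ) ≤ ((max k l : ℕ) : ℤ) := by exact_mod_cast le_max_left k l
      omega

/-- Weak approximation: close to `x` at `W` and close to zero at the other primes of `S`. -/
private lemma approx_one {N : Type} [Field N] [NumberField N] (W : HeightOneSpectrum (𝓞 N))
    (S : Finset (HeightOneSpectrum (𝓞 N))) (x : N) {ε : WithZero (Multiplicative ℤ)} (hε : ε ≠ 0) :
    ∃ y : N, W.valuation N (x - y) < ε ∧ ∀ V ∈ S, V ≠ W → V.valuation N y < ε := by
  obtain ⟨a, b, hb, hx⟩ := IsFractionRing.div_surjective (A := 𝓞 N) x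
  have hb0 : b ≠ 0 := nonZeroDivisors.ne_zero hb
  obtain ⟨k, hk⟩ := unif_pow (insert W S) hb0 hε
  obtain ⟨z, hz⟩ := IsDedekindDomain.exists_forall_sub_mem_ideal
    (s := insert W S) (fun V : HeightOneSpectrum (𝓞 N) => V.asIdeal) (fun _ => k)
    (fun V _ => V.prime)
    (fun V _ U _ hVU h => hVU (HeightOneSpectrum.ext h))
    (fun V => if V.1 = W then a else 0)
  have hbN : algebraMap (𝓞 N) N b ≠ 0 := by
    intro h
    exact hb0 ((FaithfulSMul.algebraMap_injective (𝓞 N) N) (by rw [h, map_zero]))
  have key : ∀ V ∈ insert W S, ∀ c : 𝓞 N, c ∈ V.asIdeal ^ k →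
      V.valuation N (algebraMap (𝓞 N) N c / algebraMap (𝓞 N) N b) < ε := by
    intro V hV c hc
    rw [map_div₀, V.valuation_of_algebraMap, V.valuation_of_algebraMap,
      div_lt_iff₀ (zero_lt_iff.mpr (V.intValuation_ne_zero b hb0))]
    exact lt_of_le_of_lt ((V.intValuation_le_pow_iff_mem c k).mpr hc) (hk V hV)
  refine ⟨algebraMap (𝓞 N) N z / algebraMap (𝓞 N) N b, ?_, ?_⟩
  · have h1 := hz W (Finset.mem_insert_self W S)
    rw [if_pos rfl] at h1
    have h2 := key W (Finset.mem_insert_self W S) _ h1
    rw [← Valuation.map_neg]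
    have h3 : -(x - algebraMap (𝓞 N) N z / algebraMap (𝓞 N) N b) =
        algebraMap (𝓞 N) N (z - a) / algebraMap (𝓞 N) N b := by
      rw [← hx, map_sub, sub_div]; ring
    rw [h3]
    exact h2
  · intro V hV hVW
    have h1 := hz V (Finset.mem_insert_of_mem hV)
    rw [if_neg hVW, sub_zero] at h1
    exact key V (Finset.mem_insert_of_mem hV) _ h1

theorem dense_fix {K N : Type} [Field K] [NumberField K] [Field N] [NumberField N] [Algebra K N]
    [IsGalois K N] (W : HeightOneSpectrum (𝓞 N)) {x : N}
    (hx : ∀ g : N ≃ₐ[K] N, Stb K W g → g x = x) {ε : WithZero (Multiplicative ℤ)} (hε : ε ≠ 0) :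
    ∃ t : K, W.valuation N (x - algebraMap K N t) < ε := by
  have hex : ∀ g : N ≃ₐ[K] N, ∃ V : HeightOneSpectrum (𝓞 N),
      ∀ y : N, W.valuation N (g y) = V.valuation N y := by
    intro g
    obtain ⟨V, hV, -⟩ := Pool.Agent.H10.exists_conj g W
    exact ⟨V, hV⟩
  choose Wg hWg using hex
  let H : Finset (N ≃ₐ[K] N) := Finset.univ.filter (fun g => Stb K W g)
  have h1H : (1 : N ≃ₐ[K] N) ∈ H := by
    rw [Finset.mem_filter]
    exact ⟨Finset.mem_univ _, fun y => by rw [AlgEquiv.one_apply]⟩
  have hcard : (H.card : N) ≠ 0 := by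
    rw [Nat.cast_ne_zero]
    exact Finset.card_ne_zero_of_mem h1H
  have hcardK : (H.card : K) ≠ 0 := by
    rw [Nat.cast_ne_zero]
    exact Finset.card_ne_zero_of_mem h1H
  have hWc : W.valuation N (H.card : N) ≠ 0 := (Valuation.ne_zero_iff _).mpr hcard
  have hε' : ε * W.valuation N (H.card : N) ≠ 0 := mul_ne_zero hε hWc
  obtain ⟨y, hy1, hy2⟩ := approx_one W (Finset.univ.image Wg) x hε'
  refine ⟨Algebra.trace K N y / (H.card : K), ?_⟩
  let c : (N ≃ₐ[K] N) → N := fun g => if Stb K W g then x - g y else -(g y)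
  have hc : ∀ g ∈ (Finset.univ : Finset (N ≃ₐ[K] N)),
      W.valuation N (c g) < ε * W.valuation N (H.card : N) := by
    intro g _
    by_cases hg : Stb K W g
    · have h1 : c g = g (x - y) := by
        change (if Stb K W g then x - g y else -(g y)) = _
        rw [if_pos hg, map_sub, hx g hg]
      rw [h1, hg]
      exact hy1
    · have h1 : c g = -(g y) := if_neg hg
      rw [h1, Valuation.map_neg, hWg]
      refine hy2 _ (Finset.mem_image_of_mem _ (Finset.mem_univ _)) ?_
      intro h
      apply hg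
      intro z
      rw [hWg, h]
  have hsum := Valuation.map_sum_lt (W.valuation N) hε' hc
  have htot : ∑ g : N ≃ₐ[K] N, c g = (H.card : N) * x - algebraMap K N (Algebra.trace K N y) := by
    rw [trace_eq_sum_automorphisms]
    have h1 : ∀ g : N ≃ₐ[K] N, c g = (if Stb K W g then x else 0) - g y := by
      intro g
      change (if Stb K W g then x - g y else -(g y)) = _
      split_ifs
      · rfl
      · rw [zero_sub]
    rw [Finset.sum_congr rfl (fun g _ => h1 g), Finset.sum_sub_distrib, ← Finset.sum_filter,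
      Finset.sum_const, nsmul_eq_mul]
  have hfin : x - algebraMap K N (Algebra.trace K N y / (H.card : K)) =
      (∑ g : N ≃ₐ[K] N, c g) / (H.card : N) := by
    rw [htot, map_div₀, map_natCast, sub_div, mul_div_cancel_left₀ _ hcard]
  rw [hfin, map_div₀, div_lt_iff₀ (zero_lt_iff.mpr hWc)]
  exact hsum

end H36CY
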