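import Pool.Agent.H36.CY.Ac
import Pool.Agent.H36.CY.De

/-!
ROW Ia (project MP_78d38b_CY, about 130 lines): elements of the completion fixed by the decomposition group. Use only the STATEMENTS of
De (`dense_fix`).

PROOF of act_iso. `φ` is continuous and `φ x = g x` on `N`, `Valued.v (g x) = Valued.v x` on `N` (`Stb`). For `z ≠ 0` in the completion choose `x ∈ N` with
`Valued.v (x - z) < Valued.v z` and `Valued.v (φ x - φ z) < Valued.v (φ z)` (`φ z ≠ 0`; both are open conditions: `Te_nhd` of `Pool/Agent/H76/PP/Te.lean`, continuity of `φ`,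
density `HeightOneSpectrum.denseRange_algebraMap`). So `Valued.v x = Valued.v z`, `Valued.v (φ x) = Valued.v (φ z)` (ultrametric equality), and
`Valued.v (φ x) = Valued.v (g x) = Valued.v x` (`valuedAdicCompletion_eq_valuation'`).

PROOF of dense_hat. `m = orderOf τ > 0` (finite group). Choose `c ∈ N` with `Valued.v (y - c) < ε * Valued.v m` (density; `Valued.v m ≠ 0`, characteristic zero), and
`c₀ = (∑ j ∈ range m, (τ ^ j) c) / m`. `τ c₀ = c₀` (`τ ^ m = 1`), so `c₀` is fixed by all `g` with `Stb K W g` (`hτ`: `g` is a power of `τ`; `Subgroup.mem_zpowers_iff`, or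
`g = τ ^ j` with `j : ℕ`, `mem_powers_iff_mem_zpowers`). `m (y - c₀) = ∑ (φ^[j] y - (τ^j) c) = ∑ φ^[j] (y - c)` since `φ y = y`, and
every summand has value `Valued.v (y - c)` by act_iso. So `Valued.v (y - c₀) < ε`. `dense_fix`: `t ∈ K` with `W.valuation N (c₀ - t) < ε`.
-/

set_option autoImplicit false
set_option linter.unusedSectionVars false
open scoped Classical

open WithZero NumberField IsDedekindDomain H76PP

namespace H36CY

variable {K N : Type} [Field K] [NumberField K] [Field N] [NumberField N] [Algebra K N]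

theorem act_iso {W : HeightOneSpectrum (𝓞 N)} {g : N ≃ₐ[K] N} (hg : Stb K W g)
    {φ : W.adicCompletion N →+* W.adicCompletion N} (hφc : Continuous φ)
    (hφ : ∀ x : N, φ (algebraMap N (W.adicCompletion N) x) =
      algebraMap N (W.adicCompletion N) (g x)) (z : W.adicCompletion N) :
    Valued.v (φ z) = Valued.v z := by
  by_cases hz : z = 0
  · rw [hz, map_zero]
  have hφz : φ z ≠ 0 := (map_ne_zero φ).2 hz
  have hdense : DenseRange (⇑(algebraMap N (W.adicCompletion N))) :=
    HeightOneSpectrum.denseRange_algebraMap (K := N) W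
  have n1 := Valued.locally_const (x := z) ((Valuation.ne_zero_iff _).2 hz)
  have n2 := hφc.continuousAt.preimage_mem_nhds
    (Valued.locally_const (x := φ z) ((Valuation.ne_zero_iff _).2 hφz))
  obtain ⟨x, hx⟩ := hdense.mem_nhds (Filter.inter_mem n1 n2)
  have h1 : Valued.v (algebraMap N (W.adicCompletion N) x) = Valued.v z := hx.1
  have h2 : Valued.v (φ (algebraMap N (W.adicCompletion N) x)) = Valued.v (φ z) := hx.2
  have hiv : ∀ k : N, Valued.v (algebraMap N (W.adicCompletion N) k) = W.valuation N k := fun k =>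
    HeightOneSpectrum.valuedAdicCompletion_eq_valuation' W k
  rw [← h1, ← h2, hφ, hiv, hiv, hg x]

theorem dense_hat [IsGalois K N] {W : HeightOneSpectrum (𝓞 N)} {τ : N ≃ₐ[K] N}
    (hτ : ∀ g : N ≃ₐ[K] N, Stb K W g ↔ g ∈ Subgroup.zpowers τ)
    {φ : W.adicCompletion N →+* W.adicCompletion N} (hφc : Continuous φ)
    (hφ : ∀ x : N, φ (algebraMap N (W.adicCompletion N) x) =
      algebraMap N (W.adicCompletion N) (τ x)) {y : W.adicCompletion N} (hy : φ y = y)
    {ε : WithZero (Multiplicative ℤ)} (hε : ε ≠ 0) :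
    ∃ t : K, Valued.v (y - algebraMap N (W.adicCompletion N) (algebraMap K N t)) < ε := by
  have : FiniteDimensional K N := Module.Finite.of_restrictScalars_finite ℚ K N
  set i := algebraMap N (W.adicCompletion N) with hi
  have hiv : ∀ k : N, Valued.v (i k) = W.valuation N k := fun k =>
    HeightOneSpectrum.valuedAdicCompletion_eq_valuation' W k
  have hdense : DenseRange (⇑i) := HeightOneSpectrum.denseRange_algebraMap (K := N) W
  have hst : Stb K W τ := (hτ τ).2 (Subgroup.mem_zpowers τ)
  have hm : 0 < orderOf τ := orderOf_pos τ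
  set m := orderOf τ with hmdef
  have hmN : (m : N) ≠ 0 := Nat.cast_ne_zero.2 hm.ne'
  obtain ⟨π, hπ⟩ := W.valuation_exists_uniformizer N
  have hπ0 : π ≠ 0 := by
    rintro rfl
    rw [map_zero] at hπ
    exact absurd hπ.symm (by simp)
  have hπ1 : W.valuation N π < 1 := by
    rw [hπ]
    exact (WithZero.exp_lt_exp.2 (by norm_num : (-1 : ℤ) < 0)).trans_eq WithZero.exp_zero
  obtain ⟨n, hn⟩ := exists_pow_lt₀ hπ1 (Units.mk0 ε hε)
  rw [Units.val_mk0] at hn
  have hc'0 : i (π ^ n * m) ≠ 0 := (map_ne_zero i).2 (mul_ne_zero (pow_ne_zero _ hπ0) hmN)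
  obtain ⟨c, hc⟩ := hdense.mem_nhds (Te_nhd y hc'0)
  have hc1 : Valued.v (y - i c) < Valued.v (i (π ^ n * m)) := by
    rw [Valuation.map_sub_swap]
    exact hc
  have hj : ∀ j : ℕ, Valued.v (y - i ((τ ^ j) c)) = Valued.v (y - i c) := by
    intro j
    induction j with
    | zero => simp
    | succ j ih =>
      have h1 : y - i ((τ ^ (j + 1)) c) = φ (y - i ((τ ^ j) c)) := by
        rw [map_sub, hy, hφ, pow_succ', AlgEquiv.mul_apply]
      rw [h1, act_iso hst hφc hφ, ih]
  set S : N := ∑ j ∈ Finset.range m, (τ ^ j) c with hS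
  have hτS : τ S = S := by
    rw [hS, map_sum]
    have h1 : ∀ j ∈ Finset.range m, τ ((τ ^ j) c) = (τ ^ (j + 1)) c := by
      intro j _
      rw [pow_succ', AlgEquiv.mul_apply]
    rw [Finset.sum_congr rfl h1]
    have h2 := Finset.sum_range_succ' (fun j => (τ ^ j) c) m
    rw [Finset.sum_range_succ] at h2
    have h3 : (τ ^ m) c = (τ ^ 0) c := by rw [hmdef, pow_orderOf_eq_one, pow_zero]
    rw [h3] at h2
    exact (add_right_cancel h2).symm
  have hfix : ∀ g : N ≃ₐ[K] N, Stb K W g → g (S / m) = S / m := by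
    intro g hg
    have h1 : Subgroup.zpowers τ ≤ MulAction.stabilizer (N ≃ₐ[K] N) (S / (m : N)) := by
      rw [Subgroup.zpowers_le, MulAction.mem_stabilizer_iff, AlgEquiv.smul_def, map_div₀, hτS,
        map_natCast]
    have h2 := h1 ((hτ g).1 hg)
    rwa [MulAction.mem_stabilizer_iff, AlgEquiv.smul_def] at h2
  obtain ⟨t, ht⟩ := dense_fix W hfix hε
  refine ⟨t, ?_⟩
  have h1 : (m : W.adicCompletion N) * (y - i (S / m)) =
      ∑ j ∈ Finset.range m, (y - i ((τ ^ j) c)) := by
    rw [Finset.sum_sub_distrib, Finset.sum_const, Finset.card_range, nsmul_eq_mul, ← map_sum,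
      ← hS, mul_sub, map_div₀, map_natCast, mul_div_cancel₀]
    rw [← map_natCast i]
    exact (map_ne_zero i).2 hmN
  have h2 : Valued.v ((m : W.adicCompletion N) * (y - i (S / m))) < Valued.v (i (π ^ n * m)) := by
    rw [h1]
    refine Valuation.map_sum_lt _ ((Valuation.ne_zero_iff _).2 hc'0) fun j _ => ?_
    rw [hj]
    exact hc1
  have h3 : Valued.v (y - i (S / m)) < ε := by
    rw [map_mul i, map_mul, map_mul, map_natCast i, mul_comm (Valued.v (i (π ^ n)))] at h2
    have h4 := lt_of_mul_lt_mul_left h2 zero_le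
    rw [map_pow, map_pow, hiv] at h4
    exact h4.trans hn
  have h4 : y - i (algebraMap K N t) = (y - i (S / m)) + i (S / m - algebraMap K N t) := by
    rw [map_sub]
    ring
  rw [h4]
  refine Valuation.map_add_lt _ h3 ?_
  rw [hiv]
  exact ht

end H36CY
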