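import Pool.Agent.H36.CY.Df
import Pool.Agent.H76.PP.Tf

/-!
ROW Na (project MP_78d38b_CY, about 150 lines): the residue field of `K_v`, `v` above two.

NOTATION: `F = v.adicCompletion K`, `Valued.v 2 < 1`. The hypothesis `h2` means `2 ∈ v.asIdeal`.
APPROXIMATION (prove first): for `t ∈ F`, `Valued.v t ≤ 1` there is `t₀ ∈ 𝓞 K` with `Valued.v (t - t₀) < 1`: density of `K`
(`HeightOneSpectrum.denseRange_algebraMap`, `Te_nhd`) and `Tf_approx` (`Pool/Agent/H76/PP/Tf.lean`).
`Valued.v (x : F) = v.valuation K x` for `x ∈ K` (`valuedAdicCompletion_eq_valuation'`), and for `x ∈ 𝓞 K`: `v.valuation K x < 1 ↔ x ∈ v.asIdeal`.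

PROOF of exists_rho: the quotient `𝓞 K / v` is a finite field (`Ideal.finiteQuotientOfFreeOfNeBot`), the map `t ↦ t ^ 2 + t` on it is not injective (`0`, `-1`), so not surjective:
`ρ ∈ 𝓞 K` with `t ^ 2 + t - ρ ∉ v` for all `t ∈ 𝓞 K` (compare `Rm_noroot` in `Pool/Agent/H30/PN/Rm.lean`). For `t ∈ F` with `Valued.v t ≤ 1` and `t₀` as above:
`t ^ 2 + t - ρ = (t₀ ^ 2 + t₀ - ρ) + (t - t₀) (t + t₀ + 1)`, so the value is one.
PROOF of exists_root: `u ∈ F` of value one, `u₀ ∈ 𝓞 K` near `u`. The Frobenius `x ↦ x ^ 2` of the finite field `𝓞 K / v` of characteristic two is injective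
(`x ^ 2 = y ^ 2 → (x - y) ^ 2 = 0` as `2 = 0`), so surjective: `w₀ ^ 2 - u₀ ∈ v`. `w = w₀`.
PROOF of rho_even: let `M = max (Valued.v A) (Valued.v B) ≠ 0`. We show that `Valued.v (A ^ 2 - (1 + 4 ρ) B ^ 2) = γ ^ 2` for some `γ ≠ 0`.
(a) `Valued.v A ≠ Valued.v B`: `Valued.v (1 + 4 ρ) = 1`, so the value is `M ^ 2` (ultrametric equality). (b) `Valued.v A = Valued.v B = M ≠ 0`: put `z = A / B - 1`, of value `≤ 1`:
`A ^ 2 - (1 + 4 ρ) B ^ 2 = B ^ 2 (z ^ 2 + 2 z - 4 ρ)`. If `Valued.v 2 < Valued.v z`: `Valued.v (2 z - 4 ρ) < Valued.v z ^ 2` so the value is `(M * Valued.v z) ^ 2`. If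
`Valued.v z ≤ Valued.v 2`: `z = 2 w`, `Valued.v w ≤ 1`, `z ^ 2 + 2 z - 4 ρ = 4 (w ^ 2 + w - ρ)`, of value `Valued.v 4 = (Valued.v 2) ^ 2` by the property of `ρ`.
-/

set_option autoImplicit false
set_option linter.unusedSectionVars false
open scoped Classical

open WithZero NumberField IsDedekindDomain H76PP

namespace H36CY

variable {K : Type} [Field K] [NumberField K] {v : HeightOneSpectrum (𝓞 K)}

private theorem Na_dense (v : HeightOneSpectrum (𝓞 K)) (x : v.adicCompletion K) :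
    ∃ k : K, Valued.v (algebraMap K (v.adicCompletion K) k - x) < 1 := by
  have hd := HeightOneSpectrum.denseRange_algebraMap (K := K) v
  have hopen : IsOpen {y : v.adicCompletion K | Valued.v (y - x) < 1} := by
    have h1 : IsOpen {y : v.adicCompletion K | Valued.v y < 1} := by
      obtain ⟨t, ht⟩ := v.valuedAdicCompletion_surjective K (1 : WithZero (Multiplicative ℤ))
      have := Valued.isOpen_ball (v.adicCompletion K) (Valued.v.restrict t)
      simp_rw [Valuation.restrict_lt_iff] at this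
      rwa [ht] at this
    exact h1.preimage (continuous_sub_right x)
  obtain ⟨k, hk⟩ := hd.exists_mem_open hopen ⟨x, by simp⟩
  exact ⟨k, hk⟩

private theorem Na_val (x : K) :
    Valued.v (algebraMap K (v.adicCompletion K) x) = v.valuation K x :=
  v.valuedAdicCompletion_eq_valuation' (K := K) x

private theorem Na_app {t : v.adicCompletion K} (ht : Valued.v t ≤ 1) :
    ∃ a : 𝓞 K, Valued.v (t - algebraMap K (v.adicCompletion K) (a : K)) < 1 := by
  obtain ⟨k, hk⟩ := Na_dense v t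
  have h1 : v.valuation K k ≤ 1 := by
    rw [← Na_val (v := v) k]
    have e1 : algebraMap K (v.adicCompletion K) k =
        (algebraMap K (v.adicCompletion K) k - t) + t := by ring
    rw [e1]
    exact Valuation.map_add_le _ hk.le ht
  obtain ⟨a, ha⟩ := Tf_approx v h1
  refine ⟨a, ?_⟩
  have e1 : t - algebraMap K (v.adicCompletion K) (a : K) =
      -(algebraMap K (v.adicCompletion K) k - t) +
        algebraMap K (v.adicCompletion K) (k - (a : K)) := by
    rw [map_sub]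
    ring
  rw [e1]
  refine Valuation.map_add_lt _ ?_ ?_
  · rw [Valuation.map_neg]
    exact hk
  · rw [Na_val]
    exact ha

private theorem Na_lt (x : 𝓞 K) :
    Valued.v (algebraMap K (v.adicCompletion K) (x : K)) < 1 ↔ x ∈ v.asIdeal := by
  rw [Na_val]
  exact v.valuation_lt_one_iff_mem x

private theorem Na_le (x : 𝓞 K) :
    Valued.v (algebraMap K (v.adicCompletion K) (x : K)) ≤ 1 := by
  rw [Na_val]
  exact v.valuation_le_one x

private theorem Na_one {x : 𝓞 K} (hx : x ∉ v.asIdeal) :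
    Valued.v (algebraMap K (v.adicCompletion K) (x : K)) = 1 :=
  le_antisymm (Na_le x) (not_lt.1 fun h => hx ((Na_lt x).1 h))

private theorem Na_two (h2 : v.valuation K 2 < 1) : (2 : 𝓞 K) ∈ v.asIdeal := by
  rw [← v.valuation_lt_one_iff_mem (K := K) 2]
  have h1 : algebraMap (𝓞 K) K 2 = 2 := map_ofNat (algebraMap (𝓞 K) K) 2
  have h3 : v.valuation K (algebraMap (𝓞 K) K 2) < 1 := by
    rw [h1]
    exact h2
  exact h3

private theorem Na_V2 (h2 : v.valuation K 2 < 1) :
    Valued.v (2 : v.adicCompletion K) < 1 := by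
  have h1 := Na_val (v := v) (2 : K)
  rw [map_ofNat] at h1
  rw [h1]
  exact h2

private theorem Na_ne2 : (2 : v.adicCompletion K) ≠ 0 := by
  have h1 : (algebraMap K (v.adicCompletion K)) 2 ≠ 0 := (map_ne_zero _).2 two_ne_zero
  rwa [map_ofNat] at h1

theorem exists_rho (h2 : v.valuation K 2 < 1) :
    ∃ ρ : v.adicCompletion K, Valued.v ρ ≤ 1 ∧ ∀ t : v.adicCompletion K, Valued.v t ≤ 1 →
      Valued.v (t ^ 2 + t - ρ) = 1 := by
  have hfin : Finite (𝓞 K ⧸ v.asIdeal) := Ideal.finiteQuotientOfFreeOfNeBot _ v.ne_bot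
  have hnt : Nontrivial (𝓞 K ⧸ v.asIdeal) := Ideal.Quotient.nontrivial_iff.2 v.isPrime.ne_top
  have hns : ¬ Function.Surjective (fun t : 𝓞 K ⧸ v.asIdeal => t ^ 2 + t) := by
    intro hs
    have hi := Finite.injective_iff_surjective.2 hs
    have h1 : (0 : 𝓞 K ⧸ v.asIdeal) = -1 := by
      apply hi
      show (0 : 𝓞 K ⧸ v.asIdeal) ^ 2 + 0 = (-1) ^ 2 + -1
      ring
    exact neg_ne_zero.2 one_ne_zero h1.symm
  rw [Function.Surjective] at hns
  push Not at hns
  obtain ⟨r', hr'⟩ := hns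
  obtain ⟨r, rfl⟩ := Ideal.Quotient.mk_surjective r'
  refine ⟨algebraMap K (v.adicCompletion K) (r : K), Na_le r, fun t ht => ?_⟩
  obtain ⟨a, ha⟩ := Na_app ht
  have h1 : a ^ 2 + a - r ∉ v.asIdeal := by
    intro h
    apply hr' (Ideal.Quotient.mk v.asIdeal a)
    show Ideal.Quotient.mk v.asIdeal a ^ 2 + Ideal.Quotient.mk v.asIdeal a =
      Ideal.Quotient.mk v.asIdeal r
    rw [← map_pow, ← map_add]
    exact Ideal.Quotient.eq.2 h
  have h3 := Na_one h1
  set a' := algebraMap K (v.adicCompletion K) (a : K) with ha'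
  set r' := algebraMap K (v.adicCompletion K) (r : K) with hr''
  have e1 : algebraMap K (v.adicCompletion K) ((a ^ 2 + a - r : 𝓞 K) : K) =
      a' ^ 2 + a' - r' := by
    have e0 : ((a ^ 2 + a - r : 𝓞 K) : K) = (a : K) ^ 2 + (a : K) - (r : K) := by
      push_cast
      rfl
    rw [ha', hr'', e0, map_sub, map_add, map_pow]
  rw [e1] at h3
  have e2 : t ^ 2 + t - r' = (t - a') * (t + a' + 1) + (a' ^ 2 + a' - r') := by ring
  have h4 : Valued.v ((t - a') * (t + a' + 1)) < 1 := by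
    rw [map_mul]
    have h5 : Valued.v (t + a' + 1) ≤ 1 := by
      refine Valuation.map_add_le _ (Valuation.map_add_le _ ht (Na_le a)) ?_
      rw [map_one]
    exact mul_lt_one_of_lt_of_le ha h5
  rw [e2, Valuation.map_add_eq_of_lt_right _ (by rw [h3]; exact h4), h3]

theorem exists_root (h2 : v.valuation K 2 < 1) {u : v.adicCompletion K} (hu : Valued.v u = 1) :
    ∃ w : v.adicCompletion K, Valued.v w = 1 ∧ Valued.v (w ^ 2 - u) < 1 := by
  have hfin : Finite (𝓞 K ⧸ v.asIdeal) := Ideal.finiteQuotientOfFreeOfNeBot _ v.ne_bot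
  have h20 : (2 : 𝓞 K ⧸ v.asIdeal) = 0 := by
    have h1 := Ideal.Quotient.eq_zero_iff_mem.2 (Na_two h2)
    rwa [map_ofNat] at h1
  have hi : Function.Injective (fun t : 𝓞 K ⧸ v.asIdeal => t ^ 2) := by
    intro x y hxy
    have hxy' : x ^ 2 = y ^ 2 := hxy
    have h1 : (x - y) ^ 2 = 0 := by
      have e1 : (x - y) ^ 2 = x ^ 2 - y ^ 2 + 2 * (y ^ 2 - x * y) := by ring
      rw [e1, h20, hxy']
      ring
    exact sub_eq_zero.1 (pow_eq_zero_iff two_ne_zero |>.1 h1)
  have hs := Finite.injective_iff_surjective.1 hi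
  obtain ⟨u₀, hu₀⟩ := Na_app hu.le
  obtain ⟨w', hw'⟩ := hs (Ideal.Quotient.mk v.asIdeal u₀)
  obtain ⟨w, rfl⟩ := Ideal.Quotient.mk_surjective w'
  have h1 : w ^ 2 - u₀ ∈ v.asIdeal := by
    have hw2 : Ideal.Quotient.mk v.asIdeal w ^ 2 = Ideal.Quotient.mk v.asIdeal u₀ := hw'
    rw [← map_pow] at hw2
    exact Ideal.Quotient.eq.1 hw2
  have h3 := (Na_lt (v := v) _).2 h1
  have e1 : algebraMap K (v.adicCompletion K) ((w ^ 2 - u₀ : 𝓞 K) : K) =
      (algebraMap K (v.adicCompletion K) (w : K)) ^ 2 -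
        algebraMap K (v.adicCompletion K) (u₀ : K) := by
    have e0 : ((w ^ 2 - u₀ : 𝓞 K) : K) = (w : K) ^ 2 - (u₀ : K) := by
      push_cast
      rfl
    rw [e0, map_sub, map_pow]
  rw [e1] at h3
  have h4 : Valued.v ((algebraMap K (v.adicCompletion K) (w : K)) ^ 2 - u) < 1 := by
    have e2 : (algebraMap K (v.adicCompletion K) (w : K)) ^ 2 - u =
        ((algebraMap K (v.adicCompletion K) (w : K)) ^ 2 -
          algebraMap K (v.adicCompletion K) (u₀ : K)) +
        -(u - algebraMap K (v.adicCompletion K) (u₀ : K)) := by ring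
    rw [e2]
    refine Valuation.map_add_lt _ h3 ?_
    rw [Valuation.map_neg]
    exact hu₀
  refine ⟨algebraMap K (v.adicCompletion K) (w : K), ?_, h4⟩
  have h5 : Valued.v ((algebraMap K (v.adicCompletion K) (w : K)) ^ 2) = 1 := by
    rw [← hu]
    refine Valuation.map_eq_of_sub_lt _ ?_
    rw [hu]
    exact h4
  rw [map_pow] at h5
  exact (pow_eq_one_iff_of_nonneg zero_le two_ne_zero).1 h5

theorem rho_even (h2 : v.valuation K 2 < 1) {ρ : v.adicCompletion K} (hρ1 : Valued.v ρ ≤ 1)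
    (hρ : ∀ t : v.adicCompletion K, Valued.v t ≤ 1 → Valued.v (t ^ 2 + t - ρ) = 1)
    {A B : v.adicCompletion K} (hAB : A ≠ 0 ∨ B ≠ 0) :
    ∃ γ : WithZero (Multiplicative ℤ), γ ≠ 0 ∧ Valued.v (A ^ 2 - (1 + 4 * ρ) * B ^ 2) = γ ^ 2 := by
  have hV2 := Na_V2 (v := v) h2
  have hV4 : Valued.v (4 : v.adicCompletion K) = Valued.v (2 : v.adicCompletion K) ^ 2 := by
    rw [← map_pow]
    congr 1
    norm_num
  have hV4ρ : Valued.v (4 * ρ) < 1 := by
    rw [map_mul, hV4]
    exact mul_lt_one_of_lt_of_le (pow_lt_one₀ zero_le hV2 two_ne_zero) hρ1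
  have h1 : Valued.v (1 + 4 * ρ) = 1 := Valuation.map_one_add_of_lt _ hV4ρ
  have hX : Valued.v ((1 + 4 * ρ) * B ^ 2) = Valued.v B ^ 2 := by
    rw [map_mul, h1, one_mul, map_pow]
  rcases lt_trichotomy (Valued.v A) (Valued.v B) with h | h | h
  · refine ⟨Valued.v B, ?_, ?_⟩
    · exact (lt_of_le_of_lt zero_le h).ne'
    · rw [Valuation.map_sub_eq_of_lt_right, hX]
      rw [hX, map_pow]
      exact pow_lt_pow_left₀ h zero_le two_ne_zero
  · have hB : B ≠ 0 := by
      rcases hAB with h' | h'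
      · intro h0
        rw [h0, map_zero] at h
        exact h' ((Valuation.zero_iff _).1 h)
      · exact h'
    have hVB : Valued.v B ≠ 0 := (Valuation.ne_zero_iff _).2 hB
    obtain ⟨z, hz⟩ : ∃ z, z = A / B - 1 := ⟨_, rfl⟩
    have hA : A = B * (z + 1) := by
      rw [hz]
      field_simp
      ring
    have hVz : Valued.v z ≤ 1 := by
      rw [hz]
      refine (Valuation.map_sub _ _ _).trans (max_le ?_ ?_)
      · rw [map_div₀, h, div_self hVB]
      · rw [map_one]
    have e1 : A ^ 2 - (1 + 4 * ρ) * B ^ 2 = B ^ 2 * (z ^ 2 + (2 * z - 4 * ρ)) := by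
      rw [hA]
      ring
    rcases lt_or_ge (Valued.v (2 : v.adicCompletion K)) (Valued.v z) with h3 | h3
    · have hz0 : Valued.v z ≠ 0 := (lt_of_le_of_lt zero_le h3).ne'
      refine ⟨Valued.v B * Valued.v z, mul_ne_zero hVB hz0, ?_⟩
      have h4 : Valued.v (2 * z - 4 * ρ) < Valued.v (z ^ 2) := by
        refine lt_of_le_of_lt (Valuation.map_sub _ _ _) (max_lt ?_ ?_)
        · rw [map_mul, map_pow, sq]
          exact mul_lt_mul_of_pos_right h3 (zero_lt_iff.2 hz0)
        · rw [map_mul, map_pow, hV4]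
          calc _ ≤ Valued.v (2 : v.adicCompletion K) ^ 2 * 1 := mul_le_mul' le_rfl hρ1
            _ = Valued.v (2 : v.adicCompletion K) ^ 2 := mul_one _
            _ < _ := pow_lt_pow_left₀ h3 zero_le two_ne_zero
      rw [e1, map_mul, Valuation.map_add_eq_of_lt_left _ h4, map_pow, map_pow, mul_pow]
    · have h20 : (2 : v.adicCompletion K) ≠ 0 := Na_ne2
      have hV20 : Valued.v (2 : v.adicCompletion K) ≠ 0 := (Valuation.ne_zero_iff _).2 h20
      refine ⟨Valued.v B * Valued.v (2 : v.adicCompletion K), mul_ne_zero hVB hV20, ?_⟩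
      have hw : Valued.v (z / 2) ≤ 1 := by
        rw [map_div₀, div_le_iff₀ (zero_lt_iff.2 hV20), one_mul]
        exact h3
      have h4 := hρ (z / 2) hw
      have e2 : z ^ 2 + (2 * z - 4 * ρ) = 4 * ((z / 2) ^ 2 + z / 2 - ρ) := by
        field_simp
        ring
      rw [e1, e2, map_mul, map_mul, h4, mul_one, hV4, map_pow, mul_pow]
  · refine ⟨Valued.v A, ?_, ?_⟩
    · exact (lt_of_le_of_lt zero_le h).ne'
    · rw [Valuation.map_sub_eq_of_lt_left, map_pow]
      rw [hX, map_pow]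
      exact pow_lt_pow_left₀ h zero_le two_ne_zero

end H36CY
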