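import Pool.Agent.H36.CY.Na
import Pool.Agent.H36.CY.Sq

/-!
ROW Nc (project MP_78d38b_CY, about 180 lines): the quadratic defect of a nonsquare. Use only the STATEMENTS of Na, Sq.

NOTATION: `F = v.adicCompletion K`, `|x| = Valued.v x`, `|2| < 1`; values are `0` or `exp n`.
CLAIM. Let `D ∈ F` be no square, `D ≠ 0`. Then one of: (1) `|D| = exp n`, `n` odd. (2) there are `s ≠ 0` and `x` with `D s ^ 2 = 1 + x`, `|x| = exp n`, `n` odd,
`|4| < |x| < 1`. (3) there are `s ≠ 0` and `ρ` with `D s ^ 2 = 1 + 4 ρ`, `|ρ| ≤ 1` and `|t ^ 2 + t - ρ| = 1` for all `|t| ≤ 1`.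
PROOF. Suppose not (1): `|D| = exp (2 m)`; with `π`, `|π| = exp (-1)` (`v.valuation_exists_uniformizer K`), `D (π ^ m) ^ 2` is a unit `u`; `exists_root`: `|w ^ 2 - u| < 1`, so
`u / w ^ 2 = 1 + x`, `|x| < 1`, i.e. `D s ^ 2 = 1 + x` for some `s ≠ 0`, `|x| < 1`. For every such `s, x`: `|4| ≤ |x|` (otherwise `1 + x` is a square by `sq_near` with
`z = 1`, so `D` is a square). So the set of `n : ℕ` such that there are `s ≠ 0`, `x` with `D s ^ 2 = 1 + x`, `|x| = exp (-n)`, `n > 0`, is not empty and bounded by `2 e` where `|2| = exp (-e)`, `|4| = exp (-2 e)`; take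
the largest `n` (`Nat.find` / `Nat.sSup_mem`, `Finset.exists_max_image`), `s, x`.
(a) `n` odd, `n < 2 e`: case (2). (`n` odd implies `n ≠ 2 e`.)
(b) `n = 2 j`, `j < e`: `x = π ^ (2 j) u`, `|u| = 1`, `|w ^ 2 - u| < 1`, `|w| = 1`. `(1 + π ^ j w) ^ 2 = 1 + 2 π ^ j w + π ^ (2 j) w ^ 2`, `|1 + π ^ j w| = 1`. `D (s / (1 + π ^ j w)) ^ 2 = 1 + x'`,
`x' = (x - 2 π ^ j w - π ^ (2 j) w ^ 2) / (1 + π ^ j w) ^ 2`; `|x - π ^ (2 j) w ^ 2| < |π ^ (2 j)|`, `|2 π ^ j w| = exp (-(e + j)) < exp (-2 j)`; so `|x'| < exp (-2 j)`, contradiction to the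
maximality (`x' ≠ 0`, since `D` is no square).
(c) `n = 2 e`: `x = 4 ρ`, `|ρ| = 1`. If there is `t`, `|t| ≤ 1`, with `|t ^ 2 + t - ρ| ≠ 1`, so `< 1`: `(1 + 2 t) ^ 2 = 1 + 4 (t ^ 2 + t)`, `|1 + 2 t| = 1`,
`|D (s / (1 + 2 t)) ^ 2 - 1| = |4 (ρ - t - t ^ 2)| < |4|`: so `D` is a square, contradiction. So case (3).
-/

set_option autoImplicit false
set_option linter.unusedSectionVars false
open scoped Classical

open WithZero NumberField IsDedekindDomain H76PP

namespace H36CY

variable {K : Type} [Field K] [NumberField K] {v : HeightOneSpectrum (𝓞 K)}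

theorem defect (h2 : v.valuation K 2 < 1) {D : v.adicCompletion K} (hD : ¬ IsSquare D) :
    (∃ n : ℤ, Odd n ∧ Valued.v D = exp n) ∨
    (∃ s x : v.adicCompletion K, s ≠ 0 ∧ D * s ^ 2 = 1 + x ∧ (∃ n : ℤ, Odd n ∧ Valued.v x = exp n) ∧
      Valued.v (4 : v.adicCompletion K) < Valued.v x ∧ Valued.v x < 1) ∨
    ∃ s ρ : v.adicCompletion K, s ≠ 0 ∧ D * s ^ 2 = 1 + 4 * ρ ∧ Valued.v ρ ≤ 1 ∧
      ∀ t : v.adicCompletion K, Valued.v t ≤ 1 → Valued.v (t ^ 2 + t - ρ) = 1 := by
  have hval : ∀ k : K, Valued.v (algebraMap K (v.adicCompletion K) k) = v.valuation K k :=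
    fun k => HeightOneSpectrum.valuedAdicCompletion_eq_valuation' v k
  have h2F : Valued.v (2 : v.adicCompletion K) < 1 := by
    have h := hval 2
    have h' : algebraMap K (v.adicCompletion K) 2 = 2 := by rw [map_ofNat]
    rw [h'] at h
    rw [h]; exact h2
  have h20 : (2 : v.adicCompletion K) ≠ 0 := by
    intro h
    have h' : algebraMap K (v.adicCompletion K) 2 = 2 := by rw [map_ofNat]
    have h'' := hval 2
    rw [h', h, map_zero] at h''
    exact (two_ne_zero : (2 : K) ≠ 0) ((v.valuation K).zero_iff.1 h''.symm)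
  have h40 : (4 : v.adicCompletion K) ≠ 0 := by
    have : (4 : v.adicCompletion K) = 2 * 2 := by norm_num
    rw [this]; exact mul_ne_zero h20 h20
  obtain ⟨π, hπ⟩ := v.valuation_exists_uniformizer K
  set p : v.adicCompletion K := algebraMap K (v.adicCompletion K) π with hp
  have hpv : Valued.v p = exp (-1 : ℤ) := by
    rw [hp, hval π, hπ]
  have hp0 : p ≠ 0 := by
    intro h
    rw [h, map_zero] at hpv
    exact exp_ne_zero hpv.symm
  have hpz : ∀ m : ℤ, Valued.v (p ^ m) = exp (-m) := by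
    intro m
    rw [map_zpow₀, hpv, ← exp_zsmul]
    congr 1
    simp
  have hpn : ∀ m : ℕ, Valued.v (p ^ m) = exp (-(m : ℤ)) := by
    intro m
    rw [← zpow_natCast, hpz]
  obtain ⟨e, he⟩ : ∃ e : ℤ, Valued.v (2 : v.adicCompletion K) = exp (-e) :=
    ⟨-log (Valued.v (2 : v.adicCompletion K)), by
      rw [neg_neg, exp_log ((Valued.v).ne_zero_iff.2 h20)]⟩
  have he4 : Valued.v (4 : v.adicCompletion K) = exp (-(2 * e)) := by
    have : (4 : v.adicCompletion K) = 2 * 2 := by norm_num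
    rw [this, map_mul, he, ← exp_add]
    congr 1
    ring
  have he0 : 0 < e := by
    rw [he, ← exp_zero, exp_lt_exp] at h2F
    omega
  have hA : ∀ s x : v.adicCompletion K, s ≠ 0 → D * s ^ 2 = 1 + x →
      Valued.v (4 : v.adicCompletion K) ≤ Valued.v x := by
    intro s x hs hx
    by_contra hlt
    push Not at hlt
    obtain ⟨r, hr, hr2⟩ := sq_near (F := v.adicCompletion K) (y := 1 + x) (z := 1)
      (by simpa using hlt)
    apply hD
    refine ⟨r / s, ?_⟩
    have h3 : D * s ^ 2 = r ^ 2 := by rw [hx, hr2, one_mul]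
    field_simp
    exact h3
  have hcl : ∀ s x : v.adicCompletion K, s ≠ 0 → D * s ^ 2 = 1 + x → Valued.v x < 1 →
      ∃ n : ℕ, 0 < n ∧ Valued.v x = exp (-(n : ℤ)) ∧ (n : ℤ) ≤ 2 * e := by
    intro s x hs hx hx1
    have h4 := hA s x hs hx
    have hx0 : Valued.v x ≠ 0 := by
      intro h
      rw [h, le_zero_iff] at h4
      exact h40 ((Valued.v).zero_iff.1 h4)
    have hl : exp (log (Valued.v x)) = Valued.v x := exp_log hx0
    have hl1 : log (Valued.v x) < 0 := by
      rw [← hl, ← exp_zero, exp_lt_exp] at hx1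
      exact hx1
    have hl2 : -(2 * e) ≤ log (Valued.v x) := by
      rw [← hl, he4, exp_le_exp] at h4
      exact h4
    refine ⟨(-log (Valued.v x)).toNat, by omega, ?_, by omega⟩
    have h5 : (((-log (Valued.v x)).toNat : ℕ) : ℤ) = -log (Valued.v x) :=
      Int.toNat_of_nonneg (by omega)
    rw [h5, neg_neg, hl]
  have hD0 : D ≠ 0 := by
    intro h
    exact hD ⟨0, by rw [h, mul_zero]⟩
  by_cases hodd : ∃ n : ℤ, Odd n ∧ Valued.v D = exp n
  · exact Or.inl hodd
  refine Or.inr ?_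
  have hstart : ∃ s x : v.adicCompletion K, s ≠ 0 ∧ D * s ^ 2 = 1 + x ∧ Valued.v x < 1 := by
    have hDe : exp (log (Valued.v D)) = Valued.v D := exp_log ((Valued.v).ne_zero_iff.2 hD0)
    rcases Int.even_or_odd (log (Valued.v D)) with hev | ho
    · obtain ⟨m, hm⟩ := hev
      have hu : Valued.v (D * (p ^ m) ^ 2) = 1 := by
        rw [map_mul, map_pow, hpz, ← hDe, hm, ← exp_nsmul, ← exp_add, ← exp_zero]
        congr 1
        simp
        ring
      obtain ⟨w, hw1, hw2⟩ := exists_root h2 hu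
      have hw0 : w ≠ 0 := by
        intro h
        rw [h, map_zero] at hw1
        exact zero_ne_one hw1
      refine ⟨p ^ m / w, D * (p ^ m / w) ^ 2 - 1, div_ne_zero (zpow_ne_zero _ hp0) hw0,
        by ring, ?_⟩
      have h6 : D * (p ^ m / w) ^ 2 - 1 = -(w ^ 2 - D * (p ^ m) ^ 2) / w ^ 2 := by
        field_simp
        ring
      rw [h6, map_div₀, Valuation.map_neg, map_pow, hw1, one_pow, div_one]
      exact hw2
    · exact absurd ⟨_, ho, hDe.symm⟩ hodd
  let P : ℕ → Prop := fun n => ∃ s x : v.adicCompletion K, s ≠ 0 ∧ D * s ^ 2 = 1 + x ∧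
    Valued.v x = exp (-(n : ℤ)) ∧ 0 < n
  have hPle : ∀ n, P n → (n : ℤ) ≤ 2 * e := by
    rintro n ⟨s, x, hs, hx, hn, hn0⟩
    have h4 := hA s x hs hx
    rw [hn, he4, exp_le_exp] at h4
    omega
  obtain ⟨n, hPn, hmax⟩ : ∃ n, P n ∧ ∀ m, P m → m ≤ n := by
    obtain ⟨s, x, hs, hx, hx1⟩ := hstart
    obtain ⟨n0, hn0, hn1, hn2⟩ := hcl s x hs hx hx1
    have hP0 : P n0 := ⟨s, x, hs, hx, hn1, hn0⟩
    have hB : ∀ m, P m → m ≤ (2 * e).toNat := by
      intro m hm
      have := hPle m hm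
      omega
    exact ⟨Nat.findGreatest P (2 * e).toNat, Nat.findGreatest_spec (hB n0 hP0) hP0,
      fun m hm => Nat.le_findGreatest (hB m hm) hm⟩
  obtain ⟨s, x, hs, hx, hn, hn0⟩ := hPn
  have hn2e := hPle n ⟨s, x, hs, hx, hn, hn0⟩
  have hx1 : Valued.v x < 1 := by
    rw [hn, ← exp_zero, exp_lt_exp]
    omega
  rcases Nat.even_or_odd n with hev | ho
  · obtain ⟨j, hj⟩ := hev
    have hje : (j : ℤ) ≤ e := by omega
    have hj0 : 0 < j := by omega
    rcases lt_or_eq_of_le hje with hlt | heq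
    · exfalso
      have hu : Valued.v (x / p ^ (2 * j)) = 1 := by
        rw [map_div₀, hn, hpn, ← exp_sub, ← exp_zero]
        congr 1
        push_cast
        omega
      obtain ⟨w, hw1, hw2⟩ := exists_root h2 hu
      have hpw : Valued.v (p ^ j * w) = exp (-(j : ℤ)) := by
        rw [map_mul, hpn, hw1, mul_one]
      have hpw1 : Valued.v (p ^ j * w) < 1 := by
        rw [hpw, ← exp_zero, exp_lt_exp]
        omega
      have hq : Valued.v (1 + p ^ j * w) = 1 := Valuation.map_one_add_of_lt _ hpw1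
      have hq0 : 1 + p ^ j * w ≠ 0 := by
        intro h
        rw [h, map_zero] at hq
        exact zero_ne_one hq
      have hs' : s / (1 + p ^ j * w) ≠ 0 := div_ne_zero hs hq0
      have hx' : D * (s / (1 + p ^ j * w)) ^ 2 =
          1 + (x - p ^ (2 * j) * w ^ 2 - 2 * (p ^ j * w)) / (1 + p ^ j * w) ^ 2 := by
        have h7 : D * (s / (1 + p ^ j * w)) ^ 2 = (1 + x) / (1 + p ^ j * w) ^ 2 := by
          rw [← hx, div_pow, mul_div_assoc]
        have hpp : p ^ (2 * j) = (p ^ j) ^ 2 := by rw [mul_comm 2 j, pow_mul]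
        rw [h7, hpp, div_eq_iff (pow_ne_zero 2 hq0), add_mul,
          div_mul_cancel₀ _ (pow_ne_zero 2 hq0), one_mul]
        ring
      have hlt1 : Valued.v (x - p ^ (2 * j) * w ^ 2) < exp (-(n : ℤ)) := by
        have h8 : x - p ^ (2 * j) * w ^ 2 = -(p ^ (2 * j) * (w ^ 2 - x / p ^ (2 * j))) := by
          have := pow_ne_zero (2 * j) hp0
          field_simp
          ring
        rw [h8, Valuation.map_neg, map_mul, hpn]
        have h9 : exp (-((2 * j : ℕ) : ℤ)) = exp (-(n : ℤ)) := by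
          congr 2
          push_cast
          omega
        rw [h9]
        exact mul_lt_of_lt_one_right (zero_lt_iff.2 exp_ne_zero) hw2
      have hlt2 : Valued.v (2 * (p ^ j * w)) < exp (-(n : ℤ)) := by
        rw [map_mul, hpw, he, ← exp_add, exp_lt_exp]
        omega
      have hlt3 : Valued.v ((x - p ^ (2 * j) * w ^ 2 - 2 * (p ^ j * w)) /
          (1 + p ^ j * w) ^ 2) < exp (-(n : ℤ)) := by
        rw [map_div₀, map_pow, hq, one_pow, div_one]
        exact Valuation.map_sub_lt _ hlt1 hlt2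
      have hlt4 : exp (-(n : ℤ)) < (1 : WithZero (Multiplicative ℤ)) := by
        rw [← exp_zero, exp_lt_exp]
        omega
      obtain ⟨n', hn'0, hn'1, hn'2⟩ := hcl _ _ hs' hx' (hlt3.trans hlt4)
      have h10 := hmax n' ⟨_, _, hs', hx', hn'1, hn'0⟩
      rw [hn'1, exp_lt_exp] at hlt3
      omega
    · refine Or.inr ⟨s, x / 4, hs, ?_, ?_, ?_⟩
      · rw [hx]
        field_simp
      · rw [map_div₀, hn, he4, ← exp_sub, ← exp_zero, exp_le_exp]
        omega
      · intro t ht
        have hρ : Valued.v (x / 4) ≤ 1 := by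
          rw [map_div₀, hn, he4, ← exp_sub, ← exp_zero, exp_le_exp]
          omega
        have hle : Valued.v (t ^ 2 + t - x / 4) ≤ 1 := by
          refine (Valuation.map_sub _ _ _).trans (max_le ?_ hρ)
          refine (Valuation.map_add _ _ _).trans (max_le ?_ ht)
          rw [map_pow]
          exact pow_le_one₀ zero_le ht
        by_contra hne
        have hlt := lt_of_le_of_ne hle hne
        have h2t : Valued.v (2 * t) < 1 := by
          rw [map_mul]
          exact lt_of_le_of_lt (mul_le_of_le_one_right' ht) h2F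
        have hq : Valued.v (1 + 2 * t) = 1 := Valuation.map_one_add_of_lt _ h2t
        have hq0 : 1 + 2 * t ≠ 0 := by
          intro h
          rw [h, map_zero] at hq
          exact zero_ne_one hq
        have hx' : D * (s / (1 + 2 * t)) ^ 2 =
            1 + -(4 * (t ^ 2 + t - x / 4)) / (1 + 2 * t) ^ 2 := by
          have h7 : D * (s / (1 + 2 * t)) ^ 2 = (1 + x) / (1 + 2 * t) ^ 2 := by
            rw [← hx, div_pow, mul_div_assoc]
          have h44 : 4 * (x / 4) = x := by field_simp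
          rw [h7, div_eq_iff (pow_ne_zero 2 hq0), add_mul,
            div_mul_cancel₀ _ (pow_ne_zero 2 hq0), one_mul, mul_sub, h44]
          ring
        have h11 := hA _ _ (div_ne_zero hs hq0) hx'
        rw [map_div₀, Valuation.map_neg, map_mul, map_pow, hq, one_pow, div_one] at h11
        have h12 : Valued.v (4 : v.adicCompletion K) * Valued.v (t ^ 2 + t - x / 4) <
            Valued.v (4 : v.adicCompletion K) :=
          mul_lt_of_lt_one_right (zero_lt_iff.2 ((Valued.v).ne_zero_iff.2 h40)) hlt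
        exact absurd h11 (not_le.2 h12)
  · refine Or.inl ⟨s, x, hs, hx, ⟨-(n : ℤ), ?_, hn⟩, ?_, hx1⟩
    · refine Odd.neg ?_
      exact_mod_cast ho
    · rw [hn, he4, exp_lt_exp]
      obtain ⟨k, hk⟩ := ho
      omega

end H36CY
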