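import Pool.Agent.H36.CY.Pt

/-!
ROW Po (project MP_78d38b_CY, about 180 lines): the points with a given class in the quadratic factor. Use only the STATEMENTS of Pt, Sq.

PROOF. norm_rep: let `π` be an element of value `exp (-1)` (hypothesis `hπ`); write `Valued.v u = exp n`. Choose an integer `m` with
`n - 2 m ∈ {-1, -2}`, `κ = π ^ m` (`zpow`): `Valued.v (u κ ^ 2) = exp (n - 2 m)` so it is `< 1` and `≥ exp (-2) ≥ Valued.v 4` because
`Valued.v 2 < 1` gives `Valued.v 2 ≤ exp (-1)` (`Pool.Agent.H10.lt_one_le_exp`), `4 = 2 * 2`.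

pt_of: let `w = u κ ^ 2`, `Valued.v w < 1`, `Valued.v 4 ≤ Valued.v w`. `1 - w`, `1 + w` have value one, so they are not zero. `s = 36 w / (1 - w) ^ 2`,
`x = s + 3`. `Valued.v s = Valued.v 4 * Valued.v w ≥ Valued.v 16` (`36 = 4 * 9`, `Valued.v 9 = 1`), `s ≠ 0`.
(1) `s + 9 = (3 (1 + w) / (1 - w)) ^ 2` (field_simp, ring), so `x - θ = (s + 9) - (θ + 6)` and `Valued.v (θ + 6) < Valued.v (2 ^ 8) ≤ Valued.v (4 * (s + 9))`
(`Valued.v (s + 9) = 1`): `sq_near` gives `x - θ = (3 (1 + w) / (1 - w) * r) ^ 2`, `r ≠ 0`.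
(2) `g = x ^ 2 + θ x + θ ^ 2 + a = s ^ 2 + (θ + 6) s + γ`, `γ = θ ^ 2 + 3 θ + 9 + a`, `Valued.v γ < Valued.v (2 ^ 12)` (val_facts). `g / s ^ 2 - 1 = (θ + 6) / s + γ / s ^ 2`
has value `< Valued.v 16` (`2 ^ 8 = 16 * 16`, `2 ^ 12 = 16 * 16 * 16`, `Valued.v 16 ≤ Valued.v s`). So `g = s ^ 2 n ^ 2` by `sq_near` (`g` close to `s ^ 2`), and by
`close_one` we may take `Valued.v (n - 1) < Valued.v 8`; `n ≠ 0`.
(3) `y = 3 (1 + w) / (1 - w) * r * s * n`: `y ^ 2 = (x - θ) g = x ^ 3 + a x + b`, `y ≠ 0`.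
(4) `t = 2 + (θ + 6) / s + 2 n = 4 + ((θ + 6) / s + 2 (n - 1))`, and `Valued.v (t - 4) < Valued.v (4 * 4)`: `sq_near` gives `t = 4 m ^ 2`, `m ≠ 0`. PUT
`l = 6 κ / ((1 - w) * (2 m) * s)`, `p' = l (x + n s)`, `q' = -l`. Then `x = u (p' ^ 2 - (θ ^ 2 + a) q' ^ 2)` and `-1 = u (2 p' q' - θ q' ^ 2)`:
`u l ^ 2 = 36 w / ((1 - w) ^ 2 * 4 m ^ 2 * s ^ 2) = 1 / (t s)`, and `(x + n s) ^ 2 - (θ ^ 2 + a) = x t s`, `2 (x + n s) + θ = t s` where
`t s = 2 x + θ + 2 n s` (`2 s + θ + 6 = 2 x + θ`), and `n ^ 2 s ^ 2 = g = x ^ 2 + θ x + θ ^ 2 + a`; all identities by `field_simp`, `linear_combination`.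
-/

set_option autoImplicit false
set_option linter.unusedSectionVars false
open scoped Classical

open WithZero NumberField IsDedekindDomain H76PP

namespace H36CY

variable {F : Type*} [Field F] [CharZero F] [Valued F (WithZero (Multiplicative ℤ))]

theorem norm_rep (h2 : Valued.v (2 : F) < 1) {π : F} (hπ : Valued.v π = exp (-1 : ℤ)) {u : F}
    (hu : u ≠ 0) : ∃ κ : F, κ ≠ 0 ∧ Valued.v (u * κ ^ 2) < 1 ∧ Valued.v (4 : F) ≤ Valued.v (u * κ ^ 2) := by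
  have hvu : Valued.v u ≠ 0 := (Valuation.ne_zero_iff _).2 hu
  have hπ0 : π ≠ 0 := by
    intro h
    rw [h, map_zero] at hπ
    exact exp_ne_zero hπ.symm
  obtain ⟨n, hn⟩ : ∃ n : ℤ, Valued.v u = exp n := ⟨log (Valued.v u), (exp_log hvu).symm⟩
  obtain ⟨m, hm⟩ : ∃ m : ℤ, m = (n + 2) / 2 := ⟨_, rfl⟩
  have hv : Valued.v (u * (π ^ m) ^ 2) = exp (n - 2 * m) := by
    rw [map_mul, map_pow, map_zpow₀, hπ, hn, ← exp_zsmul, ← exp_nsmul, ← exp_add]
    congr 1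
    simp only [smul_eq_mul, nsmul_eq_mul]
    push_cast
    ring
  refine ⟨π ^ m, zpow_ne_zero _ hπ0, ?_, ?_⟩
  · rw [hv, ← exp_zero]
    exact exp_lt_exp.2 (by omega)
  · rw [hv]
    have h4 : (4 : F) = 2 * 2 := by norm_num
    have h2' := Pool.Agent.H10.lt_one_le_exp h2
    rw [h4, map_mul]
    calc Valued.v (2 : F) * Valued.v (2 : F) ≤ exp (-1) * exp (-1) := mul_le_mul' h2' h2'
      _ = exp (-1 + -1) := (exp_add _ _).symm
      _ ≤ _ := exp_le_exp.2 (by omega)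

theorem pt_of [CompleteSpace F] {a b θ : F} (h : SpF a b) (hθ : RtF a b θ) {π : F}
    (hπ : Valued.v π = exp (-1 : ℤ)) {u : F} (hu : u ≠ 0) :
    ∃ x y r p q : F, y ≠ 0 ∧ y ^ 2 = x ^ 3 + a * x + b ∧ r ≠ 0 ∧ x - θ = r ^ 2 ∧
      x = u * (p ^ 2 - (θ ^ 2 + a) * q ^ 2) ∧ -1 = u * (2 * p * q - θ * q ^ 2) := by
  have h2 : Valued.v (2 : F) < 1 := h.1
  obtain ⟨κ, hκ, hw1, hw4⟩ := norm_rep h2 hπ hu
  obtain ⟨w, hw⟩ : ∃ w : F, w = u * κ ^ 2 := ⟨_, rfl⟩
  rw [← hw] at hw1 hw4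
  have hw0 : w ≠ 0 := by
    rw [hw]
    exact mul_ne_zero hu (pow_ne_zero 2 hκ)
  -- values of numerals
  have e4 : Valued.v (4 : F) = Valued.v (2 : F) * Valued.v (2 : F) := by
    rw [← map_mul]
    norm_num
  have e8 : Valued.v (8 : F) = Valued.v (2 : F) * Valued.v (4 : F) := by
    rw [← map_mul]
    norm_num
  have e16 : Valued.v (16 : F) = Valued.v (4 : F) * Valued.v (4 : F) := by
    rw [← map_mul]
    norm_num
  have e16' : Valued.v (16 : F) = Valued.v (2 : F) * Valued.v (8 : F) := by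
    rw [← map_mul]
    norm_num
  have e256 : Valued.v ((2 : F) ^ 8) = Valued.v (16 : F) * Valued.v (16 : F) := by
    rw [← map_mul]
    norm_num
  have e4096 : Valued.v ((2 : F) ^ 12) = Valued.v (16 : F) * (Valued.v (16 : F) * Valued.v (16 : F)) := by
    rw [← map_mul, ← map_mul]
    norm_num
  have h4lt : Valued.v (4 : F) < 1 := by
    rw [e4]
    exact mul_lt_one_of_nonneg_of_lt_one_left zero_le' h2 h2.le
  have h8lt : Valued.v (8 : F) < 1 := by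
    rw [e8]
    exact mul_lt_one_of_nonneg_of_lt_one_left zero_le' h2 h4lt.le
  have h16le : Valued.v (16 : F) ≤ 1 := by
    rw [e16]
    exact mul_le_one' h4lt.le h4lt.le
  have h16le4 : Valued.v (16 : F) ≤ Valued.v (4 : F) := by
    rw [e16]
    exact mul_le_of_le_one_left' h4lt.le
  have h9 : Valued.v (9 : F) = 1 := by
    have : (9 : F) = 1 + 8 := by norm_num
    rw [this]
    exact Valuation.map_one_add_of_lt _ h8lt
  have h3 : Valued.v (3 : F) = 1 := by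
    have : (3 : F) = 1 + 2 := by norm_num
    rw [this]
    exact Valuation.map_one_add_of_lt _ h2
  have hvm : Valued.v (1 - w) = 1 := Valuation.map_one_sub_of_lt _ hw1
  have hvp : Valued.v (1 + w) = 1 := Valuation.map_one_add_of_lt _ hw1
  have hm0 : (1 - w) ≠ 0 := by
    intro h0
    rw [h0, map_zero] at hvm
    exact zero_ne_one hvm
  have hp0 : (1 + w) ≠ 0 := by
    intro h0
    rw [h0, map_zero] at hvp
    exact zero_ne_one hvp
  obtain ⟨s, hs⟩ : ∃ s : F, s = 36 * w / (1 - w) ^ 2 := ⟨_, rfl⟩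
  have hs0 : s ≠ 0 := by
    rw [hs]
    exact div_ne_zero (mul_ne_zero (by norm_num) hw0) (pow_ne_zero 2 hm0)
  have hvs : Valued.v (16 : F) ≤ Valued.v s := by
    have h1 : Valued.v s = Valued.v (4 : F) * Valued.v w := by
      have h36 : (36 : F) = 4 * 9 := by norm_num
      rw [hs, map_div₀, map_pow, hvm, one_pow, div_one, map_mul, h36, map_mul, h9, mul_one]
    rw [h1, e16]
    exact mul_le_mul' le_rfl hw4
  -- (1)
  have hs9 : s + 9 = (3 * (1 + w) / (1 - w)) ^ 2 := by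
    rw [hs]
    field_simp
    ring
  have hvs9 : Valued.v (s + 9) = 1 := by
    rw [hs9, map_pow, map_div₀, map_mul, h3, hvm, hvp]
    simp
  have hθ6 : Valued.v (θ + 6) < Valued.v ((2 : F) ^ 8) := hθ.2
  have hθ4 : Valued.v (θ + 6) < Valued.v (4 : F) := by
    refine hθ6.trans_le ?_
    rw [e256]
    calc Valued.v (16 : F) * Valued.v (16 : F) ≤ Valued.v (4 : F) * 1 := mul_le_mul' h16le4 h16le
      _ = _ := mul_one _
  obtain ⟨r, hr0, hr⟩ : ∃ r : F, r ≠ 0 ∧ (s + 3) - θ = (s + 9) * r ^ 2 := by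
    refine sq_near ?_
    have h1 : (s + 3) - θ - (s + 9) = -(θ + 6) := by ring
    rw [h1, Valuation.map_neg, map_mul, hvs9, mul_one]
    exact hθ4
  -- (2)
  obtain ⟨γ, hγ⟩ : ∃ γ : F, γ = θ ^ 2 + 3 * θ + 9 + a := ⟨_, rfl⟩
  have hvγ : Valued.v γ < Valued.v ((2 : F) ^ 12) := by
    rw [hγ]
    exact (val_facts h hθ).1
  have hsv : 0 < Valued.v s := (Valuation.pos_iff _).2 hs0
  obtain ⟨g, hg⟩ : ∃ g : F, g = s ^ 2 + (θ + 6) * s + γ := ⟨_, rfl⟩
  have hgs : Valued.v (g - s ^ 2) < Valued.v ((16 : F) * s ^ 2) := by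
    have h1 : g - s ^ 2 = (θ + 6) * s + γ := by
      rw [hg]
      ring
    rw [h1]
    have e1 : Valued.v ((16 : F) * s ^ 2) = Valued.v (16 : F) * (Valued.v s * Valued.v s) := by
      rw [map_mul, map_pow, pow_two]
    refine Valuation.map_add_lt _ ?_ ?_
    · rw [map_mul, e1]
      calc Valued.v (θ + 6) * Valued.v s < Valued.v ((2 : F) ^ 8) * Valued.v s :=
            mul_lt_mul_of_pos_right hθ6 hsv
        _ = Valued.v (16 : F) * (Valued.v (16 : F) * Valued.v s) := by rw [e256, mul_assoc]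
        _ ≤ _ := mul_le_mul' le_rfl (mul_le_mul' hvs le_rfl)
    · refine hvγ.trans_le ?_
      rw [e1, e4096]
      exact mul_le_mul' le_rfl (mul_le_mul' hvs hvs)
  obtain ⟨n0, hn00, hn0⟩ : ∃ r : F, r ≠ 0 ∧ g = s ^ 2 * r ^ 2 := by
    refine sq_near (hgs.trans_le ?_)
    rw [map_mul, map_mul]
    exact mul_le_mul' h16le4 le_rfl
  obtain ⟨n, hn2, hn1⟩ := close_one h2 (n := n0) (by
    have h1 : g - s ^ 2 = (n0 ^ 2 - 1) * s ^ 2 := by
      rw [hn0]
      ring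
    rw [h1, map_mul, map_mul] at hgs
    exact lt_of_mul_lt_mul_right' hgs)
  have hn : n ≠ 0 := by
    intro h0
    rw [h0] at hn2
    exact hn00 (pow_eq_zero_iff two_ne_zero |>.1 (hn2.symm.trans (by ring)))
  have hgn : g = s ^ 2 * n ^ 2 := by
    rw [hn0, hn2]
  -- (4)
  obtain ⟨t, ht⟩ : ∃ t : F, t = 2 + (θ + 6) / s + 2 * n := ⟨_, rfl⟩
  obtain ⟨m, hm0', hm⟩ : ∃ r : F, r ≠ 0 ∧ t = 4 * r ^ 2 := by
    refine sq_near ?_
    have h1 : t - 4 = (θ + 6) / s + 2 * (n - 1) := by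
      rw [ht]
      ring
    rw [h1, map_mul (Valued.v (R := F)) 4 4, ← e16]
    refine Valuation.map_add_lt _ ?_ ?_
    · rw [map_div₀, div_lt_iff₀ hsv]
      refine hθ6.trans_le ?_
      rw [e256]
      exact mul_le_mul' le_rfl hvs
    · rw [map_mul, e16']
      exact mul_lt_mul_of_pos_left hn1 ((Valuation.pos_iff _).2 two_ne_zero)
  have hts : t * s = 2 * s + (θ + 6) + 2 * n * s := by
    rw [ht]
    field_simp
  obtain ⟨l, hl⟩ : ∃ l : F, l = 6 * κ / ((1 - w) * (2 * m) * s) := ⟨_, rfl⟩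
  have hul : u * l ^ 2 * (t * s) = 1 := by
    have h1 : u * l ^ 2 = 36 * w / (1 - w) ^ 2 / (4 * m ^ 2 * s ^ 2) := by
      rw [hl, hw]
      field_simp
      ring
    rw [h1, ← hs, ← hm]
    have ht0 : t ≠ 0 := by
      rw [hm]
      exact mul_ne_zero (by norm_num) (pow_ne_zero 2 hm0')
    field_simp
  have hroot := hθ.1
  have hgx : g = (s + 3) ^ 2 + θ * (s + 3) + θ ^ 2 + a := by
    rw [hg, hγ]
    ring
  refine ⟨s + 3, 3 * (1 + w) / (1 - w) * r * s * n, 3 * (1 + w) / (1 - w) * r, l * ((s + 3) + n * s), -l,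
    ?_, ?_, ?_, ?_, ?_, ?_⟩
  · exact mul_ne_zero (mul_ne_zero (mul_ne_zero (div_ne_zero (mul_ne_zero three_ne_zero hp0) hm0) hr0)
      hs0) hn
  · have h1 : (3 * (1 + w) / (1 - w) * r * s * n) ^ 2 = ((s + 9) * r ^ 2) * (s ^ 2 * n ^ 2) := by
      rw [hs9]
      ring
    rw [h1, ← hr, ← hgn, hgx]
    linear_combination (-1 : F) * hroot
  · exact mul_ne_zero (div_ne_zero (mul_ne_zero three_ne_zero hp0) hm0) hr0
  · rw [hr, hs9]
    ring
  · have h1 : (s + 3 + n * s) ^ 2 - (θ ^ 2 + a) = (s + 3) * (t * s) := by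
      rw [hts]
      linear_combination hgx - hgn
    have h2 : u * ((l * (s + 3 + n * s)) ^ 2 - (θ ^ 2 + a) * (-l) ^ 2) =
        u * l ^ 2 * ((s + 3 + n * s) ^ 2 - (θ ^ 2 + a)) := by ring
    rw [h2, h1]
    linear_combination (-(s + 3)) * hul
  · have h1 : 2 * (s + 3 + n * s) + θ = t * s := by
      rw [hts]
      ring
    have h2 : u * (2 * (l * (s + 3 + n * s)) * (-l) - θ * (-l) ^ 2) =
        -(u * l ^ 2 * (2 * (s + 3 + n * s) + θ)) := by ring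
    rw [h2, h1, hul]

end H36CY
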