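import Pool.Agent.H36.CY.Ag
import Pool.Agent.H36.CY.Sq

/-!
ROW Pt (project MP_78d38b_CY, about 110 lines): `x(P) - θ` is a square for all points. Use only the STATEMENTS of Sq.

PROOF. val_facts: put `s = x - 3`, `γ = θ ^ 2 + 3 θ + 9 + a`. `x ^ 2 + θ x + θ ^ 2 + a = s ^ 2 + (θ + 6) s + γ` (ring). `-(θ - 3) γ = b + 3 a + 27` (from the equation of
`θ`), `θ - 3 = (θ + 6) - 9`, `Valued.v 9 = 1` (`9 = 1 + 2 * 4`), so `Valued.v (θ - 3) = 1` and `Valued.v γ = Valued.v (b + 3 a + 27) < Valued.v (2 ^ 12)`.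
`3 θ ^ 2 + a = 81 + 3 (θ + 6) (θ - 6) + (a + 27)`: value one, so not zero.

pt_sq: `(x - θ) (x ^ 2 + θ x + θ ^ 2 + a) = y ^ 2` (`linear_combination`). CASE `Valued.v s < Valued.v 4`: `x - θ = 9 + (s - (θ + 6))` and
`Valued.v (s - (θ + 6)) < Valued.v 4 = Valued.v (4 * 9)`: `sq_near` (`z = 9 = 3 ^ 2`) gives `x - θ = (3 r) ^ 2`.
CASE `Valued.v 4 ≤ Valued.v s` (so `s ≠ 0`): `g = s ^ 2 + (θ + 6) s + γ`, `Valued.v (g - s ^ 2) < Valued.v (4 * s ^ 2)`: `Valued.v ((θ + 6) s) < Valued.v (2 ^ 8) * Valued.v s`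
`≤ Valued.v (4 * s ^ 2)` since `Valued.v (2 ^ 8) ≤ Valued.v (4 * 4) ≤ Valued.v (4 * s)`, and `Valued.v γ < Valued.v (2 ^ 12) ≤ Valued.v (4 * 4 ^ 2) ≤ Valued.v (4 * s ^ 2)`.
By `sq_near` `g = s ^ 2 r ^ 2`, `r ≠ 0`, so `x - θ = (y / (s r)) ^ 2`.
-/

set_option autoImplicit false
set_option linter.unusedSectionVars false
open scoped Classical

open WithZero NumberField IsDedekindDomain H76PP

namespace H36CY

variable {F : Type*} [Field F] [CharZero F] [Valued F (WithZero (Multiplicative ℤ))]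

theorem pt_nat (n : ℕ) : Valued.v (n : F) ≤ 1 := by
  induction n with
  | zero => rw [Nat.cast_zero, map_zero]; exact zero_le
  | succ n ih =>
    rw [Nat.cast_succ]
    refine (Valued.v.map_add _ _).trans (max_le ih ?_)
    rw [map_one]

theorem pt_odd (h2 : Valued.v (2 : F) < 1) (n : ℕ) : Valued.v ((2 * n + 1 : ℕ) : F) = 1 := by
  have h1 : ((2 * n + 1 : ℕ) : F) = 2 * (n : F) + 1 := by push_cast; ring
  have h3 : Valued.v (2 * (n : F)) < 1 := by
    rw [map_mul]
    exact (mul_le_of_le_one_right' (pt_nat n)).trans_lt h2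
  rw [h1, Valued.v.map_add_eq_of_lt_right]
  · exact map_one _
  · rw [map_one]; exact h3

theorem val_facts {a b θ : F} (h : SpF a b) (hθ : RtF a b θ) :
    Valued.v (θ ^ 2 + 3 * θ + 9 + a) < Valued.v ((2 : F) ^ 12) ∧ 3 * θ ^ 2 + a ≠ 0 := by
  obtain ⟨h2, ha, hb⟩ := h
  obtain ⟨hr, ht⟩ := hθ
  have hp : ∀ k : ℕ, Valued.v ((2 : F) ^ k) ≤ 1 := by
    intro k
    rw [map_pow]
    exact pow_le_one' h2.le k
  have h9 : Valued.v (9 : F) = 1 := by
    have := pt_odd h2 4
    norm_num at this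
    exact this
  have h81 : Valued.v (81 : F) = 1 := by
    have := pt_odd h2 40
    norm_num at this
    exact this
  have ht1 : Valued.v (θ + 6) < 1 := ht.trans_le (hp 8)
  have h3 : Valued.v (θ - 3) = 1 := by
    have e : θ - 3 = (θ + 6) + (-9) := by ring
    rw [e, Valued.v.map_add_eq_of_lt_right]
    · rw [Valuation.map_neg, h9]
    · rw [Valuation.map_neg, h9]
      exact ht1
  constructor
  · have e : (θ - 3) * (θ ^ 2 + 3 * θ + 9 + a) = -(b + 3 * a + 27) := by
      linear_combination hr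
    have e2 : Valued.v (θ ^ 2 + 3 * θ + 9 + a) = Valued.v (b + 3 * a + 27) := by
      have e3 := congrArg Valued.v e
      rw [map_mul, h3, one_mul, Valuation.map_neg] at e3
      exact e3
    rw [e2]
    exact hb
  · intro h0
    have e : (3 * θ ^ 2 + a : F) = 81 + (3 * ((θ + 6) * (θ - 6)) + (a + 27)) := by ring
    have h4 : Valued.v (θ - 6) ≤ 1 := by
      have e4 : θ - 6 = (θ + 6) + (-12) := by ring
      rw [e4]
      refine (Valued.v.map_add _ _).trans (max_le ht1.le ?_)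
      rw [Valuation.map_neg]
      have := pt_nat (F := F) 12
      norm_num at this
      exact this
    have h5 : Valued.v (3 * ((θ + 6) * (θ - 6))) < 1 := by
      rw [map_mul, map_mul]
      have h6 : Valued.v (3 : F) ≤ 1 := by
        have := pt_nat (F := F) 3
        norm_num at this
        exact this
      have h7 : Valued.v (θ + 6) * Valued.v (θ - 6) < 1 :=
        (mul_le_of_le_one_right' h4).trans_lt ht1
      exact (mul_le_of_le_one_left' h6).trans_lt h7
    have h8 : Valued.v (a + 27) < 1 := ha.trans_le (hp 8)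
    have h10 : Valued.v (3 * ((θ + 6) * (θ - 6)) + (a + 27)) < 1 :=
      (Valued.v.map_add _ _).trans_lt (max_lt h5 h8)
    have h11 : Valued.v (3 * θ ^ 2 + a) = 1 := by
      rw [e, Valued.v.map_add_eq_of_lt_left]
      · exact h81
      · rw [h81]; exact h10
    rw [h0, map_zero] at h11
    exact zero_ne_one h11

theorem pt_sq [CompleteSpace F] {a b θ : F} (h : SpF a b) (hθ : RtF a b θ) {x y : F}
    (hxy : y ^ 2 = x ^ 3 + a * x + b) : IsSquare (x - θ) := by
  obtain ⟨hg, _⟩ := val_facts h hθ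
  obtain ⟨h2, ha, hb⟩ := h
  obtain ⟨hr, ht⟩ := hθ
  have e0 : (x - θ) * (x ^ 2 + θ * x + θ ^ 2 + a) = y ^ 2 := by
    linear_combination -hxy - hr
  have hp : ∀ k : ℕ, Valued.v ((2 : F) ^ k) ≤ 1 := by
    intro k
    rw [map_pow]
    exact pow_le_one' h2.le k
  have h9 : Valued.v (9 : F) = 1 := by
    have := pt_odd h2 4
    norm_num at this
    exact this
  have h4e : (4 : F) = 2 ^ 2 := by norm_num
  have h4 : Valued.v (4 : F) ≤ 1 := by rw [h4e]; exact hp 2
  have h28 : Valued.v ((2 : F) ^ 8) ≤ Valued.v (4 : F) := by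
    have e : (2 : F) ^ 8 = 4 * 2 ^ 6 := by norm_num
    rw [e, map_mul]
    exact mul_le_of_le_one_right' (hp 6)
  have h28' : Valued.v ((2 : F) ^ 8) ≤ Valued.v (4 : F) * Valued.v (4 : F) := by
    have e : (2 : F) ^ 8 = 4 * 4 * 2 ^ 4 := by norm_num
    rw [e, map_mul, map_mul]
    exact mul_le_of_le_one_right' (hp 4)
  have h212 : Valued.v ((2 : F) ^ 12) ≤ Valued.v (4 : F) * (Valued.v (4 : F) * Valued.v (4 : F)) := by
    have e : (2 : F) ^ 12 = 4 * (4 * 4) * 2 ^ 6 := by norm_num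
    rw [e, map_mul, map_mul, map_mul]
    exact mul_le_of_le_one_right' (hp 6)
  rcases lt_or_ge (Valued.v (x - 3)) (Valued.v (4 : F)) with hs | hs
  · have e : x - θ - 9 = (x - 3) - (θ + 6) := by ring
    have h5 : Valued.v (x - θ - 9) < Valued.v (4 * 9 : F) := by
      rw [map_mul, h9, mul_one, e]
      exact (Valued.v.map_sub _ _).trans_lt (max_lt hs (ht.trans_le h28))
    obtain ⟨r, _, hr2⟩ := sq_near h5
    refine ⟨3 * r, ?_⟩
    rw [hr2]
    ring
  · have hs0 : x - 3 ≠ 0 := by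
      intro h0
      rw [h0, map_zero] at hs
      have h6 : Valued.v (4 : F) = 0 := le_antisymm hs zero_le
      have h8 : (4 : F) = 0 := (Valuation.zero_iff _).1 h6
      norm_num at h8
    have hspos : 0 < Valued.v (x - 3) := (Valuation.pos_iff _).2 hs0
    have e : x ^ 2 + θ * x + θ ^ 2 + a - (x - 3) ^ 2 =
        (θ + 6) * (x - 3) + (θ ^ 2 + 3 * θ + 9 + a) := by ring
    have h5 : Valued.v (x ^ 2 + θ * x + θ ^ 2 + a - (x - 3) ^ 2) < Valued.v (4 * (x - 3) ^ 2) := by
      rw [e, map_mul _ 4, pow_two (x - 3), map_mul _ (x - 3)]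
      refine (Valued.v.map_add _ _).trans_lt (max_lt ?_ ?_)
      · rw [map_mul]
        have h6 : Valued.v (θ + 6) * Valued.v (x - 3) <
            Valued.v (4 : F) * Valued.v (4 : F) * Valued.v (x - 3) :=
          mul_lt_mul_of_pos_right (ht.trans_le h28') hspos
        refine h6.trans_le ?_
        rw [mul_assoc]
        exact mul_le_mul_right (mul_le_mul_left hs _) _
      · refine (hg.trans_le h212).trans_le ?_
        exact mul_le_mul_right (mul_le_mul' hs hs) _
    obtain ⟨r, hr0, hr2⟩ := sq_near h5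
    refine ⟨y / ((x - 3) * r), ?_⟩
    rw [hr2] at e0
    have h7 : ((x - 3) * r) ≠ 0 := mul_ne_zero hs0 hr0
    field_simp
    linear_combination e0

end H36CY
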